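import Mathlib.LinearAlgebra.FreeModule.PID
import Mathlib.Topology.Sheaves.Presheaf
import Mathlib.RingTheory.Flat.TorsionFree
import Mathlib.Algebra.Module.StablyFree.Basic
import Mathlib.LinearAlgebra.Matrix.FiniteDimensional
import Mathlib.RingTheory.SimpleRing.Principal
import Mathlib.RingTheory.TotallySplit
import Mathlib.RingTheory.Etale.Weakly
import Mathlib.Tactic.Polynomial.Basic
import Pool.Agent.BoltzD.Solver.Stmt
import Mathlib.MeasureTheory.Measure.RegularityCompacts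
import Mathlib.Topology.UniformSpace.Uniformizable
import Pool.Agent.BoltzD.En.Split
import Pool.Agent.BoltzD.M7.SvLim
import Pool.Agent.BoltzD.Solver.Ops

-- ======== part 0: formerly Pool.Agent.BoltzD.Gap.PolyAlg
section MrgPart0

/-!
Elementary algebra of polynomial functions on velocity space, and two linear algebra lemmas.
-/

set_option autoImplicit false

open MeasureTheory Pool.Agent.BoltzC Filter Topology
open scoped RealInnerProductSpace

noncomputable section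

namespace Pool.Agent.BoltzD

variable [Dim]

/-- Polynomial functions of degree less than `n`. -/
def PL : ℕ → Submodule ℝ (E → ℝ)
  | 0 => ⊥
  | n + 1 => PV n

instance (n : ℕ) : FiniteDimensional ℝ (PL n) := by
  cases n with
  | zero => exact inferInstanceAs (FiniteDimensional ℝ (⊥ : Submodule ℝ (E → ℝ)))
  | succ n => exact inferInstanceAs (FiniteDimensional ℝ (PV n))

lemma PL_le (n : ℕ) : PL n ≤ PV n := by
  cases n with
  | zero => exact bot_le
  | succ n => exact PV_mono (Nat.le_succ n)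

lemma const_mem (n : ℕ) (c : ℝ) : (fun _ : E => c) ∈ PV n := by
  have := (PV n).smul_mem c (Filt.base_mem n)
  convert this using 1
  funext v; simp

lemma PV_zero_const {φ : E → ℝ} (h : φ ∈ PV 0) : ∃ c : ℝ, φ = fun _ => c := by
  obtain ⟨c, rfl⟩ := Filt.mem_zero.1 h
  exact ⟨c, by funext v; simp⟩

lemma mulC_mem {n : ℕ} (j : Ix) {φ : E → ℝ} (h : φ ∈ PV n) : mulC j φ ∈ PV (n + 1) :=
  Filt.mul_mem j h

lemma PV_continuous {n : ℕ} : ∀ φ ∈ PV n, Continuous φ := by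
  induction n with
  | zero =>
    intro φ h
    obtain ⟨c, rfl⟩ := PV_zero_const h
    exact continuous_const
  | succ n ih =>
    refine Filt.succ_induction ih (fun j φ h => ?_) (fun φ ψ h h' => h.add h')
    have := ih φ h
    change Continuous fun v : E => v j * φ v
    fun_prop

lemma abs_coord_le (v : E) (j : Ix) : |v j| ≤ ‖v‖ := by
  simpa using PiLp.norm_apply_le v j

lemma PV_growth {n : ℕ} : ∀ φ ∈ PV n, ∃ C : ℝ, 0 ≤ C ∧ ∀ v, |φ v| ≤ C * (1 + ‖v‖) ^ n := by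
  induction n with
  | zero =>
    intro φ h
    obtain ⟨c, rfl⟩ := PV_zero_const h
    exact ⟨|c|, abs_nonneg _, fun v => by simp⟩
  | succ n ih =>
    refine Filt.succ_induction (fun φ h => ?_) (fun j φ h => ?_) (fun φ ψ h h' => ?_)
    · obtain ⟨C, hC, h⟩ := ih φ h
      refine ⟨C, hC, fun v => (h v).trans ?_⟩
      gcongr
      · linarith [norm_nonneg v]
      · exact Nat.le_succ n
    · obtain ⟨C, hC, h⟩ := ih φ h
      refine ⟨C, hC, fun v => ?_⟩
      rw [mulC_apply, abs_mul]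
      calc |v j| * |φ v| ≤ (1 + ‖v‖) * (C * (1 + ‖v‖) ^ n) := by
            gcongr
            · linarith [abs_coord_le v j]
            · exact h v
        _ = C * (1 + ‖v‖) ^ (n + 1) := by ring
    · obtain ⟨C, hC, h⟩ := h
      obtain ⟨C', hC', h'⟩ := h'
      refine ⟨C + C', add_nonneg hC hC', fun v => ?_⟩
      calc |(φ + ψ) v| ≤ |φ v| + |ψ v| := abs_add_le _ _
        _ ≤ _ := by linarith [h v, h' v]

lemma eq_sum_ev (v : E) : v = ∑ j, v j • ev j := by
  ext i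
  simp [ev, Pi.single_apply]

lemma lin_apply (l : E →L[ℝ] ℝ) (v : E) : l v = ∑ j, l (ev j) * v j := by
  conv_lhs => rw [eq_sum_ev v]
  simp [mul_comm]

lemma lin_mul_mem {n : ℕ} (l : E →L[ℝ] ℝ) {φ : E → ℝ} (h : φ ∈ PV n) :
    (fun v => l v * φ v) ∈ PV (n + 1) := by
  have : (fun v => l v * φ v) = ∑ j, l (ev j) • mulC j φ := by
    funext v
    rw [lin_apply l v]
    simp [Finset.sum_mul, mul_assoc]
  rw [this]
  exact Submodule.sum_mem _ fun j _ => Submodule.smul_mem _ _ (mulC_mem j h)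

lemma lin_mul_mem_PL {n : ℕ} (l : E →L[ℝ] ℝ) {φ : E → ℝ} (h : φ ∈ PL n) :
    (fun v => l v * φ v) ∈ PL (n + 1) := by
  cases n with
  | zero =>
    have : φ = 0 := (Submodule.mem_bot ℝ).1 h
    subst this
    simp only [Pi.zero_apply, mul_zero]
    exact const_mem 0 0
  | succ n => exact lin_mul_mem l h

lemma comp_affine_mem {n : ℕ} (A : E →L[ℝ] E) (b : E) :
    ∀ φ ∈ PV n, (fun x => φ (A x + b)) ∈ PV n := by
  induction n with
  | zero =>
    intro φ h
    obtain ⟨c, rfl⟩ := PV_zero_const h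
    exact const_mem 0 c
  | succ n ih =>
    refine Filt.succ_induction (fun φ h => PV_mono (Nat.le_succ n) (ih φ h)) (fun j φ h => ?_)
      (fun φ ψ h h' => Submodule.add_mem _ h h')
    have h1 := lin_mul_mem ((EuclideanSpace.proj j : E →L[ℝ] ℝ).comp A) (ih φ h)
    have h2 := (PV (n + 1)).smul_mem (b j) (PV_mono (Nat.le_succ n) (ih φ h))
    convert Submodule.add_mem _ h1 h2 using 1
    funext x
    simp [add_mul]

lemma diff_mem {n : ℕ} (A : E →L[ℝ] E) (b : E) :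
    ∀ φ ∈ PV n, (fun x => φ (A x + b) - φ (A x)) ∈ PL n := by
  induction n with
  | zero =>
    intro φ h
    obtain ⟨c, rfl⟩ := PV_zero_const h
    simp only [sub_self]
    exact Submodule.zero_mem _
  | succ n ih =>
    refine Filt.succ_induction (fun φ h => PL_le n (ih φ h)) (fun j φ h => ?_)
      (fun φ ψ h h' => ?_)
    · have h1 := lin_mul_mem_PL ((EuclideanSpace.proj j : E →L[ℝ] ℝ).comp A) (ih φ h)
      have h2 := (PV n).smul_mem (b j) (comp_affine_mem A b φ h)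
      convert Submodule.add_mem _ h1 h2 using 1
      funext x
      simp
      ring
    · convert Submodule.add_mem _ h h' using 1
      funext x
      simp
      ring

/-- Homogeneity of degree `n`. -/
def Homog (n : ℕ) (P : E → ℝ) : Prop := ∀ (t : ℝ) (x : E), P (t • x) = t ^ n * P x

lemma exists_top {n : ℕ} : ∀ φ ∈ PV n, ∃ P ∈ PV n, Homog n P ∧ φ - P ∈ PL n := by
  induction n with
  | zero =>
    intro φ h
    refine ⟨φ, h, ?_, by simp⟩
    obtain ⟨c, rfl⟩ := PV_zero_const h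
    intro t x; simp
  | succ n ih =>
    refine Filt.succ_induction (fun φ h => ?_) (fun j φ h => ?_) (fun φ ψ h h' => ?_)
    · exact ⟨0, Submodule.zero_mem _, fun t x => by simp, by rw [sub_zero]; exact h⟩
    · obtain ⟨P, hP, hH, hr⟩ := ih φ h
      refine ⟨mulC j P, mulC_mem j hP, fun t x => ?_, ?_⟩
      · simp [hH t x]; ring
      · convert lin_mul_mem_PL (EuclideanSpace.proj j : E →L[ℝ] ℝ) hr using 1
        funext x
        simp
        ring
    · obtain ⟨P, hP, hH, hr⟩ := h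
      obtain ⟨Q, hQ, hH', hr'⟩ := h'
      refine ⟨P + Q, Submodule.add_mem _ hP hQ, fun t x => ?_, ?_⟩
      · simp [hH t x, hH' t x]; ring
      · convert Submodule.add_mem _ hr hr' using 1
        abel

lemma homog_eq_zero {n : ℕ} {f : E → ℝ} (hf : f ∈ PL n) (hH : Homog n f) : f = 0 := by
  cases n with
  | zero => exact (Submodule.mem_bot ℝ).1 hf
  | succ n =>
    obtain ⟨C, hC, h⟩ := PV_growth f hf
    funext x
    by_contra hx
    have hpos : 0 < |f x| := abs_pos.2 hx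
    set K := C * (1 + ‖x‖) ^ n with hK
    have hK0 : 0 ≤ K := by positivity
    set t := K / |f x| + 1 with ht
    have ht1 : 1 ≤ t := by
      have : 0 ≤ K / |f x| := by positivity
      linarith
    have h1 := h (t • x)
    rw [hH t x, abs_mul, abs_of_nonneg (by positivity), norm_smul,
      Real.norm_of_nonneg (by linarith)] at h1
    have h2 : (1 + t * ‖x‖) ^ n ≤ (t * (1 + ‖x‖)) ^ n := by
      gcongr
      nlinarith [norm_nonneg x]
    have h3 : t ^ (n + 1) * |f x| ≤ t ^ n * K := by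
      calc t ^ (n + 1) * |f x| ≤ C * (1 + t * ‖x‖) ^ n := h1
        _ ≤ C * (t * (1 + ‖x‖)) ^ n := by gcongr
        _ = t ^ n * K := by rw [mul_pow, hK]; ring
    have h4 : t * |f x| ≤ K := by
      have htn : 0 < t ^ n := by positivity
      rw [pow_succ, mul_assoc] at h3
      exact le_of_mul_le_mul_left h3 htn
    rw [ht, add_mul, div_mul_cancel₀ _ hpos.ne'] at h4
    linarith

lemma PV_one_repr : ∀ φ ∈ PV 1, ∃ (c : ℝ) (b : Ix → ℝ), ∀ v, φ v = c + ∑ j, b j * v j := by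
  refine Filt.succ_induction (fun φ h => ?_) (fun j φ h => ?_) (fun φ ψ h h' => ?_)
  · obtain ⟨c, rfl⟩ := PV_zero_const h
    exact ⟨c, 0, fun v => by simp⟩
  · obtain ⟨c, rfl⟩ := PV_zero_const h
    refine ⟨0, Pi.single j c, fun v => ?_⟩
    simp [Pi.single_apply, mul_comm]
  · obtain ⟨c, b, h⟩ := h
    obtain ⟨c', b', h'⟩ := h'
    refine ⟨c + c', b + b', fun v => ?_⟩
    simp [h, h', add_mul, Finset.sum_add_distrib]
    ring

lemma coord_mem (j : Ix) : (fun v : E => v j) ∈ PV 1 := by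
  convert mulC_mem j (const_mem 0 1) using 1
  funext v; simp

lemma normSq_mem : (fun v : E => ‖v‖ ^ 2) ∈ PV 2 := by
  have : (fun v : E => ‖v‖ ^ 2) = ∑ j, mulC j (fun v : E => v j) := by
    funext v
    rw [EuclideanSpace.real_norm_sq_eq]
    simp [sq]
  rw [this]
  exact Submodule.sum_mem _ fun j _ => mulC_mem j (coord_mem j)

/-- An average of functions from a finite-dimensional space of functions lies in that space. -/
lemma integral_mem {X Θ : Type} [MeasurableSpace Θ] (V : Submodule ℝ (X → ℝ))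
    [FiniteDimensional ℝ V] (μ : Measure Θ) (f : Θ → X → ℝ) (hV : ∀ θ, f θ ∈ V)
    (hint : ∀ x, Integrable (fun θ => f θ x) μ) : (fun x => ∫ θ, f θ x ∂μ) ∈ V := by
  let ε : X → (V →ₗ[ℝ] ℝ) := fun x => (LinearMap.proj x).comp V.subtype
  have hspan : Submodule.span ℝ (Set.range ε) = ⊤ := by
    refine Submodule.span_eq_top_of_ne_zero fun z hz => ?_
    by_contra hcon
    push Not at hcon
    apply hz
    ext x
    exact hcon (ε x) ⟨x, rfl⟩
  have hall : ∀ l : V →ₗ[ℝ] ℝ, Integrable (fun θ => l ⟨f θ, hV θ⟩) μ := by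
    intro l
    have hl : l ∈ Submodule.span ℝ (Set.range ε) := by rw [hspan]; trivial
    induction hl using Submodule.span_induction with
    | mem l hl => obtain ⟨x, rfl⟩ := hl; exact hint x
    | zero => simp
    | add l l' _ _ h h' => exact h.add h'
    | smul c l _ h => exact h.const_mul c
  let b := Module.finBasis ℝ V
  have : (fun x => ∫ θ, f θ x ∂μ) = ∑ i, (∫ θ, b.coord i ⟨f θ, hV θ⟩ ∂μ) • (b i : X → ℝ) := by
    funext x
    have h1 : ∀ θ, f θ x = ∑ i, b.coord i ⟨f θ, hV θ⟩ * (b i : X → ℝ) x := by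
      intro θ
      have := congrArg (fun z : V => (z : X → ℝ) x) (b.sum_repr ⟨f θ, hV θ⟩)
      simp only [Submodule.coe_sum, Submodule.coe_smul, Finset.sum_apply, Pi.smul_apply,
        smul_eq_mul] at this
      exact this.symm
    simp only [h1, Finset.sum_apply, Pi.smul_apply, smul_eq_mul]
    rw [integral_finsetSum _ fun i _ => (hall _).mul_const _]
    exact Finset.sum_congr rfl fun i _ => integral_mul_const _ _
  rw [this]
  exact Submodule.sum_mem _ fun i _ => V.smul_mem _ (b i).2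

/-- A symmetric operator is bounded above by its largest eigenvalue. -/
lemma sym_bound {W H : Type} [AddCommGroup W] [Module ℝ W] [FiniteDimensional ℝ W]
    [NormedAddCommGroup H] [InnerProductSpace ℝ H] (J : W →ₗ[ℝ] H) (hJ : Function.Injective J)
    (T : W →ₗ[ℝ] W) (hT : ∀ x y, ⟪J (T x), J y⟫ = ⟪J x, J (T y)⟫) (μ0 : ℝ)
    (h : ∀ (μ : ℝ) (x : W), x ≠ 0 → T x = μ • x → μ ≤ μ0) (x : W) :
    ⟪J (T x), J x⟫ ≤ μ0 * ‖J x‖ ^ 2 := by
  let e := LinearEquiv.ofInjective J hJ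
  let T' : LinearMap.range J →ₗ[ℝ] LinearMap.range J := e.toLinearMap ∘ₗ T ∘ₗ e.symm.toLinearMap
  have he : ∀ z : W, ((e z : LinearMap.range J) : H) = J z := fun z => rfl
  have hT' : T'.IsSymmetric := by
    intro u v
    obtain ⟨u, rfl⟩ := e.surjective u
    obtain ⟨v, rfl⟩ := e.surjective v
    simp only [T', LinearMap.comp_apply, LinearEquiv.coe_coe, LinearEquiv.symm_apply_apply]
    exact hT u v
  let b := hT'.eigenvectorBasis rfl
  have hb : ∀ i, hT'.eigenvalues rfl i ≤ μ0 := by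
    intro i
    refine h _ (e.symm (b i)) ?_ ?_
    · intro h0
      have : b i = 0 := by simpa using congrArg e h0
      exact b.orthonormal.ne_zero i this
    · apply e.injective
      rw [map_smul, LinearEquiv.apply_symm_apply]
      exact hT'.apply_eigenvectorBasis rfl i
  have h1 : ⟪J (T x), J x⟫ = ⟪T' (e x), e x⟫ := by
    simp only [T', LinearMap.comp_apply, LinearEquiv.coe_coe, LinearEquiv.symm_apply_apply]
    rfl
  have h2 : ‖J x‖ = ‖e x‖ := rfl
  rw [h1, h2, ← b.sum_inner_mul_inner, ← b.sum_sq_inner_right, Finset.mul_sum]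
  refine Finset.sum_le_sum fun i _ => ?_
  rw [hT', hT'.apply_eigenvectorBasis rfl i, inner_smul_right, real_inner_comm]
  have := hb i
  simp only [RCLike.ofReal_real_eq_id, id]
  nlinarith [sq_nonneg ⟪b i, e x⟫]

end Pool.Agent.BoltzD

end
end MrgPart0

-- ======== part 1: formerly Pool.Agent.BoltzD.Gap.Sphere
section MrgPart1

/-!
Eigenvalue bounds for the averaging operator on homogeneous functions.
-/

set_option autoImplicit false

open MeasureTheory Pool.Agent.BoltzC Filter Topology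
open scoped RealInnerProductSpace

noncomputable section

namespace Pool.Agent.BoltzD

variable [Dim]

/-- The unit sphere. -/
abbrev Sph : Type := Metric.sphere (0 : E) 1

lemma Sph.norm_eq (x : Sph) : ‖(x : E)‖ = 1 := by simp

instance : Nonempty Sph := ⟨⟨ev 0, by simp [norm_ev]⟩⟩

variable (σ : Measure Sph) [IsProbabilityMeasure σ]

lemma integrable_sph {f : Sph → ℝ} (hf : Continuous f) : Integrable f σ :=
  hf.integrable_of_hasCompactSupport (HasCompactSupport.of_compactSpace f)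

lemma exists_delta [σ.IsOpenPosMeasure] :
    ∃ δ : ℝ, 0 < δ ∧ ∀ x y : Sph, δ ≤ ∫ ω : Sph, ⟪(x : E), (ω : E)⟫ ^ 2 * ⟪(y : E), (ω : E)⟫ ^ 2 ∂σ := by
  set F : Sph × Sph → ℝ := fun p =>
    ∫ ω : Sph, ⟪(p.1 : E), (ω : E)⟫ ^ 2 * ⟪(p.2 : E), (ω : E)⟫ ^ 2 ∂σ with hF
  have hc : Continuous F := by
    have := continuous_parametric_integral_of_continuous (μ := σ)
      (f := fun (p : Sph × Sph) (ω : Sph) => ⟪(p.1 : E), (ω : E)⟫ ^ 2 * ⟪(p.2 : E), (ω : E)⟫ ^ 2)
      (by unfold Function.uncurry; fun_prop) isCompact_univ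
    simpa using this
  obtain ⟨p, -, hp⟩ := isCompact_univ.exists_isMinOn Set.univ_nonempty hc.continuousOn
  refine ⟨F p, ?_, fun x y => hp (Set.mem_univ (x, y))⟩
  obtain ⟨x, y⟩ := p
  have key : ∀ z : E, ⟪(x : E), z⟫ ≠ 0 → ⟪(y : E), z⟫ ≠ 0 → 0 < F (x, y) := by
    intro z h1 h2
    have hz : z ≠ 0 := by rintro rfl; simp at h1
    have hn : 0 < ‖z‖ := norm_pos_iff.2 hz
    refine Continuous.integral_pos_of_hasCompactSupport_nonneg_nonzero (by fun_prop)
      (HasCompactSupport.of_compactSpace _) (fun ω => by positivity)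
      (x := ⟨‖z‖⁻¹ • z, by simp [norm_smul, hn.ne']⟩) ?_
    simp [inner_smul_right, h1, h2, hn.ne']
  have hx : ⟪(x : E), (x : E)⟫ = 1 := by rw [real_inner_self_eq_norm_sq, Sph.norm_eq]; norm_num
  have hy : ⟪(y : E), (y : E)⟫ = 1 := by rw [real_inner_self_eq_norm_sq, Sph.norm_eq]; norm_num
  by_cases h : 0 ≤ ⟪(x : E), (y : E)⟫
  · refine key (x + y) ?_ ?_
    · rw [inner_add_right, hx]; linarith
    · rw [inner_add_right, hy, real_inner_comm]; linarith
  · refine key (x - y) ?_ ?_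
    · rw [inner_sub_right, hx]; linarith
    · rw [inner_sub_right, hy, real_inner_comm]; linarith

lemma norm_sq_par (x : E) (ω : Sph) : ‖⟪x, (ω : E)⟫ • (ω : E)‖ ^ 2 = ⟪x, (ω : E)⟫ ^ 2 := by
  rw [norm_smul, Sph.norm_eq, mul_one, Real.norm_eq_abs, sq_abs]

lemma norm_sq_perp (x : E) (ω : Sph) :
    ‖x - ⟪x, (ω : E)⟫ • (ω : E)‖ ^ 2 = ‖x‖ ^ 2 - ⟪x, (ω : E)⟫ ^ 2 := by
  rw [norm_sub_sq_real, norm_sq_par, inner_smul_right]
  ring

lemma exists_perp (x : Sph) : ∃ y : Sph, ⟪(x : E), (y : E)⟫ = 0 := by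
  have h : Module.finrank ℝ (ℝ ∙ (x : E))ᗮ = dd - 1 := by
    have hx : (x : E) ≠ 0 := by
      intro h0
      have := Sph.norm_eq x
      rw [h0] at this
      simp at this
    have : Fact (Module.finrank ℝ E = dd - 1 + 1) :=
      ⟨by rw [finrank_Ix]; have := two_le_dd; omega⟩
    exact Submodule.finrank_orthogonal_span_singleton hx
  have : Nontrivial (ℝ ∙ (x : E))ᗮ := Module.nontrivial_of_finrank_pos (R := ℝ)
    (by have := two_le_dd; omega)
  obtain ⟨z, hz⟩ := exists_ne (0 : (ℝ ∙ (x : E))ᗮ)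
  have hz' : (z : E) ≠ 0 := fun h0 => hz (Subtype.ext h0)
  have hn : 0 < ‖(z : E)‖ := norm_pos_iff.2 hz'
  refine ⟨⟨‖(z : E)‖⁻¹ • (z : E), by simp [norm_smul, hz]⟩, ?_⟩
  have := Submodule.mem_orthogonal_singleton_iff_inner_right.1 z.2
  simp [inner_smul_right, this]

lemma perp_sq_le {x y : Sph} (h : ⟪(x : E), (y : E)⟫ = 0) (ω : Sph) :
    ⟪(y : E), (ω : E)⟫ ^ 2 ≤ 1 - ⟪(x : E), (ω : E)⟫ ^ 2 := by
  have h1 := norm_sq_perp (ω : E) x
  have h2 := abs_real_inner_le_norm (y : E) ((ω : E) - ⟪(ω : E), (x : E)⟫ • (x : E))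
  rw [inner_sub_right, inner_smul_right, real_inner_comm (x : E) y, h, mul_zero, sub_zero,
    Sph.norm_eq, one_mul] at h2
  rw [Sph.norm_eq, real_inner_comm] at h1
  have h3 := pow_le_pow_left₀ (abs_nonneg _) h2 2
  rw [sq_abs, real_inner_comm (x : E) ω] at h3
  linarith

lemma eq_norm_smul (y : E) (hy : y ≠ 0) : ∃ u : Sph, y = ‖y‖ • (u : E) := by
  have hn : 0 < ‖y‖ := norm_pos_iff.2 hy
  exact ⟨⟨‖y‖⁻¹ • y, by simp [norm_smul, hn.ne']⟩, by simp [smul_smul, hn.ne']⟩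

lemma Homog.zero {n : ℕ} (hn : n ≠ 0) {P : E → ℝ} (hH : Homog n P) : P 0 = 0 := by
  simpa [hn] using hH 0 0

lemma pow_le_aux {r : ℝ} (h0 : 0 ≤ r) (h1 : r ≤ 1) {n : ℕ} (hn : 3 ≤ n) :
    r ^ n ≤ r ^ 2 * (1 + r ^ 2) / 2 := by
  have h2 : r ^ n ≤ r ^ 3 := pow_le_pow_of_le_one h0 h1 hn
  nlinarith [mul_nonneg (sq_nonneg r) (sq_nonneg (1 - r))]

variable {σ}

lemma top_high {δ : ℝ}
    (hδ : ∀ x y : Sph, δ ≤ ∫ ω : Sph, ⟪(x : E), (ω : E)⟫ ^ 2 * ⟪(y : E), (ω : E)⟫ ^ 2 ∂σ)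
    {n : ℕ} (hn : 3 ≤ n) {P : E → ℝ} (hc : Continuous P) (hH : Homog n P) (hP : P ≠ 0) {μ : ℝ}
    (hμ : ∀ x, μ * P x =
      ∫ ω : Sph, (P (x - ⟪x, (ω : E)⟫ • (ω : E)) + P (⟪x, (ω : E)⟫ • (ω : E))) ∂σ) :
    μ ≤ 1 - δ := by
  obtain ⟨x, -, hx⟩ := isCompact_univ.exists_isMaxOn (Set.univ_nonempty (α := Sph))
    (f := fun x : Sph => |P x|) (by fun_prop)
  set s := |P x| with hs
  have hb : ∀ y, |P y| ≤ s * ‖y‖ ^ n := by
    intro y
    by_cases hy : y = 0
    · rw [hy, hH.zero (by omega), abs_zero]; positivity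
    · obtain ⟨u, hu⟩ := eq_norm_smul y hy
      conv_lhs => rw [hu, hH, abs_mul, abs_of_nonneg (by positivity)]
      rw [mul_comm]
      gcongr
      exact hx (Set.mem_univ u)
  have hs0 : 0 < s := by
    by_contra h
    have h0 : s = 0 := le_antisymm (not_lt.1 h) (abs_nonneg _)
    apply hP
    funext y
    have := hb y
    rw [h0, zero_mul] at this
    exact abs_nonpos_iff.1 this
  obtain ⟨y, hy⟩ := exists_perp x
  have hpt : ∀ ω : Sph, |P (x - ⟪(x : E), (ω : E)⟫ • (ω : E)) + P (⟪(x : E), (ω : E)⟫ • (ω : E))|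
      ≤ s * (1 - ⟪(x : E), (ω : E)⟫ ^ 2 * ⟪(y : E), (ω : E)⟫ ^ 2) := by
    intro ω
    have h1 := norm_sq_perp (x : E) ω
    have h2 := norm_sq_par (x : E) ω
    rw [Sph.norm_eq] at h1
    have h3 := perp_sq_le hy ω
    set c := ⟪(x : E), (ω : E)⟫ with hc
    set a := ‖(x : E) - c • (ω : E)‖ with ha
    set b := ‖c • (ω : E)‖ with hb'
    have ha0 : 0 ≤ a := norm_nonneg _
    have hb0 : 0 ≤ b := norm_nonneg _
    have ha1 : a ≤ 1 := by nlinarith [sq_nonneg c]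
    have hb1 : b ≤ 1 := by nlinarith [sq_nonneg a]
    have h4 := pow_le_aux ha0 ha1 hn
    have h5 := pow_le_aux hb0 hb1 hn
    have h6 : a ^ n + b ^ n ≤ 1 - c ^ 2 * ⟪(y : E), (ω : E)⟫ ^ 2 := by
      rw [h1] at h4
      rw [h2] at h5
      nlinarith [mul_le_mul_of_nonneg_left h3 (sq_nonneg c)]
    calc _ ≤ |P (x - c • (ω : E))| + |P (c • (ω : E))| := abs_add_le _ _
      _ ≤ s * a ^ n + s * b ^ n := add_le_add (hb _) (hb _)
      _ = s * (a ^ n + b ^ n) := by ring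
      _ ≤ _ := by gcongr
  have h1 : |μ * P x| ≤ s * (1 - δ) := by
    rw [hμ]
    calc _ ≤ ∫ ω : Sph, |P (x - ⟪(x : E), (ω : E)⟫ • (ω : E)) +
            P (⟪(x : E), (ω : E)⟫ • (ω : E))| ∂σ := abs_integral_le_integral_abs
      _ ≤ ∫ ω : Sph, s * (1 - ⟪(x : E), (ω : E)⟫ ^ 2 * ⟪(y : E), (ω : E)⟫ ^ 2) ∂σ :=
          integral_mono (integrable_sph σ (by fun_prop)) (integrable_sph σ (by fun_prop)) hpt
      _ = s * (1 - ∫ ω : Sph, ⟪(x : E), (ω : E)⟫ ^ 2 * ⟪(y : E), (ω : E)⟫ ^ 2 ∂σ) := by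
          rw [integral_const_mul, integral_sub (integrable_const _)
            (integrable_sph σ (by fun_prop))]
          simp
      _ ≤ s * (1 - δ) := by
          gcongr
          exact hδ x y
  rw [abs_mul, ← hs, mul_comm] at h1
  exact (le_abs_self μ).trans (le_of_mul_le_mul_left h1 hs0)

lemma top_two {δ : ℝ}
    (hδ : ∀ x y : Sph, δ ≤ ∫ ω : Sph, ⟪(x : E), (ω : E)⟫ ^ 2 * ⟪(y : E), (ω : E)⟫ ^ 2 ∂σ)
    {P : E → ℝ} (hc : Continuous P) (hH : Homog 2 P) {μ : ℝ}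
    (hμ : ∀ x, μ * P x =
      ∫ ω : Sph, (P (x - ⟪x, (ω : E)⟫ • (ω : E)) + P (⟪x, (ω : E)⟫ • (ω : E))) ∂σ) :
    μ ≤ 1 - δ ∨ ∃ c : ℝ, ∀ x, P x = c * ‖x‖ ^ 2 := by
  obtain ⟨x, -, hx⟩ := isCompact_univ.exists_isMaxOn (Set.univ_nonempty (α := Sph))
    (f := fun x : Sph => P x) (by fun_prop)
  obtain ⟨y, -, hy⟩ := isCompact_univ.exists_isMinOn (Set.univ_nonempty (α := Sph))
    (f := fun x : Sph => P x) (by fun_prop)
  set hi := P x with hhi
  set lo := P y with hlo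
  have hx' : ∀ u : Sph, P u ≤ hi := fun u => hx (Set.mem_univ u)
  have hy' : ∀ u : Sph, lo ≤ P u := fun u => hy (Set.mem_univ u)
  have hb : ∀ z, lo * ‖z‖ ^ 2 ≤ P z ∧ P z ≤ hi * ‖z‖ ^ 2 := by
    intro z
    by_cases hz : z = 0
    · rw [hz, hH.zero (by omega)]; simp
    · obtain ⟨u, hu⟩ := eq_norm_smul z hz
      have : P z = ‖z‖ ^ 2 * P u := by conv_lhs => rw [hu, hH]
      rw [this]
      constructor
      · rw [mul_comm]; gcongr; exact hy' u
      · rw [mul_comm hi]; gcongr; exact hx' u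
  by_cases hlt : lo < hi
  · left
    have hpt : ∀ ω : Sph,
        (P (x - ⟪(x : E), (ω : E)⟫ • (ω : E)) + P (⟪(x : E), (ω : E)⟫ • (ω : E))) -
          (P (y - ⟪(y : E), (ω : E)⟫ • (ω : E)) + P (⟪(y : E), (ω : E)⟫ • (ω : E)))
        ≤ (hi - lo) * (1 - ⟪(x : E), (ω : E)⟫ ^ 2 * ⟪(y : E), (ω : E)⟫ ^ 2) := by
      intro ω
      have h1 := (hb (x - ⟪(x : E), (ω : E)⟫ • (ω : E))).2
      have h2 := (hb (y - ⟪(y : E), (ω : E)⟫ • (ω : E))).1
      have h3 := sq_nonneg ‖(x : E) - ⟪(x : E), (ω : E)⟫ • (ω : E)‖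
      have h4 := sq_nonneg ‖(y : E) - ⟪(y : E), (ω : E)⟫ • (ω : E)‖
      rw [norm_sq_perp, Sph.norm_eq] at h1 h2 h3 h4
      rw [hH, hH]
      set a := ⟪(x : E), (ω : E)⟫ ^ 2 with ha
      set b := ⟪(y : E), (ω : E)⟫ ^ 2 with hb'
      have ha0 : 0 ≤ a := sq_nonneg _
      have hb0 : 0 ≤ b := sq_nonneg _
      have h5 : 0 ≤ hi - P ω := sub_nonneg.2 (hx' ω)
      have h6 : 0 ≤ P ω - lo := sub_nonneg.2 (hy' ω)
      have h7 : 0 ≤ a * (1 - b) * (hi - P ω) := mul_nonneg (mul_nonneg ha0 (by linarith)) h5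
      have h8 : 0 ≤ b * (1 - a) * (P ω - lo) := mul_nonneg (mul_nonneg hb0 (by linarith)) h6
      nlinarith
    have h1 : μ * (hi - lo) ≤ (hi - lo) * (1 - δ) := by
      rw [mul_sub μ, hhi, hlo, hμ, hμ, ← integral_sub (integrable_sph σ (by fun_prop))
        (integrable_sph σ (by fun_prop)), ← hhi, ← hlo]
      calc _ ≤ ∫ ω : Sph, (hi - lo) * (1 - ⟪(x : E), (ω : E)⟫ ^ 2 * ⟪(y : E), (ω : E)⟫ ^ 2) ∂σ :=
            integral_mono (integrable_sph σ (by fun_prop)) (integrable_sph σ (by fun_prop)) hpt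
        _ = (hi - lo) * (1 - ∫ ω : Sph, ⟪(x : E), (ω : E)⟫ ^ 2 * ⟪(y : E), (ω : E)⟫ ^ 2 ∂σ) := by
            rw [integral_const_mul, integral_sub (integrable_const _)
              (integrable_sph σ (by fun_prop))]
            simp
        _ ≤ (hi - lo) * (1 - δ) := by
            have := hδ x y
            have h0 : 0 ≤ hi - lo := by linarith
            gcongr
    rw [mul_comm μ] at h1
    exact le_of_mul_le_mul_left h1 (by linarith)
  · right
    refine ⟨hi, fun z => le_antisymm (hb z).2 (le_trans ?_ (hb z).1)⟩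
    gcongr
    exact not_lt.1 hlt

end Pool.Agent.BoltzD

end
end MrgPart1

-- ======== part 2: formerly Pool.Agent.BoltzD.Bg.Hyp
section MrgPart2

-- ======== part 0: formerly Pool.Agent.BoltzD.Bg.HypSym
section MrgPart0

/-! A small symbol calculus, uniform in `s ≥ 0`, at a length scale `Λ`. -/

set_option autoImplicit false

open Pool.Agent.BoltzC Finset

namespace Pool.Agent.BoltzD.Hyp

variable [Dim]

theorem dX_comp {a : E3 → ℝ} (ha : Dif a) {φ : ℝ → ℝ} {φ' : ℝ} {x : E3}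
    (h : HasDerivAt φ φ' (a x)) (i : Ix) : dX i (fun y => φ (a y)) x = φ' * dX i a x := by
  refine dX_eq (HasDerivAt.hd ?_)
  exact HasDerivAt.comp (0 : ℝ) (by simpa using h) (ha i x).hasDerivAt

theorem dif_comp {a : E3 → ℝ} (ha : Dif a) {φ φ' : ℝ → ℝ}
    (h : ∀ x, HasDerivAt φ (φ' (a x)) (a x)) : Dif fun y => φ (a y) :=
  dif_of_hd (G' := fun i x => φ' (a x) * dX i a x) fun i x =>
    HasDerivAt.hd (HasDerivAt.comp (0 : ℝ) (by simpa using h x) (ha i x).hasDerivAt)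

/-- Polynomials in `1 / a` with smooth coefficients. -/
inductive InvSpan (a : E3 → ℝ) : (Unit → E3 → ℝ) → Prop
  | base (b : E3 → ℝ) (hb : Sm b) (k : ℕ) : InvSpan a fun _ x => b x * ((a x)⁻¹) ^ k
  | add (g h : Unit → E3 → ℝ) (hg : InvSpan a g) (hh : InvSpan a h) :
      InvSpan a fun s x => g s x + h s x

theorem sm_inv {a : E3 → ℝ} (ha : Sm a) (h0 : ∀ x, a x ≠ 0) : Sm fun x => (a x)⁻¹ := by
  refine smC_coind (InvSpan a) ?_ (by simpa using InvSpan.base (a := a) _ (Sm.const 1) 1)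
  intro g hg
  induction hg with
  | base b hb k =>
    refine ⟨(hb.cont.comp continuous_snd).mul (((ha.cont.comp continuous_snd).inv₀
      fun p => h0 p.2).pow k), fun i => ⟨_, InvSpan.add _ _ (InvSpan.base _ (hb.dX i) k)
      (InvSpan.base (fun x => b x * (-k * dX i a x)) (hb.mul ((Sm.const _).mul (ha.dX i))) (k + 1)),
      fun s x => HasDerivAt.hd ?_⟩⟩
    have h1 := (hb.dif i x).hasDerivAt
    have h2 := (((ha.dif i x).hasDerivAt.inv (by simpa using h0 x)).fun_pow k)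
    refine (h1.mul h2).congr_deriv ?_
    simp only [zero_smul, add_zero, Pi.inv_apply]
    have := h0 x
    rcases k with _ | k
    · simp
    · simp only [Nat.add_sub_cancel, div_eq_mul_inv, ← inv_pow]
      ring
  | add g h _ _ ihg ihh =>
    refine ⟨ihg.1.add ihh.1, fun i => ?_⟩
    obtain ⟨a', ha1, ha2⟩ := ihg.2 i
    obtain ⟨b', hb1, hb2⟩ := ihh.2 i
    exact ⟨_, InvSpan.add _ _ ha1 hb1, fun s x => (ha2 s x).add (hb2 s x)⟩

/-- `a` has size `m`, uniformly in `s ≥ 0`. -/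
def Sz (m a : ℝ → E3 → ℝ) : Prop := ∃ K : ℝ, 0 ≤ K ∧ ∀ s, 0 ≤ s → ∀ x, |a s x| ≤ K * m s x

/-- Symbol of size `m` up to order `n`. -/
def SyN (Λ : ℝ → E3 → ℝ) : ℕ → (ℝ → E3 → ℝ) → (ℝ → E3 → ℝ) → Prop
  | 0, m, a => Sz m a
  | n + 1, m, a => Sz m a ∧ ∀ i, SyN Λ n (fun s x => m s x / Λ s x) fun s => dX i (a s)

variable {Λ m m' a b : ℝ → E3 → ℝ}

theorem SyN.sz {n : ℕ} (h : SyN Λ n m a) : Sz m a := by
  cases n with
  | zero => exact h
  | succ n => exact h.1

theorem SyN.pred {n : ℕ} (h : SyN Λ (n + 1) m a) : SyN Λ n m a := by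
  induction n generalizing m a with
  | zero => exact h.1
  | succ n ih => exact ⟨h.1, fun i => ih (h.2 i)⟩

theorem Sz.mono (h : Sz m a) {c : ℝ} (hc : 0 ≤ c) (hm : ∀ s, 0 ≤ s → ∀ x, m s x ≤ c * m' s x) :
    Sz m' a := by
  obtain ⟨K, h0, h⟩ := h
  exact ⟨K * c, mul_nonneg h0 hc, fun s hs x => (h s hs x).trans (by
    rw [mul_assoc]; exact mul_le_mul_of_nonneg_left (hm s hs x) h0)⟩

theorem SyN.mono (hΛ : ∀ s x, 0 < Λ s x) {n : ℕ} (h : SyN Λ n m a) {c : ℝ} (hc : 0 ≤ c)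
    (hm : ∀ s, 0 ≤ s → ∀ x, m s x ≤ c * m' s x) : SyN Λ n m' a := by
  induction n generalizing m m' a with
  | zero => exact Sz.mono h hc hm
  | succ n ih =>
    refine ⟨h.1.mono hc hm, fun i => ih (h.2 i) fun s hs x => ?_⟩
    rw [← mul_div_assoc]
    exact div_le_div_of_nonneg_right (hm s hs x) (hΛ s x).le

theorem Sz.add (h : Sz m a) (h' : Sz m b) : Sz m fun s x => a s x + b s x := by
  obtain ⟨K, h0, h⟩ := h
  obtain ⟨K', h0', h'⟩ := h'
  exact ⟨K + K', add_nonneg h0 h0', fun s hs x => (abs_add_le _ _).trans (by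
    rw [add_mul]; exact add_le_add (h s hs x) (h' s hs x))⟩

theorem Sz.mul (h : Sz m a) (h' : Sz m' b) :
    Sz (fun s x => m s x * m' s x) fun s x => a s x * b s x := by
  obtain ⟨K, h0, h⟩ := h
  obtain ⟨K', h0', h'⟩ := h'
  refine ⟨K * K', mul_nonneg h0 h0', fun s hs x => ?_⟩
  rw [abs_mul, mul_mul_mul_comm]
  exact mul_le_mul (h s hs x) (h' s hs x) (abs_nonneg _) ((abs_nonneg _).trans (h s hs x))

theorem SyN.add {n : ℕ} (ha : ∀ s, Sm (a s)) (hb : ∀ s, Sm (b s)) (h : SyN Λ n m a)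
    (h' : SyN Λ n m b) : SyN Λ n m fun s x => a s x + b s x := by
  induction n generalizing m a b with
  | zero => exact Sz.add h h'
  | succ n ih =>
    refine ⟨h.1.add h'.1, fun i => ?_⟩
    simp only [fun s => dX_add (ha s).dif (hb s).dif i]
    exact ih (fun s => (ha s).dX i) (fun s => (hb s).dX i) (h.2 i) (h'.2 i)

theorem SyN.mul (hΛ : ∀ s x, 0 < Λ s x) {n : ℕ} (ha : ∀ s, Sm (a s)) (hb : ∀ s, Sm (b s))
    (h : SyN Λ n m a) (h' : SyN Λ n m' b) :
    SyN Λ n (fun s x => m s x * m' s x) fun s x => a s x * b s x := by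
  induction n generalizing m m' a b with
  | zero => exact Sz.mul h h'
  | succ n ih =>
    refine ⟨h.1.mul h'.1, fun i => ?_⟩
    simp only [fun s => dX_mul (ha s).dif (hb s).dif i]
    refine SyN.add (fun s => ((ha s).dX i).mul (hb s)) (fun s => (ha s).mul ((hb s).dX i))
      ((ih (fun s => (ha s).dX i) hb (h.2 i) h'.pred).mono hΛ zero_le_one fun s _ x => ?_)
      ((ih ha (fun s => (hb s).dX i) h.pred (h'.2 i)).mono hΛ zero_le_one fun s _ x => ?_)
    · exact le_of_eq (by ring)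
    · exact le_of_eq (by ring)

theorem syN_zero {n : ℕ} : SyN Λ n m fun _ _ => 0 := by
  induction n generalizing m with
  | zero => exact ⟨0, le_rfl, fun s _ x => by simp⟩
  | succ n ih => exact ⟨⟨0, le_rfl, fun s _ x => by simp⟩, fun i => by simpa [dX_const] using ih⟩

/-- Smooth symbol of size `m`. -/
structure Sb (Λ m a : ℝ → E3 → ℝ) : Prop where
  pos : ∀ s x, 0 < Λ s x
  sm : ∀ s, Sm (a s)
  bd : ∀ n, SyN Λ n m a

theorem Sb.sz (h : Sb Λ m a) : Sz m a := h.bd 0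

theorem Sb.mono (h : Sb Λ m a) {c : ℝ} (hc : 0 ≤ c)
    (hm : ∀ s, 0 ≤ s → ∀ x, m s x ≤ c * m' s x) : Sb Λ m' a :=
  ⟨h.pos, h.sm, fun n => (h.bd n).mono h.pos hc hm⟩

theorem Sb.congr (h : Sb Λ m a) (hm : ∀ s x, m s x = m' s x) (hab : ∀ s x, a s x = b s x) :
    Sb Λ m' b := by
  obtain rfl : m = m' := funext fun s => funext (hm s)
  obtain rfl : a = b := funext fun s => funext (hab s)
  exact h

theorem Sb.add (h : Sb Λ m a) (h' : Sb Λ m b) : Sb Λ m fun s x => a s x + b s x :=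
  ⟨h.pos, fun s => (h.sm s).add (h'.sm s), fun n => (h.bd n).add h.sm h'.sm (h'.bd n)⟩

theorem Sb.mul (h : Sb Λ m a) (h' : Sb Λ m' b) :
    Sb Λ (fun s x => m s x * m' s x) fun s x => a s x * b s x :=
  ⟨h.pos, fun s => (h.sm s).mul (h'.sm s), fun n => (h.bd n).mul h.pos h.sm h'.sm (h'.bd n)⟩

theorem Sb.dX (h : Sb Λ m a) (i : Ix) :
    Sb Λ (fun s x => m s x / Λ s x) fun s => dX i (a s) :=
  ⟨h.pos, fun s => (h.sm s).dX i, fun n => (h.bd (n + 1)).2 i⟩

theorem sb_zero (hΛ : ∀ s x, 0 < Λ s x) : Sb Λ m fun _ _ => 0 :=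
  ⟨hΛ, fun _ => Sm.const _, fun _ => syN_zero⟩

theorem sb_time (hΛ : ∀ s x, 0 < Λ s x) (c : ℝ → ℝ) : Sb Λ (fun s _ => |c s|) fun s _ => c s := by
  refine ⟨hΛ, fun s => Sm.const _, fun n => ?_⟩
  have h0 : Sz (fun s _ => |c s|) fun s (_ : E3) => c s := ⟨1, zero_le_one, fun s _ x => by simp⟩
  cases n with
  | zero => exact h0
  | succ n => exact ⟨h0, fun i => by simpa [dX_const] using syN_zero⟩

theorem Sb.tmul (h : Sb Λ m a) {c : ℝ → ℝ} (hc : ∀ s, 0 ≤ c s) :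
    Sb Λ (fun s x => c s * m s x) fun s x => c s * a s x :=
  ((sb_time h.pos c).mul h).congr (fun s x => by rw [abs_of_nonneg (hc s)]) fun _ _ => rfl

theorem Sb.neg (h : Sb Λ m a) : Sb Λ m fun s x => -a s x :=
  ((sb_time h.pos fun _ => -1).mul h).congr (fun s x => by simp) fun s x => by simp

theorem Sb.sum3 {f : Ix → ℝ → E3 → ℝ} (h : ∀ i, Sb Λ m (f i)) :
    Sb Λ m fun s x => ∑ i, f i s x := by
  have key : ∀ t : Finset Ix, Sb Λ m fun s x => ∑ i ∈ t, f i s x := fun t => by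
    induction t using Finset.induction_on with
    | empty => simpa using sb_zero (h 0).pos
    | insert i t hi ih => exact ((h i).add ih).congr (fun _ _ => rfl) fun s x => by rw [sum_insert hi]
  exact key univ

theorem Sb.pow (h : Sb Λ m a) (k : ℕ) : Sb Λ (fun s x => m s x ^ k) fun s x => a s x ^ k := by
  induction k with
  | zero => exact (sb_time h.pos fun _ => 1).congr (fun s x => by simp) fun s x => by simp
  | succ k ih => exact (ih.mul h).congr (fun s x => by ring) fun s x => by ring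

theorem Sb.inv (h : Sb Λ m a) (h0 : ∀ s x, 0 < a s x) (hm : ∀ s x, 0 < m s x) {c : ℝ} (hc : 0 < c)
    (hge : ∀ s, 0 ≤ s → ∀ x, c * m s x ≤ a s x) :
    Sb Λ (fun s x => (m s x)⁻¹) fun s x => (a s x)⁻¹ := by
  have hs : ∀ s, Sm fun x => (a s x)⁻¹ := fun s => sm_inv (h.sm s) fun x => (h0 s x).ne'
  have z : Sz (fun s x => (m s x)⁻¹) fun s x => (a s x)⁻¹ := by
    refine ⟨c⁻¹, by positivity, fun s hs x => ?_⟩
    rw [abs_of_pos (inv_pos.2 (h0 s x)), ← mul_inv]
    exact inv_anti₀ (mul_pos hc (hm s x)) (hge s hs x)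
  refine ⟨h.pos, hs, fun n => ?_⟩
  induction n with
  | zero => exact z
  | succ n ih =>
    refine ⟨z, fun i => ?_⟩
    have e : (fun s => BoltzC.dX i fun x => (a s x)⁻¹) =
        fun s x => -BoltzC.dX i (a s) x * ((a s x)⁻¹ * (a s x)⁻¹) := by
      funext s x
      rw [dX_comp (h.sm s).dif (hasDerivAt_inv (h0 s x).ne')]
      field_simp
    rw [e]
    refine (((h.dX i).neg.bd n).mul h.pos (h.dX i).neg.sm (fun s => (hs s).mul (hs s))
      (ih.mul h.pos hs hs ih)).mono h.pos zero_le_one fun s _ x => le_of_eq ?_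
    have := (hm s x).ne'
    field_simp

theorem sb_of_symBd (hΛ : ∀ s x, 0 < Λ s x) (ha : ∀ s, Sm (a s)) (hm : ∀ s x, 0 ≤ m s x)
    {σ : ℝ → E3 → ℝ} (hσ : ∀ s x, Λ s x ≤ σ s x) {K : ℕ → ℝ}
    (h : ∀ s, 0 ≤ s → SymBd K 0 (σ s) (m s) (a s)) : Sb Λ m a := by
  have z : ∀ w : List Ix, Sz (fun s x => m s x / Λ s x ^ w.length) fun s => dXw w (a s) := by
    intro w
    refine ⟨|K w.length|, abs_nonneg _, fun s hs x => ?_⟩
    have h1 := hΛ s x
    rw [← mul_div_assoc, le_div_iff₀ (by positivity), mul_comm]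
    refine le_trans (mul_le_mul_of_nonneg_right (pow_le_pow_left₀ h1.le (hσ s x) _)
      (abs_nonneg _)) ((h s hs w (Nat.zero_le _) x).trans ?_)
    exact mul_le_mul_of_nonneg_right (le_abs_self _) (hm s x)
  have key : ∀ n (w : List Ix),
      SyN Λ n (fun s x => m s x / Λ s x ^ w.length) fun s => dXw w (a s) := by
    intro n
    induction n with
    | zero => exact z
    | succ n ih =>
      refine fun w => ⟨z w, fun i => ?_⟩
      have := ih (w ++ [i])
      simp only [dXw_concat, List.length_append, List.length_singleton, pow_succ, ← div_div] at this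
      exact this
  exact ⟨hΛ, ha, fun n => by simpa using key n []⟩

theorem SyN.word {n : ℕ} (h : SyN Λ n m a) : ∃ K : ℝ, 0 ≤ K ∧ ∀ s, 0 ≤ s →
    ∀ w : List Ix, w.length = n → ∀ x, |dXw w (a s) x| ≤ K * (m s x / Λ s x ^ n) := by
  induction n generalizing m a with
  | zero =>
    obtain ⟨K, h0, h⟩ := h
    refine ⟨K, h0, fun s hs w hw x => ?_⟩
    rw [List.length_eq_zero_iff.1 hw]
    simpa using h s hs x
  | succ n ih =>
    choose K h0 hK using fun i => ih (h.2 i)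
    refine ⟨∑ i, K i, Finset.sum_nonneg fun i _ => h0 i, fun s hs w hw x => ?_⟩
    obtain _ | ⟨i, u⟩ := w
    · simp at hw
    have h1 := hK i s hs u (by simpa using hw) x
    rw [div_div, ← pow_succ'] at h1
    by_cases hp : 0 ≤ m s x / Λ s x ^ (n + 1)
    · exact h1.trans (mul_le_mul_of_nonneg_right
        (Finset.single_le_sum (fun i _ => h0 i) (Finset.mem_univ i)) hp)
    · have hz : ∀ j, K j = 0 := fun j => by
        have h2 := hK j s hs u (by simpa using hw) x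
        rw [div_div, ← pow_succ'] at h2
        by_contra t
        have := mul_neg_of_pos_of_neg (lt_of_le_of_ne (h0 j) (Ne.symm t)) (not_le.1 hp)
        linarith [abs_nonneg (dXw u (BoltzC.dX j (a s)) x)]
      simpa [hz] using h1

theorem Sb.symBd (h : Sb Λ m a) {σ : ℝ → E3 → ℝ} (hσ0 : ∀ s x, 0 ≤ σ s x)
    (hσ : ∀ s x, σ s x ≤ 2 * Λ s x) :
    ∃ K : ℕ → ℝ, (∀ n, 0 ≤ K n) ∧ ∀ s, 0 ≤ s → SymBd K 0 (σ s) (m s) (a s) := by
  choose K h0 hK using fun n => (h.bd n).word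
  refine ⟨fun n => 2 ^ n * K n, fun n => by have := h0 n; positivity, fun s hs w _ x => ?_⟩
  have h1 := h.pos s x
  refine le_trans (mul_le_mul (pow_le_pow_left₀ (hσ0 s x) (hσ s x) _) (hK _ s hs w rfl x)
    (abs_nonneg _) (by positivity)) (le_of_eq ?_)
  rw [mul_pow]
  field_simp

theorem symBd_mono {K K' : ℕ → ℝ} {n0 n1 : ℕ} {σ m a : E3 → ℝ} (h : SymBd K n0 σ m a)
    (hK : ∀ n, K n ≤ K' n) (hn : n0 ≤ n1) (hm : ∀ x, 0 ≤ m x) : SymBd K' n1 σ m a :=
  fun w hw x => (h w (hn.trans hw) x).trans (mul_le_mul_of_nonneg_right (hK _) (hm x))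

end Pool.Agent.BoltzD.Hyp

end MrgPart0

-- ======== part 1: formerly Pool.Agent.BoltzD.Bg.HypPt
section MrgPart1

/-! Pointwise facts about the weights, used for the field `hyp`. -/

set_option autoImplicit false

open Pool.Agent.BoltzC Finset Filter Topology
open scoped ContDiff

namespace Pool.Agent.BoltzD.Hyp

variable [Dim]

theorem sm_of_cd {a : E3 → ℝ} (ha : ContDiff ℝ ∞ a) : Sm a := by
  refine smC_coind (fun g => ContDiff ℝ ∞ (g ())) ?_ ha
  intro g hg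
  refine ⟨hg.continuous.comp continuous_snd, fun i => ⟨fun _ x => fderiv ℝ (g ()) x (ev i),
    (hg.fderiv_right (m := ∞) (by simp)).clm_apply contDiff_const, fun s x => HasDerivAt.hd ?_⟩⟩
  have h1 : HasDerivAt (fun t : ℝ => x + t • ev i) (ev i) 0 := by
    simpa using ((hasDerivAt_id (0 : ℝ)).smul_const (ev i)).const_add x
  exact HasFDerivAt.comp_hasDerivAt (0 : ℝ)
    (by simpa using (hg.differentiable (by simp) x).hasFDerivAt) h1

theorem sm_slice {a : ℝ → E3 → ℝ} (ha : ContDiff ℝ ∞ fun p : ℝ × E3 => a p.1 p.2) (s : ℝ) :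
    Sm (a s) := sm_of_cd (ha.comp (contDiff_const.prodMk contDiff_id))

theorem sm_dS {a : ℝ → E3 → ℝ} (ha : ContDiff ℝ ∞ fun p : ℝ × E3 => a p.1 p.2) (s : ℝ) :
    Sm (dS a s) := by
  have e : dS a s = fun x => fderiv ℝ (fun p : ℝ × E3 => a p.1 p.2) (s, x) (1, 0) := by
    funext x
    have h1 : HasDerivAt (fun t : ℝ => ((t, x) : ℝ × E3)) (1, 0) s :=
      (hasDerivAt_id s).prodMk (hasDerivAt_const s x)
    exact (HasFDerivAt.comp_hasDerivAt s (ha.differentiable (by simp) (s, x)).hasFDerivAt h1).deriv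
  rw [e]
  exact sm_of_cd (((ha.fderiv_right (m := ∞) (by simp)).comp
    (contDiff_const.prodMk contDiff_id)).clm_apply contDiff_const)

theorem dX_congr_box {f g : E3 → ℝ} {a b : ℝ} (hab : a < b) (h : ∀ x, box b x → f x = g x)
    {x : E3} (hx : box a x) (i : Ix) : dX i f x = dX i g x := by
  unfold dX limUnder
  congr 1
  refine Filter.map_congr (Filter.Eventually.filter_mono nhdsWithin_le_nhds ?_)
  have : ∀ᶠ t in 𝓝 (0 : ℝ), |t| < b - a := by
    simpa using eventually_abs_sub_lt (0 : ℝ) (sub_pos.2 hab)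
  filter_upwards [this] with t ht
  rw [h x (fun j => (hx j).trans hab.le), h (x + t • ev i) fun j => ?_]
  have h1 : |(t • ev i : E3) j| ≤ |t| := by
    by_cases e : j = i <;> simp [ev_apply, e]
  have h2 := abs_add_le (x j) ((t • ev i : E3) j)
  have h3 := hx j
  simp only [PiLp.add_apply]
  linarith

theorem dX_scale {U : E3 → ℝ} (hU : Dif U) (c e : ℝ) (i : Ix) (x : E3) :
    dX i (fun y => c * U (e • y)) x = c * e * dX i U (e • x) := by
  refine dX_eq (HasDerivAt.hd ?_)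
  have h1 : HasDerivAt (fun t : ℝ => e * t) e 0 := by simpa using (hasDerivAt_id (0 : ℝ)).const_mul e
  have h2 := HasDerivAt.comp (0 : ℝ) (h := fun t : ℝ => e * t)
    (by simpa using (hU i (e • x)).hasDerivAt) h1
  refine ((h2.const_mul c).congr_deriv (by ring)).congr_of_eventuallyEq
    (Filter.Eventually.of_forall fun t => ?_)
  simp [smul_add, smul_smul]

theorem exists_box (x : E3) : ∃ n : Ix → ℤ, box (1 / 2) (x + ∑ i, (n i : ℝ) • ev i) := by
  obtain ⟨n, hn⟩ := exists_lattice_mem_cube (WithLp.toLp 2 fun _ => -(1 / 2)) x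
  refine ⟨n, fun i => ?_⟩
  have := hn i
  simp only [Set.mem_Ioc] at this
  exact abs_le.2 ⟨this.1.le, by linarith [this.2]⟩

theorem rho_nonneg (c : Cut) (x : E3) : 0 ≤ c.rho2 x := by
  obtain ⟨n, hn⟩ := exists_box x
  rw [← c.per_rho2.add_lattice n x]
  exact le_trans (by positivity) (c.rho2_ge _ hn)

theorem rho_grad (c : Cut) : ∃ K : ℝ, 0 < K ∧ ∀ i x, |dX i c.rho2 x| ≤ K * √(c.rho2 x) := by
  have hs := sm_of_cd c.cd_rho2
  choose M M0 hM using fun i => (c.per_rho2.dX i).exists_bound (hs.dX i).cont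
  have hsum : 0 ≤ ∑ i, M i := Finset.sum_nonneg fun i _ => (M0 i).le
  refine ⟨2 + 18 * ∑ i, M i, by positivity, fun i x => ?_⟩
  obtain ⟨n, hn⟩ := exists_box x
  rw [← c.per_rho2.add_lattice n x, ← (c.per_rho2.dX i).add_lattice n x]
  generalize x + ∑ i, (n i : ℝ) • ev i = y at hn
  have hq := Real.sqrt_nonneg (c.rho2 y)
  by_cases hy : box (1 / 5) y
  · have e : dX i (fun z : E3 => ‖z‖ ^ 2) y = 2 * y i := by
      refine dX_eq (HasDerivAt.hd ?_)
      have h1 : HasDerivAt (fun t : ℝ => y + t • ev i) (ev i) 0 := by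
        simpa using ((hasDerivAt_id (0 : ℝ)).smul_const (ev i)).const_add y
      simpa [inner_ev] using h1.norm_sq
    rw [dX_congr_box (by norm_num) c.rho2_eq hy, e,
      c.rho2_eq y (fun j => (hy j).trans (by norm_num)), Real.sqrt_sq (norm_nonneg _), abs_mul]
    have h1 : |y i| ≤ ‖y‖ := by simpa using PiLp.norm_apply_le y i
    have h2 := norm_nonneg y
    norm_num
    nlinarith
  · obtain ⟨j, hj⟩ := not_forall.1 hy
    have h1 : |y j| ≤ ‖y‖ := by simpa using PiLp.norm_apply_le y j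
    have h2 := c.rho2_ge y hn
    have h3 : 1 / 18 ≤ √(c.rho2 y) := Real.le_sqrt_of_sq_le (by nlinarith [not_le.1 hj])
    have h4 := (hM i y).trans (Finset.single_le_sum (fun i _ => (M0 i).le) (Finset.mem_univ i))
    nlinarith

variable (B : BgD)

/-- The square root in the definition of `sig`. -/
noncomputable def SS (s : ℝ) (x : E3) : ℝ := √(Real.exp (-2 * s) + B.nu ^ 2 * B.cut.rho2 x)

theorem exp2 (s : ℝ) : Real.exp (-2 * s) = Real.exp (-s) ^ 2 := by
  rw [← Real.exp_nat_mul]; congr 1; push_cast; ring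

theorem lam_arg (s : ℝ) (x : E3) : 0 < Real.exp (-2 * s) + B.cut.rho2 x := by
  have := rho_nonneg B.cut x
  positivity

theorem ss_arg (s : ℝ) (x : E3) : 0 < Real.exp (-2 * s) + B.nu ^ 2 * B.cut.rho2 x := by
  have := rho_nonneg B.cut x
  positivity

theorem lam_pos (s : ℝ) (x : E3) : 0 < B.Lam s x := Real.sqrt_pos.2 (lam_arg B s x)

theorem ss_pos (s : ℝ) (x : E3) : 0 < SS B s x := Real.sqrt_pos.2 (ss_arg B s x)

theorem sig_eq (s : ℝ) (x : E3) : B.sig s x = Real.exp (-s) + SS B s x := rfl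

theorem sig_pos (s : ℝ) (x : E3) : 0 < B.sig s x := add_pos (Real.exp_pos _) (ss_pos B s x)

theorem l_le_lam (s : ℝ) (x : E3) : Real.exp (-s) ≤ B.Lam s x :=
  Real.le_sqrt_of_sq_le (by rw [exp2]; linarith [rho_nonneg B.cut x])

theorem l_le_ss (s : ℝ) (x : E3) : Real.exp (-s) ≤ SS B s x :=
  Real.le_sqrt_of_sq_le (by
    have := mul_nonneg (sq_nonneg B.nu) (rho_nonneg B.cut x)
    rw [exp2]; linarith)

theorem rho_le_lam (s : ℝ) (x : E3) : √(B.cut.rho2 x) ≤ B.Lam s x :=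
  Real.sqrt_le_sqrt (by linarith [Real.exp_pos (-2 * s)])

theorem mu_pos (s : ℝ) (x : E3) : 0 < B.mu s x :=
  mul_pos (Real.exp_pos _) (Real.rpow_pos_of_pos (lam_pos B s x) _)

theorem om_pos (a s : ℝ) (x : E3) : 0 < B.om a s x :=
  mul_pos (Real.exp_pos _) (Real.rpow_pos_of_pos (lam_pos B s x) _)

theorem mu_eq (s : ℝ) (x : E3) : B.mu s x = (Real.exp (-s) / B.Lam s x) ^ B.r := by
  rw [Real.div_rpow (Real.exp_pos _).le (lam_pos B s x).le, ← Real.exp_mul, BgD.mu,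
    Real.rpow_neg (lam_pos B s x).le, div_eq_mul_inv]
  congr 2
  ring

theorem mu_lam (s : ℝ) (x : E3) :
    Real.exp (-B.r * s) * B.Lam s x ^ (1 - B.r) = B.mu s x * B.Lam s x := by
  rw [BgD.mu, sub_eq_add_neg, Real.rpow_add (lam_pos B s x), Real.rpow_one]
  ring

theorem mu_split (s : ℝ) (x : E3) : B.mu s x =
    (Real.exp (-s) / B.Lam s x) ^ (B.r - 1) * (Real.exp (-s) / B.Lam s x) := by
  rw [mu_eq, ← Real.rpow_add_one (div_pos (Real.exp_pos _) (lam_pos B s x)).ne', sub_add_cancel]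

theorem cd_lam (s : ℝ) : ContDiff ℝ ∞ (B.Lam s) :=
  (contDiff_const.add B.cut.cd_rho2).sqrt fun x => (lam_arg B s x).ne'

theorem per_lam (s : ℝ) : Per (B.Lam s) := fun i x => by simp only [BgD.Lam, B.cut.per_rho2 i x]

theorem dX_lam (s : ℝ) (i : Ix) (x : E3) :
    dX i (B.Lam s) x = dX i B.cut.rho2 x / (2 * B.Lam s x) := by
  have h := dX_comp (sm_of_cd B.cut.cd_rho2).dif (x := x)
    (((hasDerivAt_id (B.cut.rho2 x)).const_add (Real.exp (-2 * s))).sqrt (lam_arg B s x).ne') i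
  refine Eq.trans h ?_
  simp only [id, BgD.Lam]
  ring

theorem dX_sig (s : ℝ) (i : Ix) (x : E3) :
    dX i (B.sig s) x = B.nu ^ 2 * dX i B.cut.rho2 x / (2 * SS B s x) := by
  have h := dX_comp (sm_of_cd B.cut.cd_rho2).dif (x := x)
    (((((hasDerivAt_id (B.cut.rho2 x)).const_mul (B.nu ^ 2)).const_add
      (Real.exp (-2 * s))).sqrt (ss_arg B s x).ne').const_add (Real.exp (-s))) i
  refine Eq.trans h ?_
  simp only [id, SS]
  ring

theorem dX_lam_pow (c p s : ℝ) (i : Ix) (x : E3) :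
    dX i (fun y => c * B.Lam s y ^ p) x =
      p * (c * B.Lam s x ^ p) * (dX i (B.Lam s) x / B.Lam s x) := by
  have h0 := lam_pos B s x
  rw [dX_comp (sm_of_cd (cd_lam B s)).dif (φ := fun z => c * z ^ p)
    ((Real.hasDerivAt_rpow_const (Or.inl h0.ne')).const_mul c) i, Real.rpow_sub_one h0.ne']
  ring

theorem hd_exp2 (s : ℝ) : HasDerivAt (fun t => Real.exp (-2 * t)) (-2 * Real.exp (-2 * s)) s := by
  simpa [mul_comm] using ((hasDerivAt_id s).const_mul (-2)).exp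

theorem dS_sig (s : ℝ) (x : E3) : dS B.sig s x = -(Real.exp (-s) / SS B s x * B.sig s x) := by
  have h1 : HasDerivAt (fun t => Real.exp (-t)) (-Real.exp (-s)) s := by
    simpa using (hasDerivAt_neg s).exp
  have h2 := h1.add (((hd_exp2 s).add_const (B.nu ^ 2 * B.cut.rho2 x)).sqrt (ss_arg B s x).ne')
  refine Eq.trans h2.deriv ?_
  have := (ss_pos B s x).ne'
  rw [sig_eq, ← SS, exp2]
  field_simp
  ring

theorem dS_om (a s : ℝ) (x : E3) : dS (B.om a) s x =
    -2 * a * B.om a s x + (dd + 2 * a) * B.om a s x * (Real.exp (-s) / B.Lam s x) ^ 2 := by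
  have h0 := lam_pos B s x
  have h1 : HasDerivAt (fun t => Real.exp (-2 * a * t)) (Real.exp (-2 * a * s) * (-2 * a)) s := by
    simpa using ((hasDerivAt_id s).const_mul (-2 * a)).exp
  have h2 := (((hd_exp2 s).add_const (B.cut.rho2 x)).sqrt (lam_arg B s x).ne').rpow_const
    (p := -(dd : ℝ) - 2 * a) (Or.inl h0.ne')
  refine Eq.trans (h1.mul h2).deriv ?_
  rw [← BgD.Lam, Real.rpow_sub_one h0.ne', BgD.om, exp2]
  field_simp
  ring

variable {B}

theorem ss_le_lam (h0 : 0 < B.nu) (h1 : B.nu ≤ 1) (s : ℝ) (x : E3) : SS B s x ≤ B.Lam s x :=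
  Real.sqrt_le_sqrt (by
    have := mul_le_mul_of_nonneg_right (pow_le_one₀ (n := 2) h0.le h1) (rho_nonneg B.cut x)
    linarith)

theorem sig_le (h0 : 0 < B.nu) (h1 : B.nu ≤ 1) (s : ℝ) (x : E3) : B.sig s x ≤ 2 * B.Lam s x := by
  rw [sig_eq]
  linarith [l_le_lam B s x, ss_le_lam h0 h1 s x]

theorem nu_lam_le (h0 : 0 < B.nu) (h1 : B.nu ≤ 1) (s : ℝ) (x : E3) :
    B.nu * B.Lam s x ≤ SS B s x := by
  refine Real.le_sqrt_of_sq_le ?_
  rw [mul_pow, BgD.Lam, Real.sq_sqrt (lam_arg B s x).le]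
  have := mul_le_mul_of_nonneg_right (pow_le_one₀ (n := 2) h0.le h1) (Real.exp_pos (-2 * s)).le
  linarith

theorem ss_le (h0 : 0 < B.nu) (s : ℝ) (x : E3) :
    SS B s x ≤ Real.exp (-s) + B.nu * √(B.cut.rho2 x) := by
  have h2 := Real.exp_pos (-s)
  have h3 := Real.sqrt_nonneg (B.cut.rho2 x)
  refine Real.sqrt_le_iff.2 ⟨by positivity, ?_⟩
  rw [add_sq, mul_pow, Real.sq_sqrt (rho_nonneg B.cut x), exp2]
  have : 0 ≤ 2 * Real.exp (-s) * (B.nu * √(B.cut.rho2 x)) := by positivity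
  linarith

theorem mu_le (hr : 1 ≤ B.r) (s : ℝ) (x : E3) : B.mu s x ≤ Real.exp (-s) / B.Lam s x := by
  have h0 := div_pos (Real.exp_pos (-s)) (lam_pos B s x)
  rw [mu_eq]
  simpa using Real.rpow_le_rpow_of_exponent_ge h0
    ((div_le_one (lam_pos B s x)).2 (l_le_lam B s x)) hr

theorem sq_le_mu (hr : B.r ≤ 2) (s : ℝ) (x : E3) :
    (Real.exp (-s) / B.Lam s x) ^ 2 ≤ B.mu s x := by
  have h0 := div_pos (Real.exp_pos (-s)) (lam_pos B s x)
  rw [mu_eq]
  simpa using Real.rpow_le_rpow_of_exponent_ge h0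
    ((div_le_one (lam_pos B s x)).2 (l_le_lam B s x)) hr

section grad

variable {Kr : ℝ} (hK0 : 0 < Kr) (hK : ∀ i x, |dX i B.cut.rho2 x| ≤ Kr * √(B.cut.rho2 x))
include hK0 hK

theorem abs_dX_lam (s : ℝ) (i : Ix) (x : E3) : |dX i (B.Lam s) x| ≤ Kr / 2 := by
  have h0 := lam_pos B s x
  rw [dX_lam, abs_div, abs_of_pos (by positivity : 0 < 2 * B.Lam s x), div_le_iff₀ (by positivity)]
  have := mul_le_mul_of_nonneg_left (rho_le_lam B s x) hK0.le
  linarith [hK i x]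

theorem abs_dX_sig (h0 : 0 < B.nu) (h1 : B.nu ≤ 1) (s : ℝ) (i : Ix) (x : E3) :
    |dX i (B.sig s) x| ≤ B.nu * Kr ∧ |dX i (B.sig s) x| ≤ Kr := by
  have h2 := ss_pos B s x
  have h3 : |dX i (B.sig s) x| ≤ B.nu * Kr := by
    rw [dX_sig, abs_div, abs_of_pos (by positivity : 0 < 2 * SS B s x),
      div_le_iff₀ (by positivity), abs_mul, abs_of_pos (by positivity : 0 < B.nu ^ 2)]
    have a1 := (mul_le_mul_of_nonneg_left (rho_le_lam B s x) h0.le).trans (nu_lam_le h0 h1 s x)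
    have a2 := mul_le_mul_of_nonneg_left (hK i x) (sq_nonneg B.nu)
    have a3 := mul_le_mul_of_nonneg_left a1 (mul_pos h0 hK0).le
    have a4 := mul_pos (mul_pos h0 hK0) h2
    nlinarith
  exact ⟨h3, h3.trans (by nlinarith)⟩

theorem abs_dX_pow {c p Q : ℝ} (hc : 0 < c) (hp : |p| ≤ Q) (s : ℝ) (i : Ix) (x : E3) :
    B.Lam s x * |dX i (fun y => c * B.Lam s y ^ p) x| ≤ Q / 2 * Kr * (c * B.Lam s x ^ p) := by
  have h0 := lam_pos B s x
  have h1 : 0 < c * B.Lam s x ^ p := mul_pos hc (Real.rpow_pos_of_pos h0 _)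
  rw [dX_lam_pow, abs_mul, abs_mul, abs_div, abs_of_pos h1, abs_of_pos h0]
  have h2 := mul_le_mul hp (abs_dX_lam hK0 hK s i x) (abs_nonneg _) ((abs_nonneg _).trans hp)
  have h3 := mul_le_mul_of_nonneg_right h2 h1.le
  calc _ = |p| * |dX i (B.Lam s) x| * (c * B.Lam s x ^ p) := by field_simp
    _ ≤ _ := by linarith

theorem slow_pow (h0 : 0 < B.nu) (h1 : B.nu ≤ 1) {c p K Q : ℝ} (hc : 0 < c) (hp : |p| ≤ Q)
    (hKK : Q * Kr ≤ K) (s : ℝ) : Slow K (B.sig s) fun y => c * B.Lam s y ^ p := by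
  have hpos : ∀ x, 0 < c * B.Lam s x ^ p := fun x =>
    mul_pos hc (Real.rpow_pos_of_pos (lam_pos B s x) _)
  refine ⟨sm_of_cd (contDiff_const.mul ((cd_lam B s).rpow_const_of_ne
    fun x => (lam_pos B s x).ne')), (per_lam B s).map fun z => c * z ^ p, hpos, fun i x => ?_⟩
  have a1 := mul_le_mul_of_nonneg_right (sig_le h0 h1 s x)
    (abs_nonneg (dX i (fun y => c * B.Lam s y ^ p) x))
  have a2 := abs_dX_pow hK0 hK hc hp s i x
  have a3 := mul_le_mul_of_nonneg_right hKK (hpos x).le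
  linarith

theorem slow_sig (h0 : 0 < B.nu) (h1 : B.nu ≤ 1) {K : ℝ} (hKK : Kr ≤ K) (s : ℝ) :
    Slow K (B.sig s) (B.sig s) := by
  refine ⟨sm_of_cd (contDiff_const.add ((contDiff_const.add (contDiff_const.mul
    B.cut.cd_rho2)).sqrt fun x => (ss_arg B s x).ne')), fun i x => by
      simp only [BgD.sig, B.cut.per_rho2 i x], sig_pos B s, fun i x => ?_⟩
  rw [mul_comm]
  exact mul_le_mul_of_nonneg_right ((abs_dX_sig hK0 hK h0 h1 s i x).2.trans hKK)
    (sig_pos B s x).le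

end grad

end Pool.Agent.BoltzD.Hyp

end MrgPart1

-- ======== part 2: formerly Pool.Agent.BoltzD.Bg.HypBd
section MrgPart2

/-! Symbol bounds of the coefficients of the transport operator. -/

set_option autoImplicit false

open Pool.Agent.BoltzC Finset Filter

namespace Pool.Agent.BoltzD.Hyp

variable [Dim]

variable {B : BgD} {K : ℕ → ℝ} {c0 : ℝ} {U : Ix → E3 → ℝ} {C : E3 → ℝ}

theorem Sb.ev {m a : ℝ → E3 → ℝ} (h : Sb B.Lam m a) (h0 : 0 < B.nu) (h1 : B.nu ≤ 1)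
    (hm : ∀ s x, 0 ≤ m s x) :
    ∀ᶠ K' : ℕ → ℝ in atTop, ∀ s, 0 ≤ s → SymBd K' 0 (B.sig s) (m s) (a s) := by
  obtain ⟨K, -, hK⟩ := h.symBd (fun s x => (sig_pos B s x).le) (sig_le h0 h1)
  filter_upwards [eventually_ge_atTop K] with K' hK' s hs
  exact symBd_mono (hK s hs) hK' le_rfl (hm s)

theorem bd_ev (h : B.Pre K c0 U C) : ∀ᶠ K' : ℕ → ℝ in atTop, ∀ s, 0 ≤ s →
    (B.fld s).Bd K' (B.sig s) (B.mu s) ∧ SymBd K' 0 (B.sig s) (B.k1 s) (B.k1 s) := by
  have hΛ := lam_pos B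
  have hμ := mu_pos B
  have hm : ∀ s x, 0 < B.Lam s x ^ (1 - B.r) := fun s x => Real.rpow_pos_of_pos (hΛ s x) _
  have he : ∀ s, 0 ≤ Real.exp (-B.r * s) := fun s => (Real.exp_pos _).le
  have hu : ∀ i, Sb B.Lam (fun s x => B.Lam s x ^ (1 - B.r)) (B.u i) := fun i =>
    sb_of_symBd hΛ (sm_slice (h.cd_u i)) (fun s x => (hm s x).le) (fun _ _ => le_rfl)
      fun s hs => (h.sym s hs).1 i
  have hC : Sb B.Lam (fun s x => B.Lam s x ^ (1 - B.r)) B.C :=
    sb_of_symBd hΛ (sm_slice h.cd_C) (fun s x => (hm s x).le) (fun _ _ => le_rfl)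
      fun s hs => (h.sym s hs).2.1
  have hu' : ∀ i, Sb B.Lam (fun s x => B.mu s x * B.Lam s x ^ (1 - B.r)) (dS (B.u i)) := fun i =>
    sb_of_symBd hΛ (sm_dS (h.cd_u i)) (fun s x => (mul_pos (hμ s x) (hm s x)).le)
      (fun _ _ => le_rfl) fun s hs => (h.sym s hs).2.2.1 i
  have hC' : Sb B.Lam (fun s x => B.mu s x * B.Lam s x ^ (1 - B.r)) (dS B.C) :=
    sb_of_symBd hΛ (sm_dS h.cd_C) (fun s x => (mul_pos (hμ s x) (hm s x)).le)
      (fun _ _ => le_rfl) fun s hs => (h.sym s hs).2.2.2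
  have hF : ∀ {a : ℝ → E3 → ℝ}, Sb B.Lam (fun s x => B.Lam s x ^ (1 - B.r)) a →
      Sb B.Lam (fun s x => B.mu s x * B.Lam s x) fun s x => Real.exp (-B.r * s) * a s x :=
    fun ha => (ha.tmul he).congr (mu_lam B) fun _ _ => rfl
  have hF' : ∀ {a : ℝ → E3 → ℝ}, Sb B.Lam (fun s x => B.Lam s x ^ (1 - B.r)) a →
      Sb B.Lam (fun s x => B.mu s x * B.sig s x) fun s x => Real.exp (-B.r * s) * a s x := by
    refine fun ha => (hF ha).mono (c := B.nu⁻¹) (inv_pos.2 h.nu_pos).le fun s _ x => ?_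
    have a1 := nu_lam_le h.nu_pos h.nu_le s x
    have a2 : B.nu * B.Lam s x ≤ B.sig s x := by
      rw [sig_eq]; linarith [Real.exp_pos (-s)]
    rw [le_inv_mul_iff₀ h.nu_pos, mul_left_comm]
    exact mul_le_mul_of_nonneg_left a2 (hμ s x).le
  have hD : ∀ {a : ℝ → E3 → ℝ}, Sb B.Lam (fun s x => B.Lam s x ^ (1 - B.r)) a → ∀ i,
      Sb B.Lam B.mu fun s x => -(Real.exp (-B.r * s) * dX i (a s) x) := by
    refine fun ha i => ((ha.dX i).tmul he).neg.congr (fun s x => ?_) fun _ _ => rfl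
    rw [← mul_div_assoc, mu_lam, mul_div_assoc, div_self (hΛ s x).ne', mul_one]
  have hI := hC.inv h.C_pos hm h.c0_pos h.C_ge
  have hM : ∀ {a : ℝ → E3 → ℝ}, Sb B.Lam (fun s x => B.Lam s x ^ (1 - B.r)) a →
      Sb B.Lam (fun s x => B.mu s x * B.Lam s x ^ (1 - B.r)) (dS a) →
      Sb B.Lam B.mu fun s x => -B.mat a s x / B.C s x := by
    intro a ha ha'
    have a1 : Sb B.Lam (fun s x => B.mu s x * B.Lam s x ^ (1 - B.r)) (B.mat a) :=
      ha'.add (Sb.sum3 fun i => ((hF (hu i)).mul (ha.dX i)).congr (fun s x => by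
        have := (hΛ s x).ne'
        field_simp) fun _ _ => rfl)
    refine (a1.neg.mul hI).congr (fun s x => ?_) fun s x => (div_eq_mul_inv _ _).symm
    rw [mul_assoc, mul_inv_cancel₀ (hm s x).ne', mul_one]
  have hb1 : ∀ i j, Sb B.Lam B.mu fun s => (B.fld s).b1 i j := by
    intro i j
    by_cases e : i = j
    · refine ((hD (hu j) i).add (hM hC hC')).congr (fun _ _ => rfl) fun s x => ?_
      simp only [BgD.fld, if_pos e]
      ring
    · refine (hD (hu j) i).congr (fun _ _ => rfl) fun s x => ?_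
      simp only [BgD.fld, if_neg e, sub_zero]
  have hk : Sb B.Lam B.k1 B.k1 := by
    refine ((hC.pow (dd + 28)).tmul he).mono (c := (c0 ^ (dd + 28))⁻¹)
      (by have := h.c0_pos; positivity) fun s hs x => ?_
    rw [le_inv_mul_iff₀ (pow_pos h.c0_pos _), mul_left_comm, ← mul_pow]
    exact mul_le_mul_of_nonneg_left (pow_le_pow_left₀ (mul_pos h.c0_pos (hm s x)).le
      (h.C_ge s hs x) _) (he s)
  have p1 : ∀ s x, 0 ≤ B.mu s x := fun s x => (hμ s x).le
  have p2 : ∀ s x, 0 ≤ B.mu s x * B.sig s x := fun s x => (mul_pos (hμ s x) (sig_pos B s x)).le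
  have p3 : ∀ s x, 0 ≤ B.k1 s x := fun s x => mul_nonneg (he s) (pow_pos (h.C_pos s x) _).le
  filter_upwards [eventually_all.2 fun i => (hF' (hu i)).ev h.nu_pos h.nu_le p2,
    (hF' hC).ev h.nu_pos h.nu_le p2,
    eventually_all.2 fun j => (hM (hu j) (hu' j)).ev h.nu_pos h.nu_le p1,
    eventually_all.2 fun i => eventually_all.2 fun j => (hb1 i j).ev h.nu_pos h.nu_le p1,
    eventually_all.2 fun i => (hD hC i).ev h.nu_pos h.nu_le p1,
    hk.ev h.nu_pos h.nu_le p3] with K' e1 e2 e3 e4 e5 e6 s hs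
  exact ⟨⟨fun i => symBd_mono (e1 i s hs) (fun _ => le_rfl) (Nat.zero_le 2) (p2 s), e2 s hs,
    fun j => e3 j s hs, fun i j => e4 i j s hs, fun i => e5 i s hs⟩, e6 s hs⟩

end Pool.Agent.BoltzD.Hyp

end MrgPart2

-- ======== part 3: formerly Pool.Agent.BoltzD.Bg.Hyp
section MrgPart3

/-! The field `hyp`: growth of the weight and repulsivity, for small `nu` and large `s`. -/

set_option autoImplicit false

open Pool.Agent.BoltzC Finset Filter

namespace Pool.Agent.BoltzD.Hyp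

variable [Dim]

/-- A dimensional constant. -/
def cH : ℝ := dd + dd ^ 2

theorem cH_pos : 0 < cH := by
  have := dr_pos
  unfold cH
  positivity

theorem cs_le : cs ≤ dd := Real.sqrt_le_iff.2 ⟨dr_pos.le, by nlinarith [two_le_dr]⟩

theorem sqrt_sum_le {a : Ix → ℝ} {M : ℝ} (h : ∀ i, |a i| ≤ M) :
    cs * √(∑ i, a i ^ 2) ≤ dd ^ 2 * M := by
  have h0 : 0 ≤ M := (abs_nonneg _).trans (h 0)
  have hd := two_le_dr
  have h1 : ∀ i, a i ^ 2 ≤ M ^ 2 := fun i => sq_le_sq' (abs_le.1 (h i)).1 (abs_le.1 (h i)).2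
  have h2 : √(∑ i, a i ^ 2) ≤ dd * M := Real.sqrt_le_iff.2 ⟨by positivity, (sum_le_Ix h1).trans (by
    rw [mul_pow]
    exact mul_le_mul_of_nonneg_right (by nlinarith) (sq_nonneg M))⟩
  exact (mul_le_mul cs_le h2 (Real.sqrt_nonneg _) dr_pos.le).trans_eq (by ring)

theorem quad_ge {D : Ix → Ix → ℝ} {M : ℝ} (h : ∀ p i, |D p i| ≤ M) (ξ : Ix → ℝ) :
    -(dd * M * ∑ i, ξ i ^ 2) ≤ ∑ p, ∑ i, ξ p * ξ i * D p i := by
  have t : ∀ p i, -(M / 2 * ξ p ^ 2) + -(M / 2 * ξ i ^ 2) ≤ ξ p * ξ i * D p i := fun p i => by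
    obtain ⟨a, b⟩ := abs_le.1 (h p i)
    nlinarith [mul_nonneg (sub_nonneg.2 a) (sq_nonneg (ξ p + ξ i)),
      mul_nonneg (sub_nonneg.2 b) (sq_nonneg (ξ p - ξ i))]
  refine le_trans (le_of_eq ?_) (sum_le_sum fun p _ => sum_le_sum fun i _ => t p i)
  simp only [sum_add_distrib, sum_const_Ix, sum_neg_distrib, ← mul_sum]
  ring

theorem sum_mul_le {a b : Ix → ℝ} {M N : ℝ} (ha : ∀ i, |a i| ≤ M) (hb : ∀ i, |b i| ≤ N) :
    ∑ i, a i * b i ≤ dd * (M * N) :=
  sum_le_Ix fun i => (le_abs_self _).trans (by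
    rw [abs_mul]
    exact mul_le_mul (ha i) (hb i) (abs_nonneg _) ((abs_nonneg _).trans (ha i)))

variable {B : BgD} {K : ℕ → ℝ} {c0 : ℝ} {U : Ix → E3 → ℝ} {C : E3 → ℝ}

theorem dX_cmul {a : E3 → ℝ} (ha : Dif a) (c : ℝ) (i : Ix) (x : E3) :
    dX i (fun y => c * a y) x = c * dX i a x := congrFun (dX_const_smul ha c i) x

/-- Size of a coefficient and of its gradient. -/
theorem coef_le {a : E3 → ℝ} {s : ℝ} (ha : Dif a)
    (h : SymBd K 0 (B.Lam s) (fun x => B.Lam s x ^ (1 - B.r)) a) (x : E3) :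
    |Real.exp (-B.r * s) * a x| ≤ K 0 * (B.mu s x * B.Lam s x) ∧
      ∀ i, |dX i (fun y => Real.exp (-B.r * s) * a y) x| ≤ K 1 * B.mu s x := by
  have he := Real.exp_pos (-B.r * s)
  have hΛ := lam_pos B s x
  refine ⟨?_, fun i => ?_⟩
  · have := h [] le_rfl x
    simp only [List.length_nil, pow_zero, one_mul, dXw_nil] at this
    rw [abs_mul, abs_of_pos he, ← mu_lam, mul_left_comm]
    exact mul_le_mul_of_nonneg_left this he.le
  · have := h [i] (Nat.zero_le _) x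
    simp only [List.length_singleton, pow_one, dXw_cons, dXw_nil] at this
    rw [dX_cmul ha, abs_mul, abs_of_pos he]
    refine le_of_mul_le_mul_right ?_ hΛ
    rw [mul_assoc (K 1), ← mu_lam, mul_left_comm, mul_assoc, mul_comm _ (B.Lam s x)]
    exact mul_le_mul_of_nonneg_left this he.le

section grad

variable {Kr : ℝ} (hK0 : 0 < Kr) (hK : ∀ i x, |dX i B.cut.rho2 x| ≤ Kr * √(B.cut.rho2 x))
include hK0 hK

theorem d_om (h : B.Pre K c0 U C) {s a : ℝ} (hs : 0 ≤ s) (ha : 0 ≤ a) (ha' : a ≤ B.eta) (x : E3) :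
    dS (B.om a) s x + ∑ i, dX i (fun y => (B.fld s).u i y * B.om a s y) x + 2 * a * B.om a s x
      ≤ (dd + 2 * B.eta + dd * (K 1 + (dd + 2 * B.eta) / 2 * Kr * K 0)) * B.mu s x *
        B.om a s x := by
  have hω := om_pos B a s x
  have hμ := mu_pos B s x
  have hΛ := lam_pos B s x
  have hd := dr_pos
  have hp : |-(dd : ℝ) - 2 * a| ≤ dd + 2 * B.eta := abs_le.2 ⟨by linarith, by linarith⟩
  have hs1 := (slow_pow hK0 hK h.nu_pos h.nu_le (Real.exp_pos (-2 * a * s)) hp le_rfl s).sm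
  have t : ∀ i, dX i (fun y => (B.fld s).u i y * B.om a s y) x
      ≤ (K 1 + (dd + 2 * B.eta) / 2 * Kr * K 0) * B.mu s x * B.om a s x := by
    intro i
    have hu := sm_slice (h.cd_u i) s
    obtain ⟨a1, a2⟩ := coef_le hu.dif ((h.sym s hs).1 i) x
    have a3 : B.Lam s x * |dX i (B.om a s) x| ≤ (dd + 2 * B.eta) / 2 * Kr * B.om a s x :=
      abs_dX_pow hK0 hK (Real.exp_pos (-2 * a * s)) hp s i x
    have e : dX i (fun y => (B.fld s).u i y * B.om a s y) x =
        dX i (fun y => Real.exp (-B.r * s) * B.u i s y) x * B.om a s x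
          + Real.exp (-B.r * s) * B.u i s x * dX i (B.om a s) x :=
      congrFun (dX_mul ((Sm.const _).mul hu).dif hs1.dif i) x
    have a4 := mul_le_mul_of_nonneg_right ((le_abs_self _).trans (a2 i)) hω.le
    have a5 := le_abs_self (Real.exp (-B.r * s) * B.u i s x * dX i (B.om a s) x)
    rw [abs_mul] at a5
    have a6 := mul_le_mul_of_nonneg_right a1 (abs_nonneg (dX i (B.om a s) x))
    have a7 := mul_le_mul_of_nonneg_left a3 (mul_pos (h.K_pos 0) hμ).le
    rw [e]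
    linarith
  have a1 := mul_le_mul_of_nonneg_left (sq_le_mu (B := B) (by linarith [h.r_lt]) s x)
    (by positivity : 0 ≤ (dd + 2 * a) * B.om a s x)
  have a2 := mul_le_mul_of_nonneg_right ha' (mul_pos hω hμ).le
  rw [dS_om]
  linarith [sum_le_Ix t]

/-- The terms with a derivative of the length scale are small. -/
theorem small_terms (h : B.Pre K c0 U C) {s : ℝ} (hs : 0 ≤ s) (x : E3) :
    ∑ i, (B.fld s).u i x * dX i (B.sig s) x
      + cs * |(B.fld s).c x| * √(∑ i, dX i (B.sig s) x ^ 2)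
      ≤ cH * K 0 * Kr * B.nu * (Real.exp (-s) / SS B s x * B.sig s x) := by
  have hΛ := lam_pos B s x
  have hS := ss_pos B s x
  have hl := Real.exp_pos (-s)
  have k0 := h.K_pos 0
  have hν := h.nu_pos
  have b0 : K 0 * (B.mu s x * B.Lam s x) ≤ K 0 * Real.exp (-s) :=
    mul_le_mul_of_nonneg_left ((le_div_iff₀ hΛ).1 (mu_le (by linarith [h.r_gt]) s x)) k0.le
  have b1 := fun i => (abs_dX_sig hK0 hK h.nu_pos h.nu_le s i x).1
  have b2 := sum_mul_le (a := fun i => (B.fld s).u i x) (fun i =>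
    (coef_le (sm_slice (h.cd_u i) s).dif ((h.sym s hs).1 i) x).1.trans b0) b1
  have b3 : |(B.fld s).c x| ≤ K 0 * Real.exp (-s) :=
    (coef_le (sm_slice h.cd_C s).dif (h.sym s hs).2.1 x).1.trans b0
  have b4 := mul_le_mul b3 (sqrt_sum_le b1) (mul_nonneg cs_pos.le (Real.sqrt_nonneg _))
    (by positivity)
  have b5 : Real.exp (-s) ≤ Real.exp (-s) / SS B s x * B.sig s x := by
    rw [div_mul_eq_mul_div, le_div_iff₀ hS, sig_eq]
    nlinarith
  have hH := cH_pos
  refine le_trans ?_ (mul_le_mul_of_nonneg_left b5 (by positivity))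
  unfold cH
  linarith

end grad

/-- Near the lattice the gradients are those of the profile. -/
theorem near_eq (h : B.Pre K c0 U C) (s : ℝ) {x : E3} (hx : B.cut.rho2 x ≤ 1 / 1200) : ∃ y : E3,
    (∀ p i, dX p ((B.fld s).u i) x = dX p (U i) y) ∧ ∀ p, dX p (B.fld s).c x = dX p C y := by
  obtain ⟨n, hn⟩ := exists_box x
  have key : ∀ {a Φ : E3 → ℝ}, Per a → Dif Φ →
      (∀ z, box (1 / 8) z → a z = Real.exp ((B.r - 1) * s) * Φ (Real.exp s • z)) → ∀ p,
      dX p (fun z => Real.exp (-B.r * s) * a z) x =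
        dX p Φ (Real.exp s • (x + ∑ i, (n i : ℝ) • ev i)) := by
    intro a Φ ha hΦ he p
    rw [← ((ha.map fun t => Real.exp (-B.r * s) * t).dX p).add_lattice n x]
    rw [← B.cut.per_rho2.add_lattice n x] at hx
    generalize x + ∑ i, (n i : ℝ) • ev i = z at hn hx
    have hz : box (1 / 10) z := fun j => by
      have h1 : |z j| ≤ ‖z‖ := by simpa using PiLp.norm_apply_le z j
      have h2 := B.cut.rho2_ge z hn
      nlinarith [norm_nonneg z]
    rw [dX_congr_box (g := fun z => Real.exp (-B.r * s) * Real.exp ((B.r - 1) * s) *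
      Φ (Real.exp s • z)) (by norm_num : (1 / 10 : ℝ) < 1 / 8)
      (fun w hw => by rw [he w hw, mul_assoc]) hz, dX_scale hΦ, ← Real.exp_add, ← Real.exp_add]
    rw [show -B.r * s + (B.r - 1) * s + s = 0 by ring, Real.exp_zero, one_mul]
  exact ⟨_, fun p i => key (h.per_u i s) (sm_of_cd (h.cd_U' i)).dif
    (fun z hz => (h.scal s z hz).1 i) p,
    key (h.per_C s) (sm_of_cd h.cd_C').dif fun z hz => (h.scal s z hz).2⟩

theorem rep_of (h : B.Pre K c0 U C) {lam Kr δ s : ℝ} (hlam : 0 < lam)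
    (hrep : ∀ (y : E3) (ξ : Ix → ℝ), lam * ∑ i, ξ i ^ 2 ≤
      (1 - cs * √(∑ i, dX i C y ^ 2)) * ∑ i, ξ i ^ 2 + ∑ p, ∑ i, ξ p * ξ i * dX p (U i) y)
    (hK0 : 0 < Kr) (hK : ∀ i x, |dX i B.cut.rho2 x| ≤ Kr * √(B.cut.rho2 x))
    (hδ : 0 < δ) (hε : 4 * cH * K 1 * δ ^ (B.r - 1) ≤ 1) (hη : cH * K 0 * Kr * B.nu ≤ 1 / 4)
    (hη' : cH * K 0 * Kr * B.nu ≤ lam / 4) (hν : B.nu ≤ lam / 4 * δ) (hs : 0 ≤ s)
    (hl : Real.exp (-s) ≤ δ / 40) (x : E3) (ξ : Ix → ℝ) :
    min (1 / 2) (lam / 2) * B.mu s x * B.sig s x * ∑ i, ξ i ^ 2 ≤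
      (-dS B.sig s x - ∑ i, (B.fld s).u i x * dX i (B.sig s) x
          - cs * |(B.fld s).c x| * √(∑ i, dX i (B.sig s) x ^ 2)
          - cs * B.sig s x * √(∑ i, dX i (B.fld s).c x ^ 2)) * ∑ i, ξ i ^ 2
        + B.sig s x * ∑ p, ∑ i, ξ p * ξ i * dX p ((B.fld s).u i) x := by
  have hΛ := lam_pos B s x
  have hS := ss_pos B s x
  have hσ := sig_pos B s x
  have hμ := mu_pos B s x
  have hl0 := Real.exp_pos (-s)
  have k1 := h.K_pos 1
  have hH := cH_pos
  have hN : 0 ≤ ∑ i, ξ i ^ 2 := Finset.sum_nonneg fun i _ => sq_nonneg _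
  have hσN := mul_nonneg hσ.le hN
  have b0 := mul_le_mul_of_nonneg_right (small_terms hK0 hK h hs x) hN
  have q0 : B.mu s x ≤ Real.exp (-s) / B.Lam s x := mu_le (by linarith [h.r_gt]) s x
  have q1 : Real.exp (-s) / B.Lam s x ≤ Real.exp (-s) / SS B s x :=
    div_le_div_of_nonneg_left hl0.le hS (ss_le_lam h.nu_pos h.nu_le s x)
  have q2 : Real.exp (-s) / SS B s x ≤ 1 := (div_le_one hS).2 (l_le_ss B s x)
  have q3 := div_pos hl0 hΛ
  rw [dS_sig]
  by_cases hc : Real.exp (-s) / B.Lam s x ≤ δ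
  · have a1 : 4 * cH * K 1 * B.mu s x ≤ Real.exp (-s) / SS B s x := by
      have t1 := Real.rpow_le_rpow q3.le hc (by linarith [h.r_gt] : 0 ≤ B.r - 1)
      have t2 := (mul_le_mul_of_nonneg_left t1 (by positivity : 0 ≤ 4 * cH * K 1)).trans hε
      have t3 := mul_le_mul_of_nonneg_right t2 q3.le
      rw [mu_split]
      linarith
    have a2 := sqrt_sum_le (a := fun i => dX i (B.fld s).c x)
      (coef_le (sm_slice h.cd_C s).dif (h.sym s hs).2.1 x).2
    have a3 := quad_ge (D := fun p i => dX p ((B.fld s).u i) x) (fun p i =>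
      (coef_le (sm_slice (h.cd_u i) s).dif ((h.sym s hs).1 i) x).2 p) ξ
    have a4 := mul_le_mul_of_nonneg_right a2 hσN
    have a5 := mul_le_mul_of_nonneg_left a3 hσ.le
    have a6 := mul_le_mul_of_nonneg_right a1 hσN
    have a7 := mul_le_mul_of_nonneg_right (q0.trans q1) hσN
    have a8 := mul_le_mul_of_nonneg_right (min_le_left (1 / 2) (lam / 2)) (mul_nonneg hμ.le hσN)
    have a9 := mul_le_mul_of_nonneg_right hη (mul_nonneg (q3.le.trans q1) hσN)
    unfold cH at *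
    linarith
  · have a0 : δ * √(B.cut.rho2 x) ≤ Real.exp (-s) := by
      have := (lt_div_iff₀ hΛ).1 (not_le.1 hc)
      nlinarith [rho_le_lam B s x]
    have a1 : √(B.cut.rho2 x) ≤ 1 / 40 := le_of_mul_le_mul_left (by linarith) hδ
    obtain ⟨y, e1, e2⟩ := near_eq h s (x := x)
      ((Real.sqrt_le_iff.1 a1).2.trans (by norm_num))
    have a2 : 1 - lam / 4 ≤ Real.exp (-s) / SS B s x := by
      rw [le_div_iff₀ hS]
      have t1 := mul_le_mul_of_nonneg_right hν (Real.sqrt_nonneg (B.cut.rho2 x))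
      have t2 := mul_le_mul_of_nonneg_left (a0.trans (l_le_ss B s x)) hlam.le
      linarith [ss_le h.nu_pos s x]
    simp only [e1, e2]
    have a3 := mul_le_mul_of_nonneg_left (hrep y ξ) hσ.le
    have a4 := mul_le_mul_of_nonneg_right a2 hσN
    have a5 := mul_le_mul hη' q2 (q3.le.trans q1) (by positivity)
    have a6 := mul_le_mul_of_nonneg_right a5 hσN
    have a7 := mul_le_mul (min_le_right (1 / 2) (lam / 2)) ((q0.trans q1).trans q2) hμ.le
      (by positivity)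
    have a8 := mul_le_mul_of_nonneg_right a7 hσN
    linarith

theorem hyp_of (h : B.Pre K c0 U C) {lam Kr δ : ℝ} (hlam : 0 < lam)
    (hrep : ∀ (y : E3) (ξ : Ix → ℝ), lam * ∑ i, ξ i ^ 2 ≤
      (1 - cs * √(∑ i, dX i C y ^ 2)) * ∑ i, ξ i ^ 2 + ∑ p, ∑ i, ξ p * ξ i * dX p (U i) y)
    (hK0 : 0 < Kr) (hK : ∀ i x, |dX i B.cut.rho2 x| ≤ Kr * √(B.cut.rho2 x))
    (hδ : 0 < δ) (hε : 4 * cH * K 1 * δ ^ (B.r - 1) ≤ 1) (hη : cH * K 0 * Kr * B.nu ≤ 1 / 4)
    (hη' : cH * K 0 * Kr * B.nu ≤ lam / 4) (hν : B.nu ≤ lam / 4 * δ) : B.Hyp := by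
  obtain ⟨K', e1, e2⟩ := ((bd_ev h).and (eventually_ge_atTop fun _ =>
    max ((dd + 2 * B.eta) * Kr)
      (dd + 2 * B.eta + dd * (K 1 + (dd + 2 * B.eta) / 2 * Kr * K 0)))).exists
  refine ⟨K', min (1 / 2) (lam / 2), max 0 (-Real.log (δ / 40)), by positivity,
    le_max_left _ _, fun s hs => ?_⟩
  have hs0 : 0 ≤ s := (le_max_left _ _).trans hs
  have hl : Real.exp (-s) ≤ δ / 40 := by
    rw [← Real.le_log_iff_exp_le (by positivity)]
    linarith [le_max_right 0 (-Real.log (δ / 40))]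
  have e3 : (dd + 2 * B.eta) * Kr ≤ K' 1 := (le_max_left _ _).trans (e2 1)
  have e4 := (le_max_right _ _).trans (e2 0)
  have hd := two_le_dr
  refine ⟨(e1 s hs0).1, (e1 s hs0).2, fun a ha ha' => ⟨?_,
    slow_sig hK0 hK h.nu_pos h.nu_le (le_trans (by nlinarith) e3) s, ?_, fun x => (d_om hK0 hK h hs0 ha ha' x).trans ?_,
    rep_of h hlam hrep hK0 hK hδ hε hη hη' hν hs0 hl⟩⟩
  · exact slow_pow hK0 hK h.nu_pos h.nu_le (Real.exp_pos (-2 * a * s)) (p := -(dd : ℝ) - 2 * a)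
      (abs_le.2 ⟨by linarith, by linarith⟩) e3 s
  · exact slow_pow hK0 hK h.nu_pos h.nu_le (Real.exp_pos (-B.r * s)) (p := -B.r)
      (abs_le.2 ⟨by linarith [h.r_lt], by linarith [h.r_gt]⟩) e3 s
  · exact mul_le_mul_of_nonneg_right (mul_le_mul_of_nonneg_right e4 (mu_pos B s x).le)
      (om_pos B a s x).le

end Hyp

variable [Dim]

theorem exists_hyp (P : Prof) (cut : Cut) (K : ℕ → ℝ) (c0 : ℝ)
    (h : ∀ nu, 0 < nu → nu ≤ 1 → (mkBg P cut nu).Pre K c0 P.U P.C) :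
    ∃ nu, 0 < nu ∧ nu ≤ 1 ∧ (mkBg P cut nu).Hyp := by
  obtain ⟨Kr, hK0, hK⟩ := Hyp.rho_grad cut
  have k0 := (h 1 one_pos le_rfl).K_pos 0
  have k1 := (h 1 one_pos le_rfl).K_pos 1
  have hlam := P.lam_pos
  have hH := Hyp.cH_pos
  obtain ⟨δ, hδ, hε⟩ : ∃ δ : ℝ, 0 < δ ∧ 4 * Hyp.cH * K 1 * δ ^ (P.r - 1) ≤ 1 := by
    refine ⟨(4 * Hyp.cH * K 1)⁻¹ ^ (P.r - 1)⁻¹, by positivity, le_of_eq ?_⟩
    rw [Real.rpow_inv_rpow (by positivity) (by linarith [P.r_gt]), mul_inv_cancel₀ (by positivity)]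
  obtain ⟨nu, n0, n1, n2, n3, n4⟩ : ∃ nu : ℝ, 0 < nu ∧ nu ≤ 1 ∧ Hyp.cH * K 0 * Kr * nu ≤ 1 / 4 ∧
      Hyp.cH * K 0 * Kr * nu ≤ P.lam / 4 ∧ nu ≤ P.lam / 4 * δ := by
    have t : 0 < Hyp.cH * K 0 * Kr := by positivity
    refine ⟨min (min 1 (P.lam / 4 * δ)) (min (1 / 4) (P.lam / 4) / (Hyp.cH * K 0 * Kr)), by positivity,
      (min_le_left _ _).trans (min_le_left _ _), ?_, ?_, (min_le_left _ _).trans (min_le_right _ _)⟩
    · exact ((le_div_iff₀' t).1 (min_le_right _ _)).trans (min_le_left _ _)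
    · exact ((le_div_iff₀' t).1 (min_le_right _ _)).trans (min_le_right _ _)
  exact ⟨nu, n0, n1, Hyp.hyp_of (h nu n0 n1) hlam P.rep hK0 hK hδ hε n2 n3 n4⟩

end Pool.Agent.BoltzD

end MrgPart3

-- marker of a merged file
example : 731051 + 710149 = 731051 + 710149 := rfl

end MrgPart2

-- marker of a merged file
example : 731051 + 710149 = 731051 + 710149 := rfl
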