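import Pool.Agent.BoltzD.En.Split
import Pool.Agent.BoltzD.M7.SvLim
import Pool.Agent.BoltzD.Solver.Ops

-- ======== part 0: formerly Pool.Agent.BoltzD.Bg.CutEx
section MrgPart0

/-! Existence of the periodic cut-off data. -/

set_option autoImplicit false

open Pool.Agent.BoltzC Finset Filter Topology
open scoped ContDiff

noncomputable section

namespace Pool.Agent.BoltzD

variable [Dim]

/-- The signed distance to the nearest integer. -/
def red (t : ℝ) : ℝ := t - round t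

theorem red_add_one (t : ℝ) : red (t + 1) = red t := by
  unfold red
  rw [round_add_one]
  push_cast
  ring

theorem red_eq {t : ℝ} (h : |t| < 1 / 2) : red t = t := by
  have : round t = 0 := round_eq_zero_iff.2 ⟨by linarith [abs_lt.1 h], by linarith [abs_lt.1 h]⟩
  simp [red, this]

theorem abs_red_le (t : ℝ) : |red t| ≤ 1 / 2 := abs_sub_round t

theorem abs_red_eq {t : ℝ} (h : |t| ≤ 1 / 2) : |red t| = |t| := by
  rcases h.lt_or_eq with h | h
  · rw [red_eq h]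
  · refine le_antisymm (h ▸ abs_red_le t) ?_
    by_cases h0 : round t = 0
    · simp [red, h0]
    · have h1 : (1 : ℝ) ≤ |(round t : ℝ)| := by exact_mod_cast Int.one_le_abs h0
      have h2 := abs_sub_abs_le_abs_sub (round t : ℝ) t
      rw [abs_sub_comm] at h2
      unfold red
      linarith

theorem cd_red {f : ℝ → ℝ} (hf : ContDiff ℝ ∞ f) (c : ℝ) (h : ∀ t, 2 / 5 ≤ |t| → f t = c) :
    ContDiff ℝ ∞ fun t => f (red t) := by
  refine contDiff_iff_contDiffAt.2 fun t0 => ?_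
  by_cases h0 : |t0 - round t0| < 1 / 2
  · have hev : ∀ᶠ t : ℝ in 𝓝 t0, |t - round t0| < 1 / 2 :=
      (isOpen_lt (f := fun t : ℝ => |t - round t0|) (by fun_prop) continuous_const).mem_nhds h0
    have h1 : ContDiff ℝ ∞ fun t : ℝ => f (t - round t0) :=
      hf.comp (contDiff_id.sub contDiff_const)
    refine h1.contDiffAt.congr_of_eventuallyEq (hev.mono fun t ht => ?_)
    have h2 := red_eq ht
    unfold red at h2 ⊢
    rw [round_sub_intCast] at h2
    push_cast at h2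
    beta_reduce
    congr 1
    linarith
  · have hev : ∀ᶠ t : ℝ in 𝓝 t0, |t - t0| < 1 / 10 :=
      (isOpen_lt (f := fun t : ℝ => |t - t0|) (by fun_prop) continuous_const).mem_nhds (by simp)
    refine (contDiffAt_const (c := c)).congr_of_eventuallyEq (hev.mono fun t ht => h _ ?_)
    have h1 := round_le t0 (round t)
    have h2 := abs_sub_le t0 t (round t : ℝ)
    rw [abs_sub_comm t0 t] at h2
    unfold red
    linarith [not_lt.1 h0]

/-- The bump equal to one on `[-1/8, 1/8]` and vanishing outside `(-1/5, 1/5)`. -/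
def bump1 : ContDiffBump (0 : ℝ) := ⟨1 / 8, 1 / 5, by norm_num, by norm_num⟩

/-- The bump equal to one on `[-1/4, 1/4]` and vanishing outside `(-2/5, 2/5)`. -/
def bump2 : ContDiffBump (0 : ℝ) := ⟨1 / 4, 2 / 5, by norm_num, by norm_num⟩

theorem bump_one (b : ContDiffBump (0 : ℝ)) {t : ℝ} (h : |t| ≤ b.rIn) : b t = 1 :=
  b.one_of_mem_closedBall (by simpa using h)

theorem bump_zero (b : ContDiffBump (0 : ℝ)) {t : ℝ} (h : b.rOut ≤ |t|) : b t = 0 :=
  b.zero_of_le_dist (by simpa using h)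

theorem per_coord {α : Type*} (φ : (Ix → ℝ) → α) : Per fun x : E3 => φ fun i => red (x i) := by
  intro j x
  beta_reduce
  congr 1
  funext i
  by_cases h : i = j
  · subst h
    simpa [ev] using red_add_one (x i)
  · simp [ev, h]

theorem cut_exists : Nonempty Cut := by
  have hc : ∀ i : Ix, ContDiff ℝ ∞ fun x : E3 => x i := fun i => by fun_prop
  have h1 : ContDiff ℝ ∞ fun t => bump1 (red t) :=
    cd_red bump1.contDiff 0 fun t ht => bump_zero bump1 (le_trans (by norm_num [bump1]) ht)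
  have h2 : ContDiff ℝ ∞ fun t => bump2 (red t) * red t :=
    cd_red (f := fun t => bump2 t * t) (bump2.contDiff.mul contDiff_id) 0 fun t ht => by
      rw [bump_zero bump2 ht, zero_mul]
  have h3 : ContDiff ℝ ∞ fun t => bump2 (red t) * red t ^ 2 + (1 - bump2 (red t)) * (1 / 4) :=
    cd_red (f := fun t => bump2 t * t ^ 2 + (1 - bump2 t) * (1 / 4))
      ((bump2.contDiff.mul (contDiff_id.pow 2)).add
        ((contDiff_const.sub bump2.contDiff).mul contDiff_const)) (1 / 4) fun t ht => by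
      rw [bump_zero bump2 ht]; ring
  have hsq : ∀ t, red t ^ 2 ≤ 1 / 4 := fun t => by
    have := abs_red_le t
    rw [← sq_abs]
    nlinarith [abs_nonneg (red t)]
  refine ⟨⟨fun x => WithLp.toLp 2 fun i => bump2 (red (x i)) * red (x i),
    fun x => ∏ i, bump1 (red (x i)),
    fun x => ∑ i, (bump2 (red (x i)) * red (x i) ^ 2 + (1 - bump2 (red (x i))) * (1 / 4)),
    contDiff_euclidean.2 fun i => h2.comp (hc i), contDiff_prod fun i _ => h1.comp (hc i),
    ContDiff.sum fun i _ => h3.comp (hc i),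
    per_coord fun v => (WithLp.toLp 2 fun i => bump2 (v i) * v i : E3),
    per_coord fun v => ∏ i, bump1 (v i),
    per_coord fun v => ∑ i, (bump2 (v i) * v i ^ 2 + (1 - bump2 (v i)) * (1 / 4)),
    fun x hx => ?_, fun x hx => ?_, fun x hx => ?_, fun x hx hb => ?_,
    fun x => prod_nonneg fun i _ => bump1.nonneg,
    fun x => prod_le_one (fun i _ => bump1.nonneg) fun i _ => bump1.le_one,
    fun x hx => ?_, fun x => ?_⟩⟩
  · ext i
    simp only [red_eq ((hx i).trans_lt (by norm_num)), bump_one bump2 (hx i), one_mul]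
  · rw [EuclideanSpace.real_norm_sq_eq]
    refine sum_congr rfl fun i _ => ?_
    rw [red_eq ((hx i).trans_lt (by norm_num)), bump_one bump2 (hx i)]
    ring
  · refine prod_eq_one fun i _ => ?_
    rw [red_eq ((hx i).trans_lt (by norm_num)), bump_one bump1 (hx i)]
  · unfold box at hb
    push Not at hb
    obtain ⟨i, hi⟩ := hb
    exact prod_eq_zero (mem_univ i) (bump_zero bump1 (by rw [abs_red_eq (hx i)]; exact hi.le))
  · have h4 : ‖x‖ ^ 2 ≤
        ∑ i, (bump2 (red (x i)) * red (x i) ^ 2 + (1 - bump2 (red (x i))) * (1 / 4)) := by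
      rw [EuclideanSpace.real_norm_sq_eq]
      refine sum_le_sum fun i _ => ?_
      have e : red (x i) ^ 2 = x i ^ 2 := by rw [← sq_abs, abs_red_eq (hx i), sq_abs]
      have h5 := hsq (x i)
      have h6 : bump2 (red (x i)) ≤ 1 := bump2.le_one
      rw [e] at h5 ⊢
      nlinarith
    linarith [sq_nonneg ‖x‖]
  · have h4 : ∀ i : Ix,
        bump2 (red (x i)) * red (x i) ^ 2 + (1 - bump2 (red (x i))) * (1 / 4) ≤ 1 := fun i => by
      have h5 := hsq (x i)
      have h7 : 0 ≤ bump2 (red (x i)) := bump2.nonneg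
      nlinarith
    exact (sum_le_Ix h4).trans_eq (mul_one _)

end Pool.Agent.BoltzD

end
end MrgPart0

-- ======== part 1: formerly Pool.Agent.BoltzD.Bg.Main
section MrgPart1

-- ======== part 0: formerly Pool.Agent.BoltzD.Bg.Br
section MrgPart0

/-! Bridges between `ContDiff` and the classes `Sm`, `SmC`, `SmD`; locality, scaling, lattice. -/

set_option autoImplicit false
set_option linter.unusedSectionVars false

open Pool.Agent.BoltzC Finset Filter Topology
open scoped ContDiff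

noncomputable section

namespace Pool.Agent.BoltzD

variable [Dim]

section Normed

variable {G : Type*} [NormedAddCommGroup G] [NormedSpace ℝ G]

theorem hd_line_of_hasFDerivAt {f : E3 → G} {f' : E3 →L[ℝ] G} {x : E3} (hf : HasFDerivAt f f' x)
    (v : E3) : HD (fun t : ℝ => f (x + t • v)) (f' v) 0 := by
  have h1 : HasDerivAt (fun t : ℝ => x + t • v) v 0 := by
    simpa using ((hasDerivAt_id (0 : ℝ)).smul_const v).const_add x
  have h2 : HasFDerivAt f f' ((fun t : ℝ => x + t • v) 0) := by simpa using hf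
  exact (h2.comp_hasDerivAt (0 : ℝ) h1).hd

theorem dX_of_hasFDerivAt {f : E3 → G} {f' : E3 →L[ℝ] G} {x : E3} (hf : HasFDerivAt f f' x)
    (i : Ix) : dX i f x = f' (ev i) := dX_eq (hd_line_of_hasFDerivAt hf _)

theorem dX_eq_fderiv {f : E3 → G} {x : E3} (hf : DifferentiableAt ℝ f x) (i : Ix) :
    dX i f x = fderiv ℝ f x (ev i) := dX_of_hasFDerivAt hf.hasFDerivAt i

theorem fderiv_eq_sum_dX {f : E3 → G} {x : E3} (hf : DifferentiableAt ℝ f x) (v : E3) :
    fderiv ℝ f x v = ∑ i, v i • dX i f x := by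
  conv_lhs => rw [← sum_coord_ev v]
  simp only [map_sum, map_smul, dX_eq_fderiv hf]

theorem cd_diff {f : E3 → G} (hf : ContDiff ℝ ∞ f) (x : E3) : DifferentiableAt ℝ f x :=
  hf.differentiable (by simp) x

theorem cd_dif {f : E3 → G} (hf : ContDiff ℝ ∞ f) : Dif f :=
  dif_of_hd (G' := fun i x => fderiv ℝ f x (ev i)) fun _ x =>
    hd_line_of_hasFDerivAt (cd_diff hf x).hasFDerivAt _

theorem cd_dX {f : E3 → G} (hf : ContDiff ℝ ∞ f) (i : Ix) : ContDiff ℝ ∞ (dX i f) := by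
  have e : dX i f = fun x => fderiv ℝ f x (ev i) := funext fun x => dX_eq_fderiv (cd_diff hf x) i
  rw [e]
  exact (hf.fderiv_right (m := ∞) (by simp)).clm_apply contDiff_const

theorem cd_dXw {f : E3 → G} (hf : ContDiff ℝ ∞ f) (w : List Ix) :
    ContDiff ℝ ∞ (dXw w f) := by
  induction w generalizing f with
  | nil => exact hf
  | cons i w ih => exact ih (cd_dX hf i)

theorem sm_of_cd {f : E3 → G} (hf : ContDiff ℝ ∞ f) : Sm f := fun w =>
  ⟨(cd_dXw hf w).continuous.comp continuous_snd, fun _ => cd_dif (cd_dXw hf w)⟩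

end Normed

/-! ### Jointly smooth scalar fields -/

theorem CD.slice {a : ℝ → E3 → ℝ} (h : CD a) (s : ℝ) : ContDiff ℝ ∞ (a s) :=
  ContDiff.comp (f := fun x : E3 => (s, x)) h (contDiff_const.prodMk contDiff_id)

theorem CD.time {a : ℝ → E3 → ℝ} (h : CD a) (x : E3) : ContDiff ℝ ∞ fun s => a s x :=
  ContDiff.comp h (contDiff_id.prodMk contDiff_const)

theorem CD.sm {a : ℝ → E3 → ℝ} (h : CD a) (s : ℝ) : Sm (a s) := sm_of_cd (h.slice s)

theorem CD.hasDerivAt {a : ℝ → E3 → ℝ} (h : CD a) (s : ℝ) (x : E3) :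
    HasDerivAt (fun t => a t x) (dS a s x) s :=
  ((h.time x).differentiable (by simp) s).hasDerivAt

theorem dS_eq {a : ℝ → E3 → ℝ} {s : ℝ} {x : E3} {v : ℝ} (h : HasDerivAt (fun t => a t x) v s) :
    dS a s x = v := h.deriv

theorem CD.dX {a : ℝ → E3 → ℝ} (h : CD a) (i : Ix) : CD fun s => dX i (a s) := by
  have e : (fun p : ℝ × E3 => BoltzC.dX i (a p.1) p.2) =
      fun p => fderiv ℝ (fun p : ℝ × E3 => a p.1 p.2) p ((0 : ℝ), ev i) := by
    funext p
    have h1 := (ContDiff.differentiable h (by simp) p).hasFDerivAt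
    have h2 : HasFDerivAt (fun y : E3 => (p.1, y)) (ContinuousLinearMap.inr ℝ ℝ E3) p.2 :=
      hasFDerivAt_prodMk_right p.1 p.2
    exact dX_of_hasFDerivAt (HasFDerivAt.comp p.2 (f := fun y : E3 => (p.1, y)) h1 h2) i
  unfold CD
  rw [e]
  exact (ContDiff.fderiv_right h (m := ∞) (by simp)).clm_apply contDiff_const

theorem CD.dS {a : ℝ → E3 → ℝ} (h : CD a) : CD (dS a) := by
  have e : (fun p : ℝ × E3 => BoltzD.dS a p.1 p.2) =
      fun p => fderiv ℝ (fun p : ℝ × E3 => a p.1 p.2) p ((1 : ℝ), (0 : E3)) := by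
    funext p
    have h1 := (ContDiff.differentiable h (by simp) p).hasFDerivAt
    have h2 : HasDerivAt (fun t : ℝ => (t, p.2)) ((1 : ℝ), (0 : E3)) p.1 :=
      (hasDerivAt_id p.1).prodMk (hasDerivAt_const p.1 p.2)
    exact dS_eq (HasFDerivAt.comp_hasDerivAt p.1 (f := fun t : ℝ => (t, p.2)) h1 h2)
  unfold CD
  rw [e]
  exact (ContDiff.fderiv_right h (m := ∞) (by simp)).clm_apply contDiff_const

theorem CD.dXw {a : ℝ → E3 → ℝ} (h : CD a) (w : List Ix) : CD fun s => dXw w (a s) := by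
  induction w generalizing a with
  | nil => exact h
  | cons i w ih => exact ih (h.dX i)

theorem CD.smC {a : ℝ → E3 → ℝ} (h : CD a) : SmC a := fun w =>
  ⟨ContDiff.continuous (h.dXw w), fun s => cd_dif ((h.dXw w).slice s)⟩

theorem CD.smD {a : ℝ → E3 → ℝ} (h : CD a) : SmD a (BoltzD.dS a) :=
  ⟨h.smC, h.dS.smC, fun s x => (h.hasDerivAt s x).hd⟩

theorem CD.of_space {f : E3 → ℝ} (h : ContDiff ℝ ∞ f) : CD fun _ => f := h.comp contDiff_snd

theorem CD.of_time {f : ℝ → ℝ} (h : ContDiff ℝ ∞ f) : CD fun s _ => f s := h.comp contDiff_fst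

theorem CD.const (c : ℝ) : CD fun _ _ => c := contDiff_const

theorem CD.exp_mul (c : ℝ) : CD fun s _ => Real.exp (c * s) :=
  CD.of_time (f := fun s => Real.exp (c * s)) (by fun_prop)

theorem CD.add {a b : ℝ → E3 → ℝ} (ha : CD a) (hb : CD b) : CD fun s x => a s x + b s x :=
  ContDiff.add ha hb

theorem CD.sub {a b : ℝ → E3 → ℝ} (ha : CD a) (hb : CD b) : CD fun s x => a s x - b s x :=
  ContDiff.sub ha hb

theorem CD.neg {a : ℝ → E3 → ℝ} (ha : CD a) : CD fun s x => -a s x := ContDiff.neg ha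

theorem CD.mul {a b : ℝ → E3 → ℝ} (ha : CD a) (hb : CD b) : CD fun s x => a s x * b s x :=
  ContDiff.mul ha hb

theorem CD.div {a b : ℝ → E3 → ℝ} (ha : CD a) (hb : CD b) (h : ∀ s x, b s x ≠ 0) :
    CD fun s x => a s x / b s x := ContDiff.div ha hb fun p => h p.1 p.2

theorem CD.inv {b : ℝ → E3 → ℝ} (hb : CD b) (h : ∀ s x, b s x ≠ 0) :
    CD fun s x => (b s x)⁻¹ := ContDiff.inv hb fun p => h p.1 p.2

theorem CD.pow {a : ℝ → E3 → ℝ} (ha : CD a) (n : ℕ) : CD fun s x => a s x ^ n :=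
  ContDiff.pow ha n

theorem CD.rpow {a : ℝ → E3 → ℝ} (ha : CD a) (h : ∀ s x, a s x ≠ 0) (p : ℝ) :
    CD fun s x => a s x ^ p := ContDiff.rpow_const_of_ne ha fun q => h q.1 q.2

theorem CD.sqrt {a : ℝ → E3 → ℝ} (ha : CD a) (h : ∀ s x, a s x ≠ 0) :
    CD fun s x => √(a s x) := ContDiff.sqrt ha fun q => h q.1 q.2

theorem CD.sum {ι : Type*} (S : Finset ι) {a : ι → ℝ → E3 → ℝ} (h : ∀ j ∈ S, CD (a j)) :
    CD fun s x => ∑ j ∈ S, a j s x := ContDiff.sum h

theorem per_dS {a : ℝ → E3 → ℝ} (h : ∀ s, Per (a s)) (s : ℝ) : Per (dS a s) := by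
  intro i x
  unfold dS
  congr 1
  funext t
  exact h t i x

/-! ### Locality and scaling, for values in a topological vector space -/

section TVS

variable {F : Type*} [AddCommGroup F] [Module ℝ F] [TopologicalSpace F]
  [IsTopologicalAddGroup F] [ContinuousSMul ℝ F] [T2Space F]

theorem dX_congr_at {f g : E3 → F} {x : E3} (h : f =ᶠ[𝓝 x] g) (i : Ix) :
    dX i f x = dX i g x := by
  unfold dX limUnder
  congr 1
  refine Filter.map_congr ?_
  have h1 : Tendsto (fun t : ℝ => x + t • ev i) (𝓝[≠] 0) (𝓝 x) := by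
    have : Tendsto (fun t : ℝ => x + t • ev i) (𝓝 0) (𝓝 (x + (0 : ℝ) • ev i)) :=
      (by fun_prop : Continuous fun t : ℝ => x + t • ev i).tendsto 0
    rw [zero_smul, add_zero] at this
    exact this.mono_left nhdsWithin_le_nhds
  filter_upwards [h1.eventually h] with t ht
  rw [ht, h.eq_of_nhds]

theorem dX_congr_loc {f g : E3 → F} {x : E3} (h : f =ᶠ[𝓝 x] g) (i : Ix) :
    dX i f =ᶠ[𝓝 x] dX i g :=
  (eventually_eventuallyEq_nhds.2 h).mono fun _ hy => dX_congr_at hy i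

theorem dXw_congr_loc {f g : E3 → F} {x : E3} (h : f =ᶠ[𝓝 x] g) (w : List Ix) :
    dXw w f =ᶠ[𝓝 x] dXw w g := by
  induction w generalizing f g with
  | nil => exact h
  | cons i w ih => exact ih (dX_congr_loc h i)

theorem dXw_congr_at {f g : E3 → F} {x : E3} (h : f =ᶠ[𝓝 x] g) (w : List Ix) :
    dXw w f x = dXw w g x := (dXw_congr_loc h w).eq_of_nhds

theorem hd_comp_mul {γ : ℝ → F} {v : F} (h : HD γ v 0) (c : ℝ) :
    HD (fun t => γ (c * t)) (c • v) 0 := by
  by_cases hc : c = 0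
  · subst hc
    simpa using HD.const (γ 0) 0
  unfold HD at *
  have h1 : Tendsto (fun t : ℝ => c * t) (𝓝[≠] 0) (𝓝[≠] 0) := by
    refine tendsto_nhdsWithin_iff.2 ⟨?_, ?_⟩
    · have : Tendsto (fun t : ℝ => c * t) (𝓝 0) (𝓝 (c * 0)) :=
        (continuous_const.mul continuous_id).tendsto 0
      rw [mul_zero] at this
      exact this.mono_left nhdsWithin_le_nhds
    · filter_upwards [self_mem_nhdsWithin] with t ht
      exact mul_ne_zero hc ht
  refine ((h.comp h1).const_smul c).congr fun t => ?_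
  simp only [Function.comp, zero_add, mul_zero, smul_smul, mul_inv, mul_inv_cancel_left₀ hc]

theorem hd_line_comp_smul {G : E3 → F} (hG : Dif G) (c : ℝ) (i : Ix) (x : E3) :
    HD (fun t : ℝ => G (c • (x + t • ev i))) (c • dX i G (c • x)) 0 := by
  refine (hd_comp_mul (hG i (c • x)) c).congr fun t => ?_
  rw [smul_add, smul_smul]

theorem dX_comp_smul {G : E3 → F} (hG : Dif G) (c : ℝ) (i : Ix) :
    dX i (fun x => G (c • x)) = fun x => c • dX i G (c • x) :=
  funext fun x => dX_eq (hd_line_comp_smul hG c i x)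

theorem sm_comp_smul {G : E3 → F} (hG : Sm G) (c : ℝ) : Sm fun x => G (c • x) := by
  refine smC_coind (fun k => ∃ G : E3 → F, Sm G ∧ k = fun _ x => G (c • x)) ?_ ⟨G, hG, rfl⟩
  rintro k ⟨G, hG, rfl⟩
  exact ⟨hG.cont.comp (by fun_prop), fun i => ⟨_, ⟨_, (hG.dX i).const_smul c, rfl⟩,
    fun _ x => hd_line_comp_smul hG.dif c i x⟩⟩

theorem dXw_comp_smul {G : E3 → F} (hG : Sm G) (c : ℝ) (w : List Ix) :
    dXw w (fun x => G (c • x)) = fun x => c ^ w.length • dXw w G (c • x) := by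
  induction w generalizing G with
  | nil => funext x; simp
  | cons i w ih =>
    rw [dXw_cons, dX_comp_smul hG.dif, dXw_const_smul (sm_comp_smul (hG.dX i) c), ih (hG.dX i)]
    funext x
    rw [smul_smul, List.length_cons, pow_succ']
    rfl

end TVS

/-! ### Reduction to one period cell -/

theorem exists_red (x : E3) : ∃ z : E3, (∃ n : Ix → ℤ, ∀ i, z i = n i) ∧ box (1 / 2) (x + z) := by
  refine ⟨WithLp.toLp 2 fun i => -(round (x i) : ℝ), ⟨fun i => -round (x i), fun i => by simp⟩,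
    fun i => ?_⟩
  have := abs_sub_round (x i)
  simpa [sub_eq_add_neg] using this

/-- A periodic property holds everywhere when it holds on the box of half side `1/2`. -/
theorem per_red {p : E3 → Prop} (hp : Per p) (h : ∀ x, box (1 / 2) x → p x) (x : E3) : p x := by
  obtain ⟨z, ⟨n, hn⟩, hz⟩ := exists_red x
  rw [← hp.add_of_int n hn x]
  exact h _ hz

theorem inn.to_box {x : E3} (h : inn x) : box (1 / 4) x := fun i => (h i).le

theorem isOpen_lt_box (a : ℝ) : IsOpen {x : E3 | ∀ i, |x i| < a} := by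
  rw [Set.ofPred_forall]
  exact isOpen_iInter_of_finite fun i => isOpen_lt (by fun_prop) continuous_const

theorem eventually_box {a : ℝ} {x : E3} (h : ∀ i, |x i| < a) : ∀ᶠ y in 𝓝 x, box a y :=
  Filter.mem_of_superset ((isOpen_lt_box a).mem_nhds h) fun _ hy i => (hy i).le

theorem inn.eventually {x : E3} (h : inn x) : ∀ᶠ y in 𝓝 x, box (1 / 4) y := eventually_box h

theorem box.mono {a b : ℝ} {x : E3} (h : box a x) (hab : a ≤ b) : box b x :=
  fun i => (h i).trans hab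

theorem box.to_inn {a : ℝ} {x : E3} (h : box a x) (ha : a < 1 / 4) : inn x :=
  fun i => (h i).trans_lt ha

theorem sq_le_norm_sq (x : E3) (i : Ix) : x i ^ 2 ≤ ‖x‖ ^ 2 := by
  rw [EuclideanSpace.real_norm_sq_eq]
  exact single_le_sum (f := fun j => x j ^ 2) (fun _ _ => sq_nonneg _) (mem_univ i)

theorem norm_sq_ge_of_not_box {a : ℝ} (ha : 0 ≤ a) {x : E3} (h : ¬box a x) : a ^ 2 ≤ ‖x‖ ^ 2 := by
  unfold box at h
  push Not at h
  obtain ⟨i, hi⟩ := h
  refine le_trans ?_ (sq_le_norm_sq x i)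
  rw [← sq_abs (x i)]
  exact pow_le_pow_left₀ ha hi.le 2

theorem norm_sq_ge_of_not_inn {x : E3} (h : ¬inn x) : 1 / 16 ≤ ‖x‖ ^ 2 := by
  unfold inn at h
  push Not at h
  obtain ⟨i, hi⟩ := h
  refine le_trans ?_ (sq_le_norm_sq x i)
  rw [← sq_abs (x i)]
  nlinarith

end Pool.Agent.BoltzD

end
end MrgPart0

-- ======== part 1: formerly Pool.Agent.BoltzD.Bg.Sym
section MrgPart1

/-! The calculus of uniform symbols `Sy`. -/

set_option autoImplicit false

open Pool.Agent.BoltzC Finset Filter Topology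
open scoped ContDiff

noncomputable section

namespace Pool.Agent.BoltzD

variable [Dim]

variable {T : Type*} {P Q : T → E3 → Prop} {σ τ m m' a b : T → E3 → ℝ}

/-- The bound for one word. -/
def BdW (P : T → E3 → Prop) (σ m a : T → E3 → ℝ) (w : List Ix) : Prop :=
  ∃ K : ℝ, 0 < K ∧ ∀ t x, P t x → σ t x ^ w.length * |dXw w (a t) x| ≤ K * m t x

theorem BdW.nonneg (h : BdW P σ m a []) {t : T} {x : E3} (hp : P t x) : 0 ≤ m t x := by
  obtain ⟨K, hK, H⟩ := h
  have h1 := H t x hp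
  have h2 : 0 ≤ K * m t x := le_trans (by simp) h1
  exact nonneg_of_mul_nonneg_right h2 hK

theorem list_bd {ι : Type*} (l : List ι) (f : ι → T → E3 → ℝ) (c M : T → E3 → ℝ)
    (hc : ∀ t x, P t x → 0 ≤ c t x) (hM : ∀ t x, P t x → 0 ≤ M t x)
    (h : ∀ p ∈ l, ∃ K : ℝ, 0 < K ∧ ∀ t x, P t x → c t x * |f p t x| ≤ K * M t x) :
    ∃ K : ℝ, 0 < K ∧ ∀ t x, P t x → c t x * |(l.map fun p => f p t x).sum| ≤ K * M t x := by
  induction l with
  | nil => exact ⟨1, one_pos, fun t x hp => by simpa using hM t x hp⟩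
  | cons p l ih =>
    obtain ⟨K1, h1, H1⟩ := h p (by simp)
    obtain ⟨K2, h2, H2⟩ := ih fun q hq => h q (by simp [hq])
    refine ⟨K1 + K2, by positivity, fun t x hp => ?_⟩
    rw [List.map_cons, List.sum_cons, add_mul]
    refine le_trans (mul_le_mul_of_nonneg_left (abs_add_le _ _) (hc t x hp)) ?_
    rw [mul_add]
    exact add_le_add (H1 t x hp) (H2 t x hp)

theorem bdW_mul (ha : ∀ t, ContDiff ℝ ∞ (a t)) (hb : ∀ t, ContDiff ℝ ∞ (b t))
    (hσ : ∀ t x, P t x → 0 < σ t x) (w : List Ix)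
    (h1 : ∀ u : List Ix, u.length ≤ w.length → BdW P σ m a u)
    (h2 : ∀ u : List Ix, u.length ≤ w.length → BdW P σ m' b u) :
    BdW P σ (fun t x => m t x * m' t x) (fun t x => a t x * b t x) w := by
  have hm : ∀ t x, P t x → 0 ≤ m t x := fun t x hp => (h1 [] (by simp)).nonneg hp
  have hm' : ∀ t x, P t x → 0 ≤ m' t x := fun t x hp => (h2 [] (by simp)).nonneg hp
  obtain ⟨K, hK, H⟩ := list_bd (P := P) (splits w)
    (fun p t x => dXw p.1 (a t) x * dXw p.2 (b t) x) (fun t x => σ t x ^ w.length)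
    (fun t x => m t x * m' t x) (fun t x hp => (pow_pos (hσ t x hp) _).le)
    (fun t x hp => mul_nonneg (hm t x hp) (hm' t x hp)) (fun p hp => by
      have hl := length_of_mem_splits hp
      obtain ⟨K1, k1, H1⟩ := h1 p.1 (by omega)
      obtain ⟨K2, k2, H2⟩ := h2 p.2 (by omega)
      refine ⟨K1 * K2, by positivity, fun t x hx => ?_⟩
      have s0 := hσ t x hx
      have := mul_le_mul (H1 t x hx) (H2 t x hx) (by positivity)
        (mul_nonneg k1.le (hm t x hx))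
      rw [← hl, pow_add, abs_mul]
      linarith)
  refine ⟨K, hK, fun t x hp => ?_⟩
  have e := congrFun (dXw_smul (sm_of_cd (ha t)) (sm_of_cd (hb t)) w) x
  simp only [smul_eq_mul] at e
  rw [e]
  exact H t x hp

namespace Sy

theorem sm (h : Sy P σ m a) (t : T) : Sm (a t) := sm_of_cd (h.cd t)

theorem bdW (h : Sy P σ m a) (w : List Ix) : BdW P σ m a w := h.bd w

theorem nonneg (h : Sy P σ m a) {t : T} {x : E3} (hp : P t x) : 0 ≤ m t x := (h.bdW []).nonneg hp

theorem abs_le (h : Sy P σ m a) : ∃ K : ℝ, 0 < K ∧ ∀ t x, P t x → |a t x| ≤ K * m t x := by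
  obtain ⟨K, hK, H⟩ := h.bd []
  exact ⟨K, hK, fun t x hp => by simpa using H t x hp⟩

theorem abs_dX_le (h : Sy P σ m a) :
    ∃ K : ℝ, 0 < K ∧ ∀ i t x, P t x → σ t x * |dX i (a t) x| ≤ K * m t x := by
  choose K hK H using fun i : Ix => h.bd [i]
  refine ⟨∑ i, K i, sum_pos (fun i _ => hK i) univ_nonempty, fun i t x hp => ?_⟩
  have h1 : σ t x * |dX i (a t) x| ≤ K i * m t x := by simpa using H i t x hp
  exact h1.trans (mul_le_mul_of_nonneg_right
    (single_le_sum (f := K) (fun j _ => (hK j).le) (mem_univ i)) (h.nonneg hp))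

theorem mono (h : Sy P σ m a) {c : ℝ} (hc : 0 < c) (hm : ∀ t x, P t x → m t x ≤ c * m' t x) :
    Sy P σ m' a := by
  refine ⟨h.cd, h.pos, fun w => ?_⟩
  obtain ⟨K, hK, H⟩ := h.bd w
  refine ⟨K * c, by positivity, fun t x hp => (H t x hp).trans ?_⟩
  rw [mul_assoc]
  exact mul_le_mul_of_nonneg_left (hm t x hp) hK.le

theorem mono_le (h : Sy P σ m a) (hm : ∀ t x, P t x → m t x ≤ m' t x) : Sy P σ m' a :=
  h.mono one_pos fun t x hp => by simpa using hm t x hp

theorem congr_m (h : Sy P σ m a) (hm : ∀ t x, P t x → m t x = m' t x) : Sy P σ m' a :=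
  h.mono_le fun t x hp => (hm t x hp).le

theorem restrict (h : Sy P σ m a) (hQ : ∀ t x, Q t x → P t x) : Sy Q σ m a :=
  ⟨h.cd, fun t x hq => h.pos t x (hQ t x hq), fun w =>
    let ⟨K, hK, H⟩ := h.bd w
    ⟨K, hK, fun t x hq => H t x (hQ t x hq)⟩⟩

theorem scale (h : Sy P σ m a) {c : ℝ} (hc : 0 < c)
    (hτ : ∀ t x, P t x → 0 < τ t x ∧ τ t x ≤ c * σ t x) : Sy P τ m a := by
  refine ⟨h.cd, fun t x hp => (hτ t x hp).1, fun w => ?_⟩
  obtain ⟨K, hK, H⟩ := h.bd w
  refine ⟨c ^ w.length * K, by positivity, fun t x hp => ?_⟩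
  have h1 : τ t x ^ w.length ≤ c ^ w.length * σ t x ^ w.length := by
    rw [← mul_pow]
    exact pow_le_pow_left₀ (hτ t x hp).1.le (hτ t x hp).2 _
  calc τ t x ^ w.length * |dXw w (a t) x|
      ≤ c ^ w.length * σ t x ^ w.length * |dXw w (a t) x| :=
        mul_le_mul_of_nonneg_right h1 (abs_nonneg _)
    _ = c ^ w.length * (σ t x ^ w.length * |dXw w (a t) x|) := by ring
    _ ≤ c ^ w.length * (K * m t x) := mul_le_mul_of_nonneg_left (H t x hp) (by positivity)
    _ = _ := by ring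

theorem reparam {T' : Type*} (h : Sy P σ m a) (f : T' → T) :
    Sy (fun t => P (f t)) (fun t => σ (f t)) (fun t => m (f t)) fun t => a (f t) :=
  ⟨fun t => h.cd (f t), fun t => h.pos (f t), fun w =>
    let ⟨K, hK, H⟩ := h.bd w
    ⟨K, hK, fun t => H (f t)⟩⟩

theorem congr (h : Sy P σ m a) (e : ∀ t x, a t x = b t x) : Sy P σ m b := by
  have : a = b := funext fun t => funext (e t)
  exact this ▸ h

theorem congr_loc (h : Sy P σ m a) (hb : ∀ t, ContDiff ℝ ∞ (b t))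
    (e : ∀ t x, P t x → b t =ᶠ[𝓝 x] a t) : Sy P σ m b := by
  refine ⟨hb, h.pos, fun w => ?_⟩
  obtain ⟨K, hK, H⟩ := h.bd w
  exact ⟨K, hK, fun t x hp => by rw [dXw_congr_at (e t x hp)]; exact H t x hp⟩

theorem union {R : T → E3 → Prop} (h1 : Sy P σ m a) (h2 : Sy Q σ m a)
    (hR : ∀ t x, R t x → P t x ∨ Q t x) : Sy R σ m a := by
  refine ⟨h1.cd, fun t x hr => (hR t x hr).elim (h1.pos t x) (h2.pos t x), fun w => ?_⟩
  obtain ⟨K1, k1, H1⟩ := h1.bd w
  obtain ⟨K2, k2, H2⟩ := h2.bd w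
  refine ⟨K1 + K2, by positivity, fun t x hr => ?_⟩
  rcases hR t x hr with hp | hq
  · have := mul_nonneg k2.le (h1.nonneg hp)
    linarith [H1 t x hp]
  · have := mul_nonneg k1.le (h2.nonneg hq)
    linarith [H2 t x hq]

theorem const (hσ : ∀ t x, P t x → 0 < σ t x) (c : T → ℝ) :
    Sy P σ (fun t _ => |c t|) fun t _ => c t := by
  refine ⟨fun _ => contDiff_const, hσ, fun w => ⟨1, one_pos, fun t x _ => ?_⟩⟩
  by_cases hw : w = []
  · subst hw; simp
  · rw [dXw_const w hw]; simp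

theorem const_le (hσ : ∀ t x, P t x → 0 < σ t x) (c : T → ℝ)
    (hm : ∀ t x, P t x → |c t| ≤ m t x) : Sy P σ m fun t _ => c t := (const hσ c).mono_le hm

theorem const_one (hσ : ∀ t x, P t x → 0 < σ t x) (c : ℝ) : Sy P σ (fun _ _ => 1) fun _ _ => c :=
  (const hσ fun _ => c).mono (c := |c| + 1) (by positivity) fun _ _ _ => by simp

theorem zero (hσ : ∀ t x, P t x → 0 < σ t x) (hm : ∀ t x, P t x → 0 ≤ m t x) :
    Sy P σ m fun _ _ => 0 := const_le hσ (fun _ => 0) fun t x hp => by simpa using hm t x hp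

theorem add (h1 : Sy P σ m a) (h2 : Sy P σ m b) : Sy P σ m fun t x => a t x + b t x := by
  refine ⟨fun t => (h1.cd t).add (h2.cd t), h1.pos, fun w => ?_⟩
  obtain ⟨K1, k1, H1⟩ := h1.bd w
  obtain ⟨K2, k2, H2⟩ := h2.bd w
  refine ⟨K1 + K2, by positivity, fun t x hp => ?_⟩
  rw [dXw_add (h1.sm t) (h2.sm t)]
  have s0 := h1.pos t x hp
  refine le_trans (mul_le_mul_of_nonneg_left (abs_add_le _ _) (by positivity)) ?_
  linarith [H1 t x hp, H2 t x hp]

theorem mul (h1 : Sy P σ m a) (h2 : Sy P σ m' b) :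
    Sy P σ (fun t x => m t x * m' t x) fun t x => a t x * b t x :=
  ⟨fun t => (h1.cd t).mul (h2.cd t), h1.pos, fun w =>
    bdW_mul h1.cd h2.cd h1.pos w (fun u _ => h1.bdW u) fun u _ => h2.bdW u⟩

/-- Multiplication by a nonnegative function of the parameter. -/
theorem tmul (h : Sy P σ m a) (c : T → ℝ) (hc : ∀ t, 0 ≤ c t) :
    Sy P σ (fun t x => c t * m t x) fun t x => c t * a t x :=
  ((const h.pos c).mul h).congr_m fun t _ _ => by rw [abs_of_nonneg (hc t)]

/-- Multiplication by a bounded function of the parameter. -/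
theorem bmul (h : Sy P σ m a) (c : T → ℝ) (M : ℝ) (hc : ∀ t x, P t x → |c t| ≤ M) :
    Sy P σ m fun t x => c t * a t x :=
  ((const h.pos c).mul h).mono (c := |M| + 1) (by positivity) fun t x hp =>
    mul_le_mul_of_nonneg_right (by linarith [hc t x hp, le_abs_self M]) (h.nonneg hp)

theorem cmul (h : Sy P σ m a) (c : ℝ) : Sy P σ m fun t x => c * a t x :=
  h.bmul (fun _ => c) |c| fun _ _ _ => le_rfl

theorem neg (h : Sy P σ m a) : Sy P σ m fun t x => -a t x :=
  (h.cmul (-1)).congr fun _ _ => by ring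

theorem sub (h1 : Sy P σ m a) (h2 : Sy P σ m b) : Sy P σ m fun t x => a t x - b t x :=
  (h1.add h2.neg).congr fun _ _ => by ring

/-- Product with a symbol of size one. -/
theorem one_mul (h1 : Sy P σ (fun _ _ => 1) a) (h2 : Sy P σ m b) :
    Sy P σ m fun t x => a t x * b t x := (h1.mul h2).congr_m fun _ _ _ => by ring

theorem sum' {ι : Type*} (S : Finset ι) {f : ι → T → E3 → ℝ} (hσ : ∀ t x, P t x → 0 < σ t x)
    (hm : ∀ t x, P t x → 0 ≤ m t x) (h : ∀ j ∈ S, Sy P σ m (f j)) :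
    Sy P σ m fun t x => ∑ j ∈ S, f j t x := by
  classical
  induction S using Finset.induction_on with
  | empty => simpa using zero hσ hm
  | insert j S hj ih =>
    simp only [sum_insert hj]
    exact (h j (mem_insert_self _ _)).add (ih fun i hi => h i (mem_insert_of_mem hi))

theorem sum {ι : Type*} [Fintype ι] [Inhabited ι] {f : ι → T → E3 → ℝ}
    (h : ∀ j, Sy P σ m (f j)) : Sy P σ m fun t x => ∑ j, f j t x :=
  sum' univ (h default).pos (fun _ _ hp => (h default).nonneg hp) fun j _ => h j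

theorem dX (h : Sy P σ m a) (i : Ix) :
    Sy P σ (fun t x => m t x / σ t x) fun t => dX i (a t) := by
  refine ⟨fun t => cd_dX (h.cd t) i, h.pos, fun w => ?_⟩
  obtain ⟨K, hK, H⟩ := h.bd (i :: w)
  refine ⟨K, hK, fun t x hp => ?_⟩
  have s0 := h.pos t x hp
  have h1 := H t x hp
  rw [List.length_cons, dXw_cons, pow_succ] at h1
  rw [← mul_div_assoc, le_div_iff₀ s0]
  linarith

theorem dXw (h : Sy P σ m a) (w : List Ix) :
    Sy P σ (fun t x => m t x / σ t x ^ w.length) fun t => dXw w (a t) := by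
  induction w generalizing m a with
  | nil => exact h.congr_m fun _ _ _ => by simp
  | cons i w ih =>
    refine (ih (h.dX i)).congr_m fun t x _ => ?_
    rw [List.length_cons, pow_succ', div_div]

/-- A symbol is recognised from its size and its first derivatives. -/
theorem of_dX (hc : ∀ t, ContDiff ℝ ∞ (a t)) {c : ℝ} (hc0 : 0 < c)
    (h0 : ∀ t x, P t x → |a t x| ≤ c * m t x)
    (h : ∀ i, Sy P σ (fun t x => m t x / σ t x) fun t => BoltzC.dX i (a t)) : Sy P σ m a := by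
  refine ⟨hc, (h 0).pos, fun w => ?_⟩
  cases w with
  | nil => exact ⟨c, hc0, fun t x hp => by simpa using h0 t x hp⟩
  | cons i w =>
    obtain ⟨K, hK, H⟩ := (h i).bd w
    refine ⟨K, hK, fun t x hp => ?_⟩
    have s0 := (h 0).pos t x hp
    have h1 := H t x hp
    rw [← mul_div_assoc, le_div_iff₀ s0] at h1
    rw [List.length_cons, dXw_cons, pow_succ]
    linarith

theorem pow (h : Sy P σ m a) (n : ℕ) : Sy P σ (fun t x => m t x ^ n) fun t x => a t x ^ n := by
  induction n with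
  | zero => simpa using const_one h.pos 1
  | succ n ih => simpa only [pow_succ] using ih.mul h

end Sy

theorem dX_rpow {f : E3 → ℝ} (hf : ContDiff ℝ ∞ f) {x : E3} (h : f x ≠ 0) (p : ℝ) (i : Ix) :
    dX i (fun y => f y ^ p) x = p * (f x ^ (p - 1) * dX i f x) := by
  have h1 := (cd_dif hf i x).hasDerivAt
  have h2 := h1.rpow_const (p := p) (Or.inl (by simpa using h))
  refine (dX_eq (G := fun y => f y ^ p) h2.hd).trans ?_
  simp only [zero_smul, add_zero]
  ring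

namespace Sy

/-- Real powers of a positive symbol of its own size; the exponent may depend on the parameter. -/
theorem rpow_self' (h : Sy P σ a a) (hpos : ∀ t x, 0 < a t x) (p : T → ℝ) (M : ℝ)
    (hp : ∀ t x, P t x → |p t| ≤ M) :
    Sy P σ (fun t x => a t x ^ p t) fun t x => a t x ^ p t := by
  have hcd : ∀ (p : T → ℝ) t, ContDiff ℝ ∞ fun x => a t x ^ p t := fun p t =>
    (h.cd t).rpow_const_of_ne fun x => (hpos t x).ne'
  have key : ∀ n : ℕ, ∀ (p : T → ℝ) (M : ℝ), (∀ t x, P t x → |p t| ≤ M) →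
      ∀ w : List Ix, w.length ≤ n →
        BdW P σ (fun t x => a t x ^ p t) (fun t x => a t x ^ p t) w := by
    intro n
    induction n with
    | zero =>
      intro p M _ w hw
      obtain rfl : w = [] := List.length_eq_zero_iff.1 (by omega)
      exact ⟨1, one_pos, fun t x _ => by
        simp [abs_of_pos (Real.rpow_pos_of_pos (hpos t x) (p t))]⟩
    | succ n ih =>
      intro p M hp w hw
      cases w with
      | nil => exact ih p M hp [] (by simp)
      | cons i u =>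
        have hu : u.length ≤ n := by simpa using hw
        obtain ⟨K, hK, H⟩ := bdW_mul (hcd fun t => p t - 1) (h.dX i).cd h.pos u
          (fun v hv => ih (fun t => p t - 1) (M + 1) (fun t x hx => by
            have := hp t x hx
            have := abs_sub (p t) 1
            simp only [abs_one] at this
            linarith) v (hv.trans hu))
          fun v _ => (h.dX i).bdW v
        refine ⟨(|M| + 1) * K, by positivity, fun t x hx => ?_⟩
        have e : BoltzC.dX i (fun x => a t x ^ p t) =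
            fun x => p t • (a t x ^ (p t - 1) * BoltzC.dX i (a t) x) :=
          funext fun y => dX_rpow (h.cd t) (hpos t y).ne' (p t) i
        have s0 := h.pos t x hx
        have a0 := hpos t x
        have h1 := H t x hx
        have h2 : |p t| ≤ |M| + 1 := by linarith [hp t x hx, le_abs_self M]
        have e2 : a t x ^ (p t - 1) * (a t x / σ t x) = a t x ^ p t / σ t x := by
          rw [Real.rpow_sub_one a0.ne']
          field_simp
        simp only [e2] at h1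
        rw [← mul_div_assoc, le_div_iff₀ s0] at h1
        have hs : Sm fun x => a t x ^ (p t - 1) * BoltzC.dX i (a t) x :=
          sm_of_cd ((hcd (fun t => p t - 1) t).mul (cd_dX (h.cd t) i))
        have e3 : BoltzC.dXw (i :: u) (fun x => a t x ^ p t) x =
            p t * BoltzC.dXw u (fun x => a t x ^ (p t - 1) * BoltzC.dX i (a t) x) x := by
          rw [dXw_cons, e]
          exact congrFun (dXw_const_smul hs (p t) u) x
        show σ t x ^ (u.length + 1) * |BoltzC.dXw (i :: u) (fun x => a t x ^ p t) x| ≤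
          (|M| + 1) * K * a t x ^ p t
        rw [e3, pow_succ, abs_mul]
        set D := |BoltzC.dXw u (fun x => a t x ^ (p t - 1) * BoltzC.dX i (a t) x) x| with hD
        have D0 : 0 ≤ σ t x ^ u.length * D * σ t x := by positivity
        calc σ t x ^ u.length * σ t x * (|p t| * D)
            = |p t| * (σ t x ^ u.length * D * σ t x) := by ring
          _ ≤ (|M| + 1) * (K * a t x ^ p t) := mul_le_mul h2 h1 D0 (by positivity)
          _ = _ := by ring
  exact ⟨hcd p, h.pos, fun w => key w.length p M hp w le_rfl⟩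

theorem rpow_self (h : Sy P σ a a) (hpos : ∀ t x, 0 < a t x) (p : ℝ) :
    Sy P σ (fun t x => a t x ^ p) fun t x => a t x ^ p :=
  h.rpow_self' hpos (fun _ => p) |p| fun _ _ _ => le_rfl

/-- An elliptic symbol is a symbol of its own size. -/
theorem self (h : Sy P σ m a) {c : ℝ} (hc : 0 < c) (hlow : ∀ t x, P t x → c * m t x ≤ a t x) :
    Sy P σ a a :=
  h.mono (c := c⁻¹) (by positivity) fun t x hp => by
    rw [inv_mul_eq_div, le_div_iff₀ hc, mul_comm]
    exact hlow t x hp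

/-- Real powers of an elliptic symbol. -/
theorem rpow (h : Sy P σ m a) (hpos : ∀ t x, 0 < a t x) {c : ℝ} (hc : 0 < c)
    (hlow : ∀ t x, P t x → c * m t x ≤ a t x) (p : ℝ) :
    Sy P σ (fun t x => m t x ^ p) fun t x => a t x ^ p := by
  obtain ⟨K, hK, H⟩ := h.abs_le
  have h1 := (h.self hc hlow).rpow_self hpos p
  have hm : ∀ t x, P t x → 0 < m t x := fun t x hp => by
    have := (hpos t x).trans_le ((le_abs_self _).trans (H t x hp))
    exact (mul_pos_iff_of_pos_left hK).1 this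
  rcases le_total 0 p with hp0 | hp0
  · refine h1.mono (c := K ^ p) (by positivity) fun t x hp => ?_
    rw [← Real.mul_rpow hK.le (hm t x hp).le]
    exact Real.rpow_le_rpow (hpos t x).le ((le_abs_self _).trans (H t x hp)) hp0
  · refine h1.mono (c := c ^ p) (by positivity) fun t x hp => ?_
    rw [← Real.mul_rpow hc.le (hm t x hp).le]
    exact Real.rpow_le_rpow_of_nonpos (mul_pos hc (hm t x hp)) (hlow t x hp) hp0

theorem inv (h : Sy P σ m a) (hpos : ∀ t x, 0 < a t x) {c : ℝ} (hc : 0 < c)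
    (hlow : ∀ t x, P t x → c * m t x ≤ a t x) :
    Sy P σ (fun t x => (m t x)⁻¹) fun t x => (a t x)⁻¹ := by
  simpa only [Real.rpow_neg_one] using h.rpow hpos hc hlow (-1)

theorem div (h1 : Sy P σ m' b) (h : Sy P σ m a) (hpos : ∀ t x, 0 < a t x) {c : ℝ} (hc : 0 < c)
    (hlow : ∀ t x, P t x → c * m t x ≤ a t x) :
    Sy P σ (fun t x => m' t x / m t x) fun t x => b t x / a t x := by
  simpa only [div_eq_mul_inv] using h1.mul (h.inv hpos hc hlow)

theorem sqrt_self (h : Sy P σ a a) (hpos : ∀ t x, 0 < a t x) :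
    Sy P σ (fun t x => √(a t x)) fun t x => √(a t x) := by
  simpa only [Real.sqrt_eq_rpow] using h.rpow_self hpos (1 / 2)

/-! ### Periodic functions -/

/-- Periodic symbols only need to be checked on one period cell. -/
theorem of_box {p : T → Prop} (h : Sy (fun t x => p t ∧ box (1 / 2) x) σ m a)
    (pσ : ∀ t, Per (σ t)) (pm : ∀ t, Per (m t)) (pa : ∀ t, Per (a t)) :
    Sy (fun t _ => p t) σ m a := by
  refine ⟨h.cd, fun t x ht => per_red (p := fun x => 0 < σ t x) ((pσ t).map fun v => 0 < v)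
    (fun y hy => h.pos t y ⟨ht, hy⟩) x, fun w => ?_⟩
  obtain ⟨K, hK, H⟩ := h.bd w
  refine ⟨K, hK, fun t x ht => per_red
    (p := fun x => σ t x ^ w.length * |BoltzC.dXw w (a t) x| ≤ K * m t x) (fun i y => ?_)
    (fun y hy => H t y ⟨ht, hy⟩) x⟩
  simp only [pσ t i y, pm t i y, (pa t).dXw w i y]

/-- Periodic symbols: the inner box and the rest of the period cell. -/
theorem of_inn_out {p : T → Prop} (h1 : Sy (fun t x => p t ∧ inn x) σ m a)
    (h2 : Sy (fun t x => p t ∧ box (1 / 2) x ∧ ¬inn x) σ m a)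
    (pσ : ∀ t, Per (σ t)) (pm : ∀ t, Per (m t)) (pa : ∀ t, Per (a t)) :
    Sy (fun t _ => p t) σ m a :=
  of_box (h1.union h2 fun t x hx => by
    by_cases hi : inn x
    · exact Or.inl ⟨hx.1, hi⟩
    · exact Or.inr ⟨hx.1, hx.2, hi⟩) pσ pm pa

/-- A fixed smooth periodic function is a symbol of size one at every bounded scale. -/
theorem of_per {f : E3 → ℝ} (hf : ContDiff ℝ ∞ f) (pf : Per f) (c : ℝ)
    (hσ : ∀ t x, P t x → 0 < σ t x ∧ σ t x ≤ c) : Sy P σ (fun _ _ => 1) fun _ => f := by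
  refine ⟨fun _ => hf, fun t x hp => (hσ t x hp).1, fun w => ?_⟩
  obtain ⟨C, hC, H⟩ := (pf.dXw w).exists_bound (cd_dXw hf w).continuous
  refine ⟨(|c| + 1) ^ w.length * C, by positivity, fun t x hp => ?_⟩
  rw [mul_one]
  exact mul_le_mul (pow_le_pow_left₀ (hσ t x hp).1.le
    (by linarith [(hσ t x hp).2, le_abs_self c]) _) (H x) (abs_nonneg _) (by positivity)

/-! ### Translation to and from `SymBd` -/

theorem exists_K (h : Sy P σ m a) : ∃ K : ℕ → ℝ, (∀ n, 0 < K n) ∧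
    ∀ (w : List Ix) t x, P t x →
      σ t x ^ w.length * |BoltzC.dXw w (a t) x| ≤ K w.length * m t x := by
  choose K hK H using h.bd
  refine ⟨fun n => 1 + ∑ f : Fin n → Ix, K (List.ofFn f), fun n => ?_, fun w t x hp => ?_⟩
  · have := sum_nonneg (s := univ) fun (f : Fin n → Ix) _ => (hK (List.ofFn f)).le
    linarith
  · refine (H w t x hp).trans (mul_le_mul_of_nonneg_right ?_ (h.nonneg hp))
    have := single_le_sum (f := fun f : Fin w.length → Ix => K (List.ofFn f))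
      (fun f _ => (hK _).le) (mem_univ w.get)
    simp only [List.ofFn_get] at this
    linarith

theorem symBd {p : T → Prop} (h : Sy (fun t _ => p t) σ m a) :
    ∃ K : ℕ → ℝ, (∀ n, 0 < K n) ∧ ∀ t, p t → SymBd K 0 (σ t) (m t) (a t) := by
  obtain ⟨K, hK, H⟩ := h.exists_K
  exact ⟨K, hK, fun t ht w _ x => H w t x ht⟩

theorem of_symBd {p : T → Prop} {K : ℕ → ℝ} (hc : ∀ t, ContDiff ℝ ∞ (a t))
    (hσ : ∀ t x, p t → 0 < σ t x) (hm : ∀ t x, p t → 0 ≤ m t x)
    (h : ∀ t, p t → SymBd K 0 (σ t) (m t) (a t)) : Sy (fun t _ => p t) σ m a :=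
  ⟨hc, hσ, fun w => ⟨|K w.length| + 1, by positivity, fun t x ht =>
    (h t ht w (Nat.zero_le _) x).trans (mul_le_mul_of_nonneg_right
      (by linarith [le_abs_self (K w.length)]) (hm t x ht))⟩⟩

theorem slow {p : T → Prop} (h : Sy (fun t _ => p t) σ a a) (pa : ∀ t, Per (a t))
    (hpos : ∀ t x, 0 < a t x) : ∃ K : ℝ, 0 < K ∧ ∀ t, p t → Slow K (σ t) (a t) := by
  obtain ⟨K, hK, H⟩ := h.abs_dX_le
  exact ⟨K, hK, fun t ht => ⟨h.sm t, pa t, hpos t, fun i x => H i t x ht⟩⟩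

end Sy

theorem SymBd.mono_K {K K' : ℕ → ℝ} {n0 : ℕ} {s m a : E3 → ℝ} (h : SymBd K n0 s m a)
    (hK : ∀ n, K n ≤ K' n) (hm : ∀ x, 0 ≤ m x) : SymBd K' n0 s m a :=
  fun w hw x => (h w hw x).trans (mul_le_mul_of_nonneg_right (hK _) (hm x))

theorem SymBd.mono_n {K : ℕ → ℝ} {n0 n1 : ℕ} {s m a : E3 → ℝ} (h : SymBd K n0 s m a)
    (hn : n0 ≤ n1) : SymBd K n1 s m a := fun w hw x => h w (hn.trans hw) x

theorem Slow.mono_K {K K' : ℝ} {s a : E3 → ℝ} (h : Slow K s a) (hK : K ≤ K') : Slow K' s a :=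
  ⟨h.sm, h.per, h.pos, fun i x => (h.bd i x).trans (mul_le_mul_of_nonneg_right hK (h.pos x).le)⟩

end Pool.Agent.BoltzD

end
end MrgPart1

-- ======== part 2: formerly Pool.Agent.BoltzD.Bg.Wt
section MrgPart2

/-! The cut-off data and the weights `Lam`, `sig`, `mu`, `om`: comparisons, smoothness,
periodicity and first derivatives. -/

set_option autoImplicit false

open Pool.Agent.BoltzC Finset Filter Topology
open scoped ContDiff

noncomputable section

namespace Pool.Agent.BoltzD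

variable [Dim]

theorem cd_coord (i : Ix) : ContDiff ℝ ∞ fun y : E3 => y i := by fun_prop

theorem cd_norm_sq : ContDiff ℝ ∞ fun y : E3 => ‖y‖ ^ 2 := contDiff_norm_sq ℝ

theorem dX_coord (i j : Ix) : dX i (fun y : E3 => y j) = fun _ => if j = i then 1 else 0 := by
  funext x
  have := dX_of_hasFDerivAt ((EuclideanSpace.proj j : E3 →L[ℝ] ℝ).hasFDerivAt (x := x)) i
  simpa [ev_coord] using this

theorem dX_norm_sq (i : Ix) (x : E3) : dX i (fun y : E3 => ‖y‖ ^ 2) x = 2 * x i := by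
  have := dX_of_hasFDerivAt (hasStrictFDerivAt_norm_sq x).hasFDerivAt i
  simpa [ev, EuclideanSpace.inner_single_right] using this

theorem abs_coord_le_nrm (x : E3) (i : Ix) : |x i| ≤ ‖x‖ := by
  simpa using PiLp.norm_apply_le x i

theorem jb_pos (y : E3) : 0 < jb y := Real.sqrt_pos.2 (by positivity)

theorem jb_sq (y : E3) : jb y ^ 2 = 1 + ‖y‖ ^ 2 := Real.sq_sqrt (by positivity)

theorem one_le_jb (y : E3) : 1 ≤ jb y := Real.le_sqrt_of_sq_le (by nlinarith [sq_nonneg ‖y‖])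

theorem norm_le_jb (y : E3) : ‖y‖ ≤ jb y := Real.le_sqrt_of_sq_le (by linarith)

theorem jb_rpow (y : E3) (p : ℝ) : jb y ^ p = (1 + ‖y‖ ^ 2) ^ (p / 2) := by
  rw [jb, Real.sqrt_eq_rpow, ← Real.rpow_mul (by positivity)]
  congr 1
  ring

namespace Cut

variable (cut : Cut)

theorem rho2_nonneg (x : E3) : 0 ≤ cut.rho2 x :=
  per_red (p := fun x => 0 ≤ cut.rho2 x) (cut.per_rho2.map fun v => 0 ≤ v)
    (fun y hy => le_trans (by positivity) (cut.rho2_ge y hy)) x

theorem rho2_ge_out {x : E3} (h : box (1 / 2) x) (hi : ¬inn x) : 1 / 192 ≤ cut.rho2 x := by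
  linarith [cut.rho2_ge x h, norm_sq_ge_of_not_inn hi]

theorem rho2_ge_of_not_box {a : ℝ} (ha : 0 ≤ a) {x : E3} (h : box (1 / 2) x) (hi : ¬box a x) :
    a ^ 2 / 12 ≤ cut.rho2 x := by
  linarith [cut.rho2_ge x h, norm_sq_ge_of_not_box ha hi]

theorem rho2_loc {x : E3} (h : inn x) : cut.rho2 =ᶠ[𝓝 x] fun y => ‖y‖ ^ 2 :=
  h.eventually.mono fun y hy => cut.rho2_eq y hy

theorem pi_loc {x : E3} (h : inn x) : cut.pi =ᶠ[𝓝 x] fun y => y :=
  h.eventually.mono fun y hy => cut.pi_eq y hy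

theorem chi_loc_one {x : E3} (h : ∀ i, |x i| < 1 / 8) : cut.chi =ᶠ[𝓝 x] fun _ => 1 :=
  (eventually_box h).mono fun y hy => cut.chi_one y hy

theorem box_of_chi_ne {x : E3} (h : box (1 / 2) x) (hc : cut.chi x ≠ 0) : box (1 / 5) x := by
  by_contra hb
  exact hc (cut.chi_zero x h hb)

theorem chi_loc_zero {x : E3} (h : box (1 / 2) x) (hi : ¬inn x) :
    cut.chi =ᶠ[𝓝 x] fun _ => 0 := by
  unfold inn at hi
  push Not at hi
  obtain ⟨i, hi⟩ := hi
  have hev : ∀ᶠ y : E3 in 𝓝 x, |y i - x i| < 1 / 20 :=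
    (isOpen_lt (f := fun y : E3 => |y i - x i|) (by fun_prop) continuous_const).mem_nhds
      (by simp)
  filter_upwards [hev] with y hy
  obtain ⟨z, ⟨n, hn⟩, hz⟩ := exists_red y
  rw [← cut.per_chi.add_of_int n hn y]
  refine cut.chi_zero _ hz fun hb => ?_
  have h1 : |y i + n i| ≤ 1 / 5 := by simpa [hn i] using hb i
  have h2 := h i
  rw [abs_le] at h1 h2
  rw [abs_lt] at hy
  have h3 : (n i : ℝ) < 1 := by linarith
  have h4 : (-1 : ℝ) < n i := by linarith
  have h5 : n i = 0 := by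
    have : n i < 1 := by exact_mod_cast h3
    have : -1 < n i := by exact_mod_cast h4
    omega
  rw [h5] at h1
  simp only [Int.cast_zero, add_zero] at h1
  rcases le_abs.1 hi with h6 | h6 <;> linarith

theorem dX_rho2_inn {x : E3} (h : inn x) (i : Ix) : dX i cut.rho2 x = 2 * x i := by
  rw [dX_congr_at (cut.rho2_loc h), dX_norm_sq]

theorem abs_dX_rho2_le : ∃ K : ℝ, 0 < K ∧ ∀ i x, |dX i cut.rho2 x| ≤ K * √(cut.rho2 x) := by
  choose C hC H using fun i => (cut.per_rho2.dX i).exists_bound (cd_dX cut.cd_rho2 i).continuous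
  have hs : 0 ≤ ∑ i, C i := sum_nonneg fun i _ => (hC i).le
  refine ⟨2 + 14 * ∑ i, C i, by positivity, fun i x => per_red
    (p := fun x => |dX i cut.rho2 x| ≤ (2 + 14 * ∑ i, C i) * √(cut.rho2 x)) (fun j y => ?_)
    (fun y hy => ?_) x⟩
  · simp only [cut.per_rho2 j y, cut.per_rho2.dX i j y]
  · have h0 := Real.sqrt_nonneg (cut.rho2 y)
    by_cases hi : inn y
    · rw [cut.dX_rho2_inn hi, cut.rho2_eq y hi.to_box, Real.sqrt_sq (norm_nonneg y), abs_mul]
      have := abs_coord_le_nrm y i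
      have := mul_nonneg hs (norm_nonneg y)
      rw [abs_two]
      linarith
    · have h1 : 1 / 14 ≤ √(cut.rho2 y) :=
        Real.le_sqrt_of_sq_le (by linarith [cut.rho2_ge_out hy hi])
      have h2 : C i ≤ ∑ i, C i := single_le_sum (f := C) (fun j _ => (hC j).le) (mem_univ i)
      have h3 := mul_le_mul_of_nonneg_left h1 hs
      linarith [H i y]

end Cut

theorem exp_neg_sq (s : ℝ) : Real.exp (-s) ^ 2 = Real.exp (-2 * s) := by
  rw [← Real.exp_nat_mul]; congr 1; push_cast; ring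

namespace BgD

variable (B : BgD)

/-- The second term of `sig`. -/
def SS (s : ℝ) (x : E3) : ℝ := √(Real.exp (-2 * s) + B.nu ^ 2 * B.cut.rho2 x)

theorem sig_eq (s : ℝ) (x : E3) : B.sig s x = Real.exp (-s) + B.SS s x := rfl

theorem Lam2_pos (s : ℝ) (x : E3) : 0 < Real.exp (-2 * s) + B.cut.rho2 x :=
  add_pos_of_pos_of_nonneg (Real.exp_pos _) (B.cut.rho2_nonneg x)

theorem SS2_pos (s : ℝ) (x : E3) : 0 < Real.exp (-2 * s) + B.nu ^ 2 * B.cut.rho2 x :=
  add_pos_of_pos_of_nonneg (Real.exp_pos _) (mul_nonneg (sq_nonneg _) (B.cut.rho2_nonneg x))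

theorem Lam_pos (s : ℝ) (x : E3) : 0 < B.Lam s x := Real.sqrt_pos.2 (B.Lam2_pos s x)

theorem SS_pos (s : ℝ) (x : E3) : 0 < B.SS s x := Real.sqrt_pos.2 (B.SS2_pos s x)

theorem sig_pos (s : ℝ) (x : E3) : 0 < B.sig s x := add_pos (Real.exp_pos _) (B.SS_pos s x)

theorem mu_pos (s : ℝ) (x : E3) : 0 < B.mu s x :=
  mul_pos (Real.exp_pos _) (Real.rpow_pos_of_pos (B.Lam_pos s x) _)

theorem om_pos (a s : ℝ) (x : E3) : 0 < B.om a s x :=
  mul_pos (Real.exp_pos _) (Real.rpow_pos_of_pos (B.Lam_pos s x) _)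

theorem Lam_sq (s : ℝ) (x : E3) : B.Lam s x ^ 2 = Real.exp (-2 * s) + B.cut.rho2 x :=
  Real.sq_sqrt (B.Lam2_pos s x).le

theorem SS_sq (s : ℝ) (x : E3) : B.SS s x ^ 2 = Real.exp (-2 * s) + B.nu ^ 2 * B.cut.rho2 x :=
  Real.sq_sqrt (B.SS2_pos s x).le

theorem exp_neg_le_Lam (s : ℝ) (x : E3) : Real.exp (-s) ≤ B.Lam s x :=
  Real.le_sqrt_of_sq_le (by rw [exp_neg_sq]; linarith [B.cut.rho2_nonneg x])

theorem exp_neg_le_SS (s : ℝ) (x : E3) : Real.exp (-s) ≤ B.SS s x :=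
  Real.le_sqrt_of_sq_le (by
    rw [exp_neg_sq]; linarith [mul_nonneg (sq_nonneg B.nu) (B.cut.rho2_nonneg x)])

theorem sqrt_rho2_le_Lam (s : ℝ) (x : E3) : √(B.cut.rho2 x) ≤ B.Lam s x :=
  Real.sqrt_le_sqrt (by linarith [Real.exp_pos (-2 * s)])

theorem nu_sqrt_rho2_le_SS (s : ℝ) (x : E3) : B.nu * √(B.cut.rho2 x) ≤ B.SS s x :=
  Real.le_sqrt_of_sq_le (by
    rw [mul_pow, Real.sq_sqrt (B.cut.rho2_nonneg x)]; linarith [Real.exp_pos (-2 * s)])

theorem Lam_le_dd {s : ℝ} (hs : 0 ≤ s) (x : E3) : B.Lam s x ≤ dd + 1 := by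
  have h1 : Real.exp (-2 * s) ≤ 1 := Real.exp_le_one_iff.2 (by linarith)
  have h2 := dr_pos
  exact Real.sqrt_le_iff.2 ⟨by positivity, by nlinarith [B.cut.rho2_le x]⟩

theorem Lam_ge_out (s : ℝ) {x : E3} (h : box (1 / 2) x) (hi : ¬inn x) : 1 / 14 ≤ B.Lam s x :=
  Real.le_sqrt_of_sq_le (by linarith [B.cut.rho2_ge_out h hi, Real.exp_pos (-2 * s)])

theorem Lam_ge_of_not_box (s : ℝ) {a : ℝ} (ha : 0 ≤ a) {x : E3} (h : box (1 / 2) x)
    (hi : ¬box a x) : a / 4 ≤ B.Lam s x :=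
  Real.le_sqrt_of_sq_le (by
    nlinarith [B.cut.rho2_ge_of_not_box ha h hi, Real.exp_pos (-2 * s), sq_nonneg a])

theorem norm_le_Lam (s : ℝ) {x : E3} (h : box (1 / 4) x) : ‖x‖ ≤ B.Lam s x :=
  Real.le_sqrt_of_sq_le (by rw [B.cut.rho2_eq x h]; linarith [Real.exp_pos (-2 * s)])

theorem norm_le_four_Lam (s : ℝ) {x : E3} (h : box (1 / 2) x) : ‖x‖ ≤ 4 * B.Lam s x := by
  have h1 : ‖x‖ / 4 ≤ B.Lam s x := Real.le_sqrt_of_sq_le (by
    nlinarith [B.cut.rho2_ge x h, Real.exp_pos (-2 * s), sq_nonneg ‖x‖])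
  linarith

theorem exp_mul_Lam (s : ℝ) {x : E3} (h : box (1 / 4) x) :
    Real.exp s * B.Lam s x = jb (Real.exp s • x) := by
  have h1 : Real.exp s ^ 2 * Real.exp (-2 * s) = 1 := by
    rw [← Real.exp_nat_mul, ← Real.exp_add]; simp
  rw [← sq_eq_sq₀ (mul_pos (Real.exp_pos s) (B.Lam_pos s x)).le (jb_pos _).le, mul_pow, Lam_sq,
    jb_sq, B.cut.rho2_eq x h, norm_smul, Real.norm_eq_abs, mul_pow, sq_abs, mul_add, h1]

theorem Lam_inn (s : ℝ) {x : E3} (h : box (1 / 4) x) :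
    B.Lam s x = Real.exp (-s) * jb (Real.exp s • x) := by
  rw [← B.exp_mul_Lam s h, ← mul_assoc, ← Real.exp_add]; simp

theorem one_le_vp (s : ℝ) (x : E3) : 1 ≤ Real.exp s * B.Lam s x := by
  have := mul_le_mul_of_nonneg_left (B.exp_neg_le_Lam s x) (Real.exp_pos s).le
  rwa [← Real.exp_add, add_neg_cancel, Real.exp_zero] at this

theorem vp_rpow (p s : ℝ) (x : E3) :
    (Real.exp s * B.Lam s x) ^ p = Real.exp (p * s) * B.Lam s x ^ p := by
  rw [Real.mul_rpow (Real.exp_pos s).le (B.Lam_pos s x).le, ← Real.exp_mul, mul_comm s p]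

theorem mu_eq (s : ℝ) (x : E3) : B.mu s x = (Real.exp s * B.Lam s x) ^ (-B.r) :=
  (B.vp_rpow _ s x).symm

theorem mu_le_one (hr : 0 ≤ B.r) (s : ℝ) (x : E3) : B.mu s x ≤ 1 := by
  rw [mu_eq]
  exact Real.rpow_le_one_of_one_le_of_nonpos (B.one_le_vp s x) (by linarith)

theorem SS_le_sig (s : ℝ) (x : E3) : B.SS s x ≤ B.sig s x := by
  rw [sig_eq]; linarith [Real.exp_pos (-s)]

theorem sig_le_two_SS (s : ℝ) (x : E3) : B.sig s x ≤ 2 * B.SS s x := by
  rw [sig_eq]; linarith [B.exp_neg_le_SS s x]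

theorem SS_le_Lam (h0 : 0 ≤ B.nu) (h1 : B.nu ≤ 1) (s : ℝ) (x : E3) : B.SS s x ≤ B.Lam s x := by
  refine Real.sqrt_le_sqrt ?_
  have : B.nu ^ 2 ≤ 1 := pow_le_one₀ h0 h1
  nlinarith [B.cut.rho2_nonneg x]

theorem nu_Lam_le_SS (h0 : 0 ≤ B.nu) (h1 : B.nu ≤ 1) (s : ℝ) (x : E3) :
    B.nu * B.Lam s x ≤ B.SS s x := by
  refine Real.le_sqrt_of_sq_le ?_
  have : B.nu ^ 2 ≤ 1 := pow_le_one₀ h0 h1
  rw [mul_pow, Lam_sq]
  nlinarith [Real.exp_pos (-2 * s)]

theorem sig_le (h0 : 0 ≤ B.nu) (h1 : B.nu ≤ 1) (s : ℝ) (x : E3) : B.sig s x ≤ 2 * B.Lam s x := by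
  linarith [B.sig_le_two_SS s x, B.SS_le_Lam h0 h1 s x]

theorem nu_Lam_le_sig (h0 : 0 ≤ B.nu) (h1 : B.nu ≤ 1) (s : ℝ) (x : E3) :
    B.nu * B.Lam s x ≤ B.sig s x := (B.nu_Lam_le_SS h0 h1 s x).trans (B.SS_le_sig s x)

theorem sig_le_dd (h0 : 0 ≤ B.nu) (h1 : B.nu ≤ 1) {s : ℝ} (hs : 0 ≤ s) (x : E3) :
    B.sig s x ≤ dd + 2 := by
  have h2 : Real.exp (-s) ≤ 1 := Real.exp_le_one_iff.2 (by linarith)
  linarith [B.sig_eq s x, B.SS_le_Lam h0 h1 s x, B.Lam_le_dd hs x]

/-! ### Smoothness and periodicity -/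

theorem cd_Lam2 : CD fun s x => Real.exp (-2 * s) + B.cut.rho2 x :=
  (CD.exp_mul (-2)).add (CD.of_space B.cut.cd_rho2)

theorem cd_SS2 : CD fun s x => Real.exp (-2 * s) + B.nu ^ 2 * B.cut.rho2 x :=
  (CD.exp_mul (-2)).add ((CD.const _).mul (CD.of_space B.cut.cd_rho2))

theorem cd_Lam : CD B.Lam := B.cd_Lam2.sqrt fun s x => (B.Lam2_pos s x).ne'

theorem cd_SS : CD B.SS := B.cd_SS2.sqrt fun s x => (B.SS2_pos s x).ne'

theorem cd_sig : CD B.sig :=
  (CD.of_time (f := fun s => Real.exp (-s)) (by fun_prop)).add B.cd_SS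

theorem cd_Lam_rpow (p : ℝ) : CD fun s x => B.Lam s x ^ p :=
  B.cd_Lam.rpow (fun s x => (B.Lam_pos s x).ne') p

theorem cd_mu : CD B.mu := (CD.exp_mul (-B.r)).mul (B.cd_Lam_rpow _)

theorem cd_om (a : ℝ) : CD (B.om a) := (CD.exp_mul (-2 * a)).mul (B.cd_Lam_rpow _)

theorem per_Lam (s : ℝ) : Per (B.Lam s) := fun i x => by simp only [Lam, B.cut.per_rho2 i x]

theorem per_SS (s : ℝ) : Per (B.SS s) := fun i x => by simp only [SS, B.cut.per_rho2 i x]

theorem per_sig (s : ℝ) : Per (B.sig s) := fun i x => by simp only [sig, B.cut.per_rho2 i x]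

theorem per_mu (s : ℝ) : Per (B.mu s) := fun i x => by simp only [mu, B.per_Lam s i x]

theorem per_om (a s : ℝ) : Per (B.om a s) := fun i x => by simp only [om, B.per_Lam s i x]

/-! ### First derivatives -/

theorem hasDerivAt_exp_mul (c s : ℝ) :
    HasDerivAt (fun t => Real.exp (c * t)) (c * Real.exp (c * s)) s := by
  simpa [mul_comm] using ((hasDerivAt_id s).const_mul c).exp

theorem hasDerivAt_Lam (s : ℝ) (x : E3) :
    HasDerivAt (fun t => B.Lam t x) (-(Real.exp (-2 * s) / B.Lam s x)) s := by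
  have h := ((hasDerivAt_exp_mul (-2) s).add_const (B.cut.rho2 x)).sqrt (B.Lam2_pos s x).ne'
  refine h.congr_deriv ?_
  have := (B.Lam_pos s x).ne'
  change _ / (2 * B.Lam s x) = _
  field_simp

theorem hasDerivAt_SS (s : ℝ) (x : E3) :
    HasDerivAt (fun t => B.SS t x) (-(Real.exp (-2 * s) / B.SS s x)) s := by
  have h := ((hasDerivAt_exp_mul (-2) s).add_const (B.nu ^ 2 * B.cut.rho2 x)).sqrt
    (B.SS2_pos s x).ne'
  refine h.congr_deriv ?_
  have := (B.SS_pos s x).ne'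
  change _ / (2 * B.SS s x) = _
  field_simp

theorem dS_Lam (s : ℝ) (x : E3) : dS B.Lam s x = -(Real.exp (-2 * s) / B.Lam s x) :=
  dS_eq (B.hasDerivAt_Lam s x)

theorem dS_sig (s : ℝ) (x : E3) : dS B.sig s x = -(Real.exp (-s) / B.SS s x * B.sig s x) := by
  have h1 : HasDerivAt (fun t => Real.exp (-t)) (-Real.exp (-s)) s := by
    simpa using (hasDerivAt_neg s).exp
  refine (dS_eq (a := B.sig) (h1.add (B.hasDerivAt_SS s x))).trans ?_
  have := (B.SS_pos s x).ne'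
  rw [sig_eq, ← exp_neg_sq]
  field_simp
  ring

theorem hasDerivAt_exp_Lam_rpow (c p s : ℝ) (x : E3) :
    HasDerivAt (fun t => Real.exp (c * t) * B.Lam t x ^ p)
      ((c - p * (Real.exp (-2 * s) / B.Lam s x ^ 2)) * (Real.exp (c * s) * B.Lam s x ^ p)) s := by
  have h0 := (B.Lam_pos s x).ne'
  have h := (hasDerivAt_exp_mul c s).mul ((B.hasDerivAt_Lam s x).rpow_const (p := p) (Or.inl h0))
  refine h.congr_deriv ?_
  rw [Real.rpow_sub_one h0]
  field_simp
  ring

theorem dS_om (a s : ℝ) (x : E3) : dS (B.om a) s x =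
    (-2 * a + (dd + 2 * a) * (Real.exp (-2 * s) / B.Lam s x ^ 2)) * B.om a s x := by
  refine (dS_eq (a := B.om a)
    (B.hasDerivAt_exp_Lam_rpow (-2 * a) (-(dd : ℝ) - 2 * a) s x)).trans ?_
  unfold om
  ring

theorem dS_mu (s : ℝ) (x : E3) : dS B.mu s x =
    (-B.r + B.r * (Real.exp (-2 * s) / B.Lam s x ^ 2)) * B.mu s x := by
  refine (dS_eq (a := B.mu) (B.hasDerivAt_exp_Lam_rpow (-B.r) (-B.r) s x)).trans ?_
  unfold mu
  ring

/-- `exp (-2 s) / Lam ^ 2 ≤ mu`. -/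
theorem ratio_le_mu (hr : B.r ≤ 2) (s : ℝ) (x : E3) :
    Real.exp (-2 * s) / B.Lam s x ^ 2 ≤ B.mu s x := by
  have e : Real.exp (-2 * s) / B.Lam s x ^ 2 = (Real.exp s * B.Lam s x) ^ (-2 : ℝ) := by
    rw [vp_rpow, Real.rpow_neg (B.Lam_pos s x).le, Real.rpow_two, div_eq_mul_inv]
  rw [e, mu_eq]
  exact Real.rpow_le_rpow_of_exponent_le (B.one_le_vp s x) (by linarith)

theorem dX_Lam (s : ℝ) (i : Ix) (x : E3) :
    dX i (B.Lam s) x = dX i B.cut.rho2 x / (2 * B.Lam s x) := by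
  have h1 := ((cd_dif B.cut.cd_rho2 i x).hasDerivAt.const_add (Real.exp (-2 * s))).sqrt
    (by simpa using (B.Lam2_pos s x).ne')
  refine (dX_eq (G := B.Lam s) h1.hd).trans ?_
  simp only [zero_smul, add_zero]
  rfl

theorem dX_SS (s : ℝ) (i : Ix) (x : E3) :
    dX i (B.SS s) x = B.nu ^ 2 * dX i B.cut.rho2 x / (2 * B.SS s x) := by
  have h1 := (((cd_dif B.cut.cd_rho2 i x).hasDerivAt.const_mul (B.nu ^ 2)).const_add
    (Real.exp (-2 * s))).sqrt (by simpa using (B.SS2_pos s x).ne')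
  refine (dX_eq (G := B.SS s) h1.hd).trans ?_
  simp only [zero_smul, add_zero]
  rfl

theorem dX_sig (s : ℝ) (i : Ix) (x : E3) :
    dX i (B.sig s) x = B.nu ^ 2 * dX i B.cut.rho2 x / (2 * B.SS s x) := by
  have h1 := ((cd_dif (B.cd_SS.slice s) i x).hasDerivAt.const_add (Real.exp (-s)))
  exact (dX_eq (G := B.sig s) h1.hd).trans (B.dX_SS s i x)

theorem abs_dX_sig_le_of {K : ℝ} (hK : ∀ i x, |dX i B.cut.rho2 x| ≤ K * √(B.cut.rho2 x))
    (hK0 : 0 ≤ K) (h0 : 0 ≤ B.nu) (s : ℝ) (i : Ix) (x : E3) :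
    |dX i (B.sig s) x| ≤ K * B.nu := by
  have hS := B.SS_pos s x
  rw [dX_sig, abs_div, abs_mul, abs_of_nonneg (sq_nonneg B.nu),
    abs_of_pos (by positivity : 0 < 2 * B.SS s x), div_le_iff₀ (by positivity)]
  have h1 := mul_le_mul_of_nonneg_left (hK i x) (sq_nonneg B.nu)
  have h2 := mul_le_mul_of_nonneg_left (B.nu_sqrt_rho2_le_SS s x) (mul_nonneg hK0 h0)
  have h3 := mul_nonneg (mul_nonneg hK0 h0) hS.le
  nlinarith

theorem abs_dX_Lam_le_of {K : ℝ} (hK : ∀ i x, |dX i B.cut.rho2 x| ≤ K * √(B.cut.rho2 x))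
    (hK0 : 0 ≤ K) (s : ℝ) (i : Ix) (x : E3) : |dX i (B.Lam s) x| ≤ K := by
  have hS := B.Lam_pos s x
  rw [dX_Lam, abs_div, abs_of_pos (by positivity : 0 < 2 * B.Lam s x),
    div_le_iff₀ (by positivity)]
  have h2 := mul_le_mul_of_nonneg_left (B.sqrt_rho2_le_Lam s x) hK0
  have h3 := mul_nonneg hK0 hS.le
  linarith [hK i x]

end BgD

/-- The gradient of `sig` is of size `nu`, with a constant depending on the cut-off only. -/
theorem Cut.abs_dX_sig_le (cut : Cut) : ∃ K : ℝ, 0 < K ∧ ∀ B : BgD, B.cut = cut → 0 ≤ B.nu →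
    ∀ s i x, |dX i (B.sig s) x| ≤ K * B.nu := by
  obtain ⟨K, hK, H⟩ := cut.abs_dX_rho2_le
  exact ⟨K, hK, fun B hB h0 s i x => B.abs_dX_sig_le_of (hB ▸ H) hK.le h0 s i x⟩

end Pool.Agent.BoltzD

end
end MrgPart2

-- ======== part 3: formerly Pool.Agent.BoltzD.Bg.WtSym
section MrgPart3

/-! The weights and the rescaled profile functions as uniform symbols at the scale `Lam`. -/

set_option autoImplicit false

open Pool.Agent.BoltzC Finset Filter Topology
open scoped ContDiff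

noncomputable section

namespace Pool.Agent.BoltzD

variable [Dim]

variable {T : Type*} {P : T → E3 → Prop} {σ m a : T → E3 → ℝ}

/-- A coordinate is a symbol of the size of the length scale where it is bounded by it. -/
theorem Sy.coord (hσ : ∀ t x, P t x → 0 < σ t x) (j : Ix) {c : ℝ} (hc : 0 < c)
    (h : ∀ t x, P t x → |x j| ≤ c * σ t x) : Sy P σ σ fun _ x => x j := by
  refine Sy.of_dX (fun _ => cd_coord j) hc h fun i => ?_
  simp only [dX_coord]
  exact (Sy.const_one hσ _).congr_m fun t x hp => (div_self (hσ t x hp).ne').symm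

theorem Sy.norm_sq (hσ : ∀ t x, P t x → 0 < σ t x) {c : ℝ} (hc : 0 < c)
    (h : ∀ t x, P t x → ‖x‖ ≤ c * σ t x) :
    Sy P σ (fun t x => σ t x ^ 2) fun _ x => ‖x‖ ^ 2 := by
  have h1 := fun j => (Sy.coord hσ j hc fun t x hp => (abs_coord_le_nrm x j).trans (h t x hp)).pow 2
  exact (Sy.sum h1).congr fun _ x => (EuclideanSpace.real_norm_sq_eq x).symm

/-! ### Symbols on the whole space -/

namespace PS

variable {β γ : ℝ} {Φ Ψ : E3 → ℝ}

theorem cd (h : PS β Φ) : ContDiff ℝ ∞ Φ := Sy.cd h ()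

theorem of_bd {K : ℕ → ℝ} (hc : ContDiff ℝ ∞ Φ)
    (h : ∀ (w : List Ix) y, |dXw w Φ y| ≤ K w.length * (1 + ‖y‖ ^ 2) ^ ((β - w.length) / 2)) :
    PS β Φ := by
  refine ⟨fun _ => hc, fun _ y _ => jb_pos y, fun w => ⟨|K w.length| + 1, by positivity,
    fun _ y _ => ?_⟩⟩
  have h0 := jb_pos y
  have h1 := h w y
  rw [← jb_rpow, Real.rpow_sub h0, Real.rpow_natCast, ← mul_div_assoc,
    le_div_iff₀ (by positivity)] at h1
  have h2 : K w.length * jb y ^ β ≤ (|K w.length| + 1) * jb y ^ β :=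
    mul_le_mul_of_nonneg_right (by linarith [le_abs_self (K w.length)]) (by positivity)
  linarith

theorem mul (h1 : PS β Φ) (h2 : PS γ Ψ) : PS (β + γ) fun y => Φ y * Ψ y :=
  (Sy.mul h1 h2).congr_m fun _ y _ => (Real.rpow_add (jb_pos y) β γ).symm

theorem dX (h : PS β Φ) (i : Ix) : PS (β - 1) (dX i Φ) :=
  (Sy.dX h i).congr_m fun _ y _ => (Real.rpow_sub_one (jb_pos y).ne' β).symm

theorem add (h1 : PS β Φ) (h2 : PS β Ψ) : PS β fun y => Φ y + Ψ y := Sy.add h1 h2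

theorem sub (h1 : PS β Φ) (h2 : PS β Ψ) : PS β fun y => Φ y - Ψ y := Sy.sub h1 h2

theorem neg (h : PS β Φ) : PS β fun y => -Φ y := Sy.neg h

theorem cmul (h : PS β Φ) (c : ℝ) : PS β fun y => c * Φ y := Sy.cmul h c

theorem sum {f : Ix → E3 → ℝ} (h : ∀ j, PS β (f j)) : PS β fun y => ∑ j, f j y :=
  Sy.sum (f := fun j _ => f j) h

theorem mono (h : PS β Φ) (hβ : β ≤ γ) : PS γ Φ :=
  Sy.mono_le h fun _ y _ => Real.rpow_le_rpow_of_exponent_le (one_le_jb y) hβ

theorem congr_ord (h : PS β Φ) (e : β = γ) : PS γ Φ := e ▸ h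

theorem coord (j : Ix) : PS 1 fun y => y j :=
  (Sy.coord (fun _ y _ => jb_pos y) j one_pos fun _ y _ => by
    linarith [abs_coord_le_nrm y j, norm_le_jb y]).congr_m fun _ y _ => (Real.rpow_one _).symm

/-- A smooth compactly supported function is a symbol of every order. -/
theorem of_compact (hc : ContDiff ℝ ∞ Φ) (hs : HasCompactSupport Φ) (β : ℝ) : PS β Φ := by
  refine ⟨fun _ => hc, fun _ y _ => jb_pos y, fun w => ?_⟩
  have hj : Continuous jb := by unfold jb; fun_prop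
  have hcont : Continuous fun y => jb y ^ w.length * |dXw w Φ y| / jb y ^ β :=
    ((hj.pow _).mul (cd_dXw hc w).continuous.abs).div
      (hj.rpow_const fun y => Or.inl (jb_pos y).ne')
      fun y => (Real.rpow_pos_of_pos (jb_pos y) β).ne'
  obtain ⟨C, hC⟩ := hs.isCompact.exists_bound_of_continuousOn hcont.continuousOn
  refine ⟨|C| + 1, by positivity, fun _ y _ => ?_⟩
  have h0 := Real.rpow_pos_of_pos (jb_pos y) β
  by_cases hy : y ∈ tsupport Φ
  · have h1 := (le_abs_self _).trans (hC y hy)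
    rw [div_le_iff₀ h0] at h1
    exact h1.trans (mul_le_mul_of_nonneg_right (by linarith [le_abs_self C]) h0.le)
  · rw [dXw_congr_at (notMem_tsupport_iff_eventuallyEq.1 hy) w]
    have : dXw w (0 : E3 → ℝ) y = 0 := congrFun (dXw_zero w) y
    rw [this, abs_zero, mul_zero]
    positivity

end PS

theorem Prof.ps_U (P : Prof) (j : Ix) : PS (1 - P.r) (P.U j) :=
  PS.of_bd (P.cd_U j) fun w y => P.bdU w j y

theorem Prof.ps_C (P : Prof) : PS (1 - P.r) P.C := PS.of_bd P.cd_C P.bdC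

/-! ### The weights -/

namespace BgD

variable (B : BgD)

theorem sy_per {f : E3 → ℝ} (hf : ContDiff ℝ ∞ f) (pf : Per f) :
    Sy Pos B.Lam (fun _ _ => 1) fun _ => f :=
  Sy.of_per hf pf (dd + 1) fun s x hs => ⟨B.Lam_pos s x, B.Lam_le_dd hs x⟩

theorem sy_chi : Sy Pos B.Lam (fun _ _ => 1) fun _ => B.cut.chi :=
  B.sy_per B.cut.cd_chi B.cut.per_chi

theorem sy_rho2 : Sy Pos B.Lam (fun s x => B.Lam s x ^ 2) fun _ => B.cut.rho2 := by
  refine Sy.of_inn_out (p := fun s : ℝ => 0 ≤ s) ?_ ?_ B.per_Lam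
    (fun s => (B.per_Lam s).map fun v => v ^ 2) fun _ => B.cut.per_rho2
  · exact (Sy.norm_sq (fun s x _ => B.Lam_pos s x) one_pos fun s x hp => by
      simpa using B.norm_le_Lam s hp.2.to_box).congr_loc (fun _ => B.cut.cd_rho2)
      fun s x hp => B.cut.rho2_loc hp.2
  · refine ((B.sy_per B.cut.cd_rho2 B.cut.per_rho2).restrict fun s x hp => hp.1).mono
      (c := 196) (by norm_num) fun s x hp => ?_
    nlinarith [B.Lam_ge_out s hp.2.1 hp.2.2]

theorem sy_exp2 : Sy Pos B.Lam (fun s _ => Real.exp (-2 * s)) fun s _ => Real.exp (-2 * s) :=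
  Sy.const_le (fun s x _ => B.Lam_pos s x) _ fun _ _ _ => (abs_of_pos (Real.exp_pos _)).le

theorem sy_Lam : Sy Pos B.Lam B.Lam B.Lam := by
  have h1 : Sy Pos B.Lam (fun s x => Real.exp (-2 * s) + B.cut.rho2 x)
      fun s x => Real.exp (-2 * s) + B.cut.rho2 x :=
    (B.sy_exp2.mono_le fun s x _ => by linarith [B.cut.rho2_nonneg x]).add
      (B.sy_rho2.congr_m fun s x _ => B.Lam_sq s x)
  exact h1.sqrt_self B.Lam2_pos

theorem sy_Lam_rpow (p : ℝ) : Sy Pos B.Lam (fun s x => B.Lam s x ^ p) fun s x => B.Lam s x ^ p :=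
  B.sy_Lam.rpow_self B.Lam_pos p

theorem sy_mu : Sy Pos B.Lam B.mu B.mu :=
  (B.sy_Lam_rpow (-B.r)).tmul (fun s => Real.exp (-B.r * s)) fun _ => (Real.exp_pos _).le

theorem sy_om (a : ℝ) : Sy Pos B.Lam (B.om a) (B.om a) :=
  (B.sy_Lam_rpow (-(dd : ℝ) - 2 * a)).tmul (fun s => Real.exp (-2 * a * s))
    fun _ => (Real.exp_pos _).le

/-- The weights `om a`, uniformly in `a ∈ [0, eta]`; the parameter is `(a, s)`. -/
theorem sy_om_unif : Sy (fun (q : ℝ × ℝ) _ => (0 ≤ q.1 ∧ q.1 ≤ B.eta) ∧ 0 ≤ q.2)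
    (fun q => B.Lam q.2) (fun q => B.om q.1 q.2) fun q => B.om q.1 q.2 := by
  have h1 := ((B.sy_Lam.reparam (Prod.snd : ℝ × ℝ → ℝ)).restrict
    (Q := fun (q : ℝ × ℝ) _ => (0 ≤ q.1 ∧ q.1 ≤ B.eta) ∧ 0 ≤ q.2) fun q _ hq => hq.2).rpow_self'
    (fun q x => B.Lam_pos q.2 x) (fun q => -(dd : ℝ) - 2 * q.1) (dd + 2 * B.eta) fun q _ hq => by
      rw [abs_le]; constructor <;> linarith [hq.1.1, hq.1.2, dr_pos]
  exact h1.tmul (fun q => Real.exp (-2 * q.1 * q.2)) fun _ => (Real.exp_pos _).le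

theorem sy_SS (h0 : 0 ≤ B.nu) (h1 : B.nu ≤ 1) : Sy Pos B.Lam B.SS B.SS := by
  have h2 : Sy Pos B.Lam (fun s x => Real.exp (-2 * s) + B.nu ^ 2 * B.cut.rho2 x)
      fun s x => Real.exp (-2 * s) + B.nu ^ 2 * B.cut.rho2 x :=
    (B.sy_exp2.mono_le fun s x _ => by
      linarith [mul_nonneg (sq_nonneg B.nu) (B.cut.rho2_nonneg x)]).add
      ((B.sy_rho2.tmul (fun _ => B.nu ^ 2) fun _ => sq_nonneg _).mono_le fun s x _ => by
        rw [← SS_sq, ← mul_pow]
        exact pow_le_pow_left₀ (mul_nonneg h0 (B.Lam_pos s x).le) (B.nu_Lam_le_SS h0 h1 s x) 2)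
  exact h2.sqrt_self B.SS2_pos

theorem sy_sig (h0 : 0 ≤ B.nu) (h1 : B.nu ≤ 1) : Sy Pos B.Lam B.sig B.sig :=
  (Sy.const_le (fun s x _ => B.Lam_pos s x) (fun s => Real.exp (-s)) fun s x _ => by
    rw [abs_of_pos (Real.exp_pos _)]
    exact (B.exp_neg_le_SS s x).trans (B.SS_le_sig s x)).add
    ((B.sy_SS h0 h1).mono_le fun s x _ => B.SS_le_sig s x)

/-- From the scale `Lam` to the scale `sig`. -/
theorem to_sig {P : ℝ → E3 → Prop} {m a : ℝ → E3 → ℝ} (h0 : 0 ≤ B.nu) (h1 : B.nu ≤ 1)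
    (h : Sy P B.Lam m a) : Sy P B.sig m a :=
  h.scale two_pos fun s x _ => ⟨B.sig_pos s x, B.sig_le h0 h1 s x⟩

/-- From the scale `sig` to the scale `Lam` (the constants depend on `nu`). -/
theorem to_Lam {P : ℝ → E3 → Prop} {m a : ℝ → E3 → ℝ} (h0 : 0 < B.nu) (h1 : B.nu ≤ 1)
    (h : Sy P B.sig m a) : Sy P B.Lam m a :=
  h.scale (inv_pos.2 h0) fun s x _ => ⟨B.Lam_pos s x, by
    rw [inv_mul_eq_div, le_div_iff₀ h0, mul_comm]
    exact B.nu_Lam_le_sig h0.le h1 s x⟩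

/-- One is a size below every nonpositive power of `Lam`. -/
theorem one_le_Lam_rpow {p : ℝ} (hp : p ≤ 0) {s : ℝ} (hs : 0 ≤ s) (x : E3) :
    1 ≤ (dd + 1 : ℝ) ^ (-p) * B.Lam s x ^ p := by
  have h1 : (dd + 1 : ℝ) ^ p ≤ B.Lam s x ^ p :=
    Real.rpow_le_rpow_of_nonpos (B.Lam_pos s x) (B.Lam_le_dd hs x) hp
  have h2 : (dd + 1 : ℝ) ^ (-p) * (dd + 1 : ℝ) ^ p = 1 := by
    rw [← Real.rpow_add (by positivity)]; simp
  exact h2.symm.trans_le (mul_le_mul_of_nonneg_left h1 (by positivity))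

end BgD

/-! ### Rescaled functions -/

namespace Cut

variable (cut : Cut)

theorem cd_comp {Φ : E3 → ℝ} (h : ContDiff ℝ ∞ Φ) : CD fun s x => Φ (Real.exp s • cut.pi x) :=
  h.comp ((Real.contDiff_exp.comp contDiff_fst).smul (cut.cd_pi.comp contDiff_snd))

theorem cd_resc (c : ℝ) {Φ : E3 → ℝ} (h : ContDiff ℝ ∞ Φ) : CD (cut.resc c Φ) :=
  (CD.of_space cut.cd_chi).mul ((CD.exp_mul c).mul (cut.cd_comp h))

theorem per_resc (c : ℝ) (Φ : E3 → ℝ) (s : ℝ) : Per (cut.resc c Φ s) := fun i x => by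
  simp only [resc, cut.per_chi i x, cut.per_pi i x]

theorem resc_loc (c : ℝ) (Φ : E3 → ℝ) (s : ℝ) {x : E3} (h : inn x) :
    cut.resc c Φ s =ᶠ[𝓝 x] fun y => cut.chi y * (Real.exp (c * s) * Φ (Real.exp s • y)) :=
  (cut.pi_loc h).mono fun y hy => by simp only [resc, hy]

theorem resc_loc_zero (c : ℝ) (Φ : E3 → ℝ) (s : ℝ) {x : E3} (h : box (1 / 2) x) (hi : ¬inn x) :
    cut.resc c Φ s =ᶠ[𝓝 x] fun _ => 0 :=
  (cut.chi_loc_zero h hi).mono fun y hy => by simp only [resc, hy, zero_mul]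

theorem resc_eq (c : ℝ) (Φ : E3 → ℝ) (s : ℝ) {x : E3} (h : box (1 / 8) x) :
    cut.resc c Φ s x = Real.exp (c * s) * Φ (Real.exp s • x) := by
  rw [resc, cut.chi_one x h, cut.pi_eq x (h.mono (by norm_num)), one_mul]

theorem dS_resc (c : ℝ) {Φ : E3 → ℝ} (h : ContDiff ℝ ∞ Φ) (s : ℝ) (x : E3) :
    dS (cut.resc c Φ) s x = cut.resc c (fun y => c * Φ y + ∑ i, y i * dX i Φ y) s x := by
  have h1 : HasDerivAt (fun t => Real.exp t • cut.pi x) (Real.exp s • cut.pi x) s :=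
    (Real.hasDerivAt_exp s).smul_const _
  have h2 := (cd_diff h (Real.exp s • cut.pi x)).hasFDerivAt.comp_hasDerivAt s h1
  have h3 := ((BgD.hasDerivAt_exp_mul c s).mul h2).const_mul (cut.chi x)
  refine (dS_eq (a := cut.resc c Φ) h3).trans ?_
  rw [fderiv_eq_sum_dX (cd_diff h _)]
  simp only [resc, Function.comp, smul_eq_mul]
  ring

end Cut

/-- A symbol of order `β` in `y = exp(s) x` is a symbol of size `(exp(s) Lam) ^ β` in the inner box. -/
theorem BgD.sy_scale (B : BgD) {β : ℝ} {Φ : E3 → ℝ} (h : PS β Φ) :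
    Sy (fun _ x => inn x) B.Lam (fun s x => (Real.exp s * B.Lam s x) ^ β)
      fun s x => Φ (Real.exp s • x) := by
  refine ⟨fun s => h.cd.comp (contDiff_const_smul _), fun s x _ => B.Lam_pos s x, fun w => ?_⟩
  obtain ⟨K, hK, H⟩ := Sy.bd h w
  refine ⟨K, hK, fun s x hx => ?_⟩
  have h1 := H () (Real.exp s • x) trivial
  rw [← B.exp_mul_Lam s hx.to_box, mul_pow] at h1
  rw [congrFun (dXw_comp_smul (sm_of_cd h.cd) (Real.exp s) w) x, smul_eq_mul, abs_mul,
    abs_of_pos (pow_pos (Real.exp_pos s) _)]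
  linarith

/-- The cut-off rescaled copy of a symbol of order `β`. -/
theorem BgD.sy_resc (B : BgD) (c : ℝ) {β : ℝ} {Φ : E3 → ℝ} (h : PS β Φ) :
    Sy Pos B.Lam (fun s x => Real.exp ((c + β) * s) * B.Lam s x ^ β) (B.cut.resc c Φ) := by
  have hcd := fun s => (B.cut.cd_resc c h.cd).slice s
  refine Sy.of_inn_out (p := fun s : ℝ => 0 ≤ s) ?_ ?_ B.per_Lam
    (fun s => (B.per_Lam s).map fun v => Real.exp ((c + β) * s) * v ^ β) (B.cut.per_resc c Φ)
  · have h1 := (B.sy_chi.restrict (Q := fun s x => 0 ≤ s ∧ inn x) fun s x hp => hp.1).one_mul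
      (((B.sy_scale h).restrict (Q := fun s x => 0 ≤ s ∧ inn x) fun s x hp => hp.2).tmul
        (fun s => Real.exp (c * s)) fun _ => (Real.exp_pos _).le)
    refine (h1.congr_loc hcd fun s x hp => B.cut.resc_loc c Φ s hp.2).congr_m fun s x _ => ?_
    rw [B.vp_rpow, ← mul_assoc, ← Real.exp_add, add_mul]
  · refine (Sy.zero (fun s x _ => B.Lam_pos s x) fun s x _ => ?_).congr_loc hcd
      fun s x hp => B.cut.resc_loc_zero c Φ s hp.2.1 hp.2.2
    exact (mul_pos (Real.exp_pos _) (Real.rpow_pos_of_pos (B.Lam_pos s x) _)).le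

end Pool.Agent.BoltzD

end
end MrgPart3

-- ======== part 4: formerly Pool.Agent.BoltzD.Bg.Main
section MrgPart4

/-! MC1a: the explicit background satisfies everything in `BgD.Ok` except `hyp`. -/

set_option autoImplicit false

open Pool.Agent.BoltzC Finset Filter Topology
open scoped ContDiff

noncomputable section

namespace Pool.Agent.BoltzD

variable [Dim]

theorem SymBd.scale {K : ℕ → ℝ} {n0 : ℕ} {s τ m a : E3 → ℝ} {c : ℝ} (h : SymBd K n0 s m a)
    (hc : 0 ≤ c) (h0 : ∀ x, 0 ≤ τ x) (h1 : ∀ x, τ x ≤ c * s x) :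
    SymBd (fun n => c ^ n * K n) n0 τ m a := by
  intro w hw x
  have h2 : τ x ^ w.length ≤ c ^ w.length * s x ^ w.length := by
    rw [← mul_pow]
    exact pow_le_pow_left₀ (h0 x) (h1 x) _
  calc τ x ^ w.length * |dXw w a x| ≤ c ^ w.length * s x ^ w.length * |dXw w a x| :=
        mul_le_mul_of_nonneg_right h2 (abs_nonneg _)
    _ = c ^ w.length * (s x ^ w.length * |dXw w a x|) := by ring
    _ ≤ c ^ w.length * (K w.length * m x) := mul_le_mul_of_nonneg_left (h w hw x) (by positivity)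
    _ = _ := by ring

namespace BgD

variable {B : BgD}

theorem cd_mat (hu : ∀ i, CD (B.u i)) {a : ℝ → E3 → ℝ} (ha : CD a) : CD (B.mat a) :=
  ha.dS.add (CD.sum univ fun i _ => ((CD.exp_mul (-B.r)).mul (hu i)).mul (ha.dX i))

theorem per_mat (pu : ∀ i s, Per (B.u i s)) {a : ℝ → E3 → ℝ} (pa : ∀ s, Per (a s)) (s : ℝ) :
    Per (B.mat a s) := fun j x => by
  simp only [mat, per_dS pa s j x, pu _ s j x, (pa s).dX _ j x]

theorem cd_k1 (hC : CD B.C) : CD B.k1 := (CD.exp_mul (-B.r)).mul (hC.pow (dd + 28))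

theorem per_k1 (pC : ∀ s, Per (B.C s)) (s : ℝ) : Per (B.k1 s) := fun j x => by
  simp only [k1, pC s j x]

theorem cd_fld_u (hu : ∀ i, CD (B.u i)) (i : Ix) : CD fun s => (B.fld s).u i :=
  (CD.exp_mul (-B.r)).mul (hu i)

theorem cd_fld_c (hC : CD B.C) : CD fun s => (B.fld s).c := (CD.exp_mul (-B.r)).mul hC

theorem cd_fld_b0 (hu : ∀ i, CD (B.u i)) (hC : CD B.C) (h0 : ∀ s x, 0 < B.C s x) (j : Ix) :
    CD fun s => (B.fld s).b0 j := (cd_mat hu (hu j)).neg.div hC fun s x => (h0 s x).ne'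

theorem cd_fld_b1 (hu : ∀ i, CD (B.u i)) (hC : CD B.C) (h0 : ∀ s x, 0 < B.C s x) (i j : Ix) :
    CD fun s => (B.fld s).b1 i j := by
  have h1 : CD fun s x => if i = j then B.mat B.C s x / B.C s x else 0 := by
    split_ifs
    · exact (cd_mat hu hC).div hC fun s x => (h0 s x).ne'
    · exact CD.const 0
  exact ((CD.exp_mul (-B.r)).mul ((hu j).dX i)).neg.sub h1

theorem cd_fld_b2 (hC : CD B.C) (i : Ix) : CD fun s => (B.fld s).b2 i :=
  ((CD.exp_mul (-B.r)).mul (hC.dX i)).neg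

theorem fldC_of (hu : ∀ i, CD (B.u i)) (hC : CD B.C) (pu : ∀ i s, Per (B.u i s))
    (pC : ∀ s, Per (B.C s)) (h0 : ∀ s x, 0 < B.C s x) : FldC B.fld := by
  refine ⟨fun i => (cd_fld_u hu i).smC, (cd_fld_c hC).smC, fun j => (cd_fld_b0 hu hC h0 j).smC,
    fun i j => (cd_fld_b1 hu hC h0 i j).smC, fun i => (cd_fld_b2 hC i).smC, fun s =>
    ⟨fun i => ⟨(cd_fld_u hu i).sm s, fun k x => ?_⟩, ⟨(cd_fld_c hC).sm s, fun k x => ?_⟩,
      fun j => ⟨(cd_fld_b0 hu hC h0 j).sm s, fun k x => ?_⟩,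
      fun i j => ⟨(cd_fld_b1 hu hC h0 i j).sm s, fun k x => ?_⟩,
      fun i => ⟨(cd_fld_b2 hC i).sm s, fun k x => ?_⟩⟩⟩
  · simp only [fld, pu i s k x]
  · simp only [fld, pC s k x]
  · simp only [fld, per_mat pu (pu j) s k x, pC s k x]
  · simp only [fld, per_mat pu pC s k x, pC s k x, (pu j s).dX i k x]
  · simp only [fld, (pC s).dX i k x]

theorem Pre.ok {K : ℕ → ℝ} {c0 : ℝ} {U : Ix → E3 → ℝ} {C : E3 → ℝ} (h : B.Pre K c0 U C)
    (hyp : B.Hyp) : B.Ok := by
  have hu : ∀ i, CD (B.u i) := h.cd_u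
  have hC : CD B.C := h.cd_C
  have sc : ∀ {s : ℝ} {m a : E3 → ℝ}, SymBd K 0 (B.Lam s) m a →
      SymBd (fun n => 2 ^ n * K n) 0 (B.sig s) m a := fun {s _ _} hs =>
    hs.scale zero_le_two (fun x => (B.sig_pos s x).le) (B.sig_le h.nu_pos.le h.nu_le s)
  exact ⟨h.r_gt, h.r_lt, h.nu_pos, h.nu_le, h.cd_u, h.cd_C, h.per_u, h.per_C, h.C_pos,
    fun i => (hu i).smD, hC.smD, fun a => (B.cd_om a).smD, B.cd_sig.smD, B.cd_mu.smC,
    (cd_k1 hC).smC, fldC_of hu hC h.per_u h.per_C h.C_pos, ⟨c0, h.c0_pos, h.C_ge⟩,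
    ⟨fun n => 2 ^ n * K n, fun s hs => ⟨fun i => sc ((h.sym s hs).1 i), sc (h.sym s hs).2.1,
      fun i => sc ((h.sym s hs).2.2.1 i), sc (h.sym s hs).2.2.2⟩⟩,
    hyp, h.euler_u, h.euler_C, ⟨U, C, h.cd_U', h.cd_C', h.scal⟩⟩

end BgD

theorem Cut.dX_resc (cut : Cut) (c : ℝ) {Φ : E3 → ℝ} (h : ContDiff ℝ ∞ Φ) (s : ℝ) {x : E3}
    (hx : ∀ i, |x i| < 1 / 8) (i : Ix) :
    dX i (cut.resc c Φ s) x = Real.exp (c * s) * (Real.exp s * dX i Φ (Real.exp s • x)) := by
  have e : cut.resc c Φ s =ᶠ[𝓝 x] fun y => Real.exp (c * s) • Φ (Real.exp s • y) :=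
    (eventually_box hx).mono fun y hy => cut.resc_eq c Φ s hy
  rw [dX_congr_at e, congrFun (dX_const_smul (sm_comp_smul (sm_of_cd h) _).dif _ i) x,
    congrFun (dX_comp_smul (cd_dif h) (Real.exp s) i) x, smul_eq_mul, smul_eq_mul]

namespace Prof

variable (P : Prof)

/-- The quadratic terms of the velocity equation. -/
def PsiU (j : Ix) (y : E3) : ℝ :=
  ∑ i, P.U i y * dX i (P.U j) y + (dd + 2) * (P.C y * dX j P.C y)

/-- The quadratic terms of the equation for the thermal speed. -/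
def PsiC (y : E3) : ℝ :=
  ∑ i, P.U i y * dX i P.C y + (dd : ℝ)⁻¹ * (P.C y * ∑ i, dX i (P.U i) y)

theorem ps_PsiU (j : Ix) : PS (1 - P.r + (1 - P.r - 1)) (P.PsiU j) :=
  (PS.sum fun i => (P.ps_U i).mul ((P.ps_U j).dX i)).add
    ((P.ps_C.mul (P.ps_C.dX j)).cmul (dd + 2))

theorem ps_PsiC : PS (1 - P.r + (1 - P.r - 1)) P.PsiC :=
  (PS.sum fun i => (P.ps_U i).mul (P.ps_C.dX i)).add
    ((P.ps_C.mul (PS.sum fun i => (P.ps_U i).dX i)).cmul (dd : ℝ)⁻¹)

theorem C_pos (y : E3) : 0 < P.C y :=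
  lt_of_lt_of_le (mul_pos P.c0_pos (Real.rpow_pos_of_pos (by positivity) _)) (P.low y)

variable (cut : Cut) (nu : ℝ)

theorem cd_u (i : Ix) : CD ((mkBg P cut nu).u i) := cut.cd_resc _ (P.cd_U i)

theorem cd_CC : CD (mkBg P cut nu).C :=
  (cut.cd_resc _ P.cd_C).add ((CD.const 1).sub (CD.of_space cut.cd_chi))

theorem dS_u (j : Ix) (s : ℝ) (x : E3) :
    dS ((mkBg P cut nu).u j) s x = -cut.resc (P.r - 1) (P.PsiU j) s x := by
  refine (cut.dS_resc _ (P.cd_U j) s x).trans ?_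
  have h := P.eqU (Real.exp s • cut.pi x) j
  simp only [add_mul, sum_add_distrib] at h
  simp only [Cut.resc, PsiU]
  rw [← mul_neg, ← mul_neg]
  congr 2
  linarith

theorem dS_CC (s : ℝ) (x : E3) :
    dS (mkBg P cut nu).C s x = -cut.resc (P.r - 1) P.PsiC s x := by
  have h1 := ((cut.cd_resc (P.r - 1) P.cd_C).hasDerivAt s x).add_const (1 - cut.chi x)
  refine (dS_eq (a := (mkBg P cut nu).C) h1).trans ((cut.dS_resc _ P.cd_C s x).trans ?_)
  have h := P.eqC (Real.exp s • cut.pi x)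
  simp only [add_mul, sum_add_distrib] at h
  simp only [Cut.resc, PsiC]
  rw [← mul_neg, ← mul_neg]
  congr 2
  linarith

theorem CC_eq (s : ℝ) {x : E3} (h : box (1 / 8) x) :
    (mkBg P cut nu).C s x = Real.exp ((P.r - 1) * s) * P.C (Real.exp s • x) := by
  simp only [mkBg, cut.resc_eq _ _ s h, cut.chi_one x h, sub_self, add_zero]

theorem dX_CC (s : ℝ) {x : E3} (hx : ∀ i, |x i| < 1 / 8) (i : Ix) :
    dX i ((mkBg P cut nu).C s) x =
      Real.exp ((P.r - 1) * s) * (Real.exp s * dX i P.C (Real.exp s • x)) := by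
  have e : (mkBg P cut nu).C s =ᶠ[𝓝 x] cut.resc (P.r - 1) P.C s :=
    (eventually_box hx).mono fun y hy => by rw [P.CC_eq cut nu s hy, cut.resc_eq _ _ s hy]
  rw [dX_congr_at e, cut.dX_resc _ P.cd_C s hx]

theorem CC_pos (s : ℝ) (x : E3) : 0 < (mkBg P cut nu).C s x := by
  have h1 := mul_pos (Real.exp_pos ((P.r - 1) * s)) (P.C_pos (Real.exp s • cut.pi x))
  have h2 := cut.chi_nonneg x
  have h3 := cut.chi_le x
  simp only [mkBg, Cut.resc]
  rcases h2.lt_or_eq with h2 | h2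
  · have := mul_pos h2 h1
    linarith
  · rw [← h2]; simp

theorem sy_resc_prof {Φ : E3 → ℝ} (h : PS (1 - P.r) Φ) :
    Sy Pos (mkBg P cut nu).Lam (fun s x => (mkBg P cut nu).Lam s x ^ (1 - P.r))
      (cut.resc (P.r - 1) Φ) :=
  ((mkBg P cut nu).sy_resc (P.r - 1) h).congr_m fun s x _ => by simp

theorem sy_resc_quad {Φ : E3 → ℝ} (h : PS (1 - P.r + (1 - P.r - 1)) Φ) :
    Sy Pos (mkBg P cut nu).Lam
      (fun s x => (mkBg P cut nu).mu s x * (mkBg P cut nu).Lam s x ^ (1 - P.r))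
      (cut.resc (P.r - 1) Φ) :=
  ((mkBg P cut nu).sy_resc (P.r - 1) h).congr_m fun s x _ => by
    have e1 : P.r - 1 + (1 - P.r + (1 - P.r - 1)) = -P.r := by ring
    have e2 : 1 - P.r + (1 - P.r - 1) = -P.r + (1 - P.r) := by ring
    rw [e1, e2, Real.rpow_add ((mkBg P cut nu).Lam_pos s x), ← mul_assoc]
    rfl

theorem sy_u (i : Ix) : Sy Pos (mkBg P cut nu).Lam
    (fun s x => (mkBg P cut nu).Lam s x ^ (1 - P.r)) ((mkBg P cut nu).u i) :=
  P.sy_resc_prof cut nu (P.ps_U i)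

theorem sy_CC : Sy Pos (mkBg P cut nu).Lam
    (fun s x => (mkBg P cut nu).Lam s x ^ (1 - P.r)) (mkBg P cut nu).C := by
  have h1 := ((Sy.const_one (fun s x _ => (mkBg P cut nu).Lam_pos s x) 1).sub
    (mkBg P cut nu).sy_chi).mono (c := (dd + 1 : ℝ) ^ (-(1 - P.r))) (by positivity)
    fun s x hs => (mkBg P cut nu).one_le_Lam_rpow (by linarith [P.r_gt]) hs x
  exact (P.sy_resc_prof cut nu P.ps_C).add h1

theorem sy_dS_u (i : Ix) : Sy Pos (mkBg P cut nu).Lam
    (fun s x => (mkBg P cut nu).mu s x * (mkBg P cut nu).Lam s x ^ (1 - P.r))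
    (dS ((mkBg P cut nu).u i)) :=
  (P.sy_resc_quad cut nu (P.ps_PsiU i)).neg.congr fun s x => (P.dS_u cut nu i s x).symm

theorem sy_dS_CC : Sy Pos (mkBg P cut nu).Lam
    (fun s x => (mkBg P cut nu).mu s x * (mkBg P cut nu).Lam s x ^ (1 - P.r))
    (dS (mkBg P cut nu).C) :=
  (P.sy_resc_quad cut nu P.ps_PsiC).neg.congr fun s x => (P.dS_CC cut nu s x).symm

theorem per_CC (s : ℝ) : Per ((mkBg P cut nu).C s) := fun i x => by
  simp only [mkBg, cut.per_resc _ _ s i x, cut.per_chi i x]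

theorem CC_ge (s : ℝ) (x : E3) :
    min P.c0 ((1 / 32) ^ (P.r - 1)) * (mkBg P cut nu).Lam s x ^ (1 - P.r) ≤
      (mkBg P cut nu).C s x := by
  set B := mkBg P cut nu with hB
  set c := min P.c0 ((1 / 32) ^ (P.r - 1)) with hc
  refine per_red (p := fun x => c * B.Lam s x ^ (1 - P.r) ≤ B.C s x) (fun i y => ?_)
    (fun y hy => ?_) x
  · have e : B.C s (y + ev i) = B.C s y := P.per_CC cut nu s i y
    simp only [B.per_Lam s i y, e]
  have hL := Real.rpow_pos_of_pos (B.Lam_pos s y) (1 - P.r)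
  have h1 : cut.chi y * (c * B.Lam s y ^ (1 - P.r)) ≤ cut.resc (P.r - 1) P.C s y := by
    by_cases h0 : cut.chi y = 0
    · simp [Cut.resc, h0]
    have hb : box (1 / 4) y := (cut.box_of_chi_ne hy h0).mono (by norm_num)
    refine mul_le_mul_of_nonneg_left ?_ (cut.chi_nonneg y)
    have h2 := P.low (Real.exp s • y)
    rw [← jb_rpow, ← B.exp_mul_Lam s hb, B.vp_rpow] at h2
    have h3 := mul_le_mul_of_nonneg_left h2 (Real.exp_pos ((P.r - 1) * s)).le
    have h4 : Real.exp ((P.r - 1) * s) * Real.exp ((1 - P.r) * s) = 1 := by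
      rw [← Real.exp_add, Real.exp_eq_one_iff]; ring
    have h5 : c * B.Lam s y ^ (1 - P.r) ≤ P.c0 * B.Lam s y ^ (1 - P.r) :=
      mul_le_mul_of_nonneg_right (min_le_left _ _) hL.le
    rw [cut.pi_eq y hb]
    calc c * B.Lam s y ^ (1 - P.r) ≤ P.c0 * B.Lam s y ^ (1 - P.r) := h5
      _ = Real.exp ((P.r - 1) * s) * (P.c0 * (Real.exp ((1 - P.r) * s) * B.Lam s y ^ (1 - P.r))) := by
          linear_combination (-(P.c0 * B.Lam s y ^ (1 - P.r))) * h4
      _ ≤ _ := h3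
  have h2 : (1 - cut.chi y) * (c * B.Lam s y ^ (1 - P.r)) ≤ 1 - cut.chi y := by
    by_cases h8 : box (1 / 8) y
    · simp [cut.chi_one y h8]
    have h3 : (1 / 32 : ℝ) ≤ B.Lam s y := by
      linarith [B.Lam_ge_of_not_box s (by norm_num) hy h8]
    have h4 : B.Lam s y ^ (1 - P.r) ≤ (1 / 32 : ℝ) ^ (1 - P.r) :=
      Real.rpow_le_rpow_of_nonpos (by norm_num) h3 (by linarith [P.r_gt])
    have h5 : (1 / 32 : ℝ) ^ (P.r - 1) * (1 / 32 : ℝ) ^ (1 - P.r) = 1 := by
      rw [← Real.rpow_add (by norm_num)]; simp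
    have h6 : c * B.Lam s y ^ (1 - P.r) ≤ 1 :=
      (mul_le_mul (min_le_right _ _) h4 hL.le (by positivity)).trans h5.le
    exact mul_le_of_le_one_right (by linarith [cut.chi_le y]) h6
  have e : B.C s y = cut.resc (P.r - 1) P.C s y + (1 - cut.chi y) := rfl
  rw [e]
  linarith

theorem exp_cancel (s : ℝ) : Real.exp (-P.r * s) * Real.exp ((P.r - 1) * s) * Real.exp s = 1 := by
  rw [← Real.exp_add, ← Real.exp_add, Real.exp_eq_one_iff]; ring

theorem euler_u (j : Ix) (s : ℝ) {x : E3} (h : box (1 / 10) x) :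
    (mkBg P cut nu).mat ((mkBg P cut nu).u j) s x + (dd + 2) *
      (Real.exp (-P.r * s) * (mkBg P cut nu).C s x) * dX j ((mkBg P cut nu).C s) x = 0 := by
  have h8 : box (1 / 8) x := h.mono (by norm_num)
  have hx : ∀ i, |x i| < 1 / 8 := fun i => (h i).trans_lt (by norm_num)
  have e : ∀ i, Real.exp (-(mkBg P cut nu).r * s) * (mkBg P cut nu).u i s x *
      dX i ((mkBg P cut nu).u j s) x = Real.exp ((P.r - 1) * s) *
        (P.U i (Real.exp s • x) * dX i (P.U j) (Real.exp s • x)) := fun i => by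
    have e1 : (mkBg P cut nu).u i s x = _ := cut.resc_eq _ (P.U i) s h8
    have e2 : dX i ((mkBg P cut nu).u j s) x = _ := cut.dX_resc _ (P.cd_U j) s hx i
    rw [e1, e2, show (mkBg P cut nu).r = P.r from rfl]
    linear_combination (Real.exp ((P.r - 1) * s) *
      (P.U i (Real.exp s • x) * dX i (P.U j) (Real.exp s • x))) * P.exp_cancel s
  rw [BgD.mat, P.dS_u, P.CC_eq cut nu s h8, P.dX_CC cut nu s hx, cut.resc_eq _ _ s h8, PsiU,
    sum_congr rfl fun i _ => e i, ← mul_sum]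
  linear_combination (Real.exp ((P.r - 1) * s) *
    ((dd + 2) * (P.C (Real.exp s • x) * dX j P.C (Real.exp s • x)))) * P.exp_cancel s

theorem euler_C (s : ℝ) {x : E3} (h : box (1 / 10) x) :
    (mkBg P cut nu).mat (mkBg P cut nu).C s x + (dd : ℝ)⁻¹ * (mkBg P cut nu).C s x *
      ∑ i, Real.exp (-P.r * s) * dX i ((mkBg P cut nu).u i s) x = 0 := by
  have h8 : box (1 / 8) x := h.mono (by norm_num)
  have hx : ∀ i, |x i| < 1 / 8 := fun i => (h i).trans_lt (by norm_num)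
  have e : ∀ i, Real.exp (-(mkBg P cut nu).r * s) * (mkBg P cut nu).u i s x *
      dX i ((mkBg P cut nu).C s) x = Real.exp ((P.r - 1) * s) *
        (P.U i (Real.exp s • x) * dX i P.C (Real.exp s • x)) := fun i => by
    have e1 : (mkBg P cut nu).u i s x = _ := cut.resc_eq _ (P.U i) s h8
    rw [e1, P.dX_CC cut nu s hx, show (mkBg P cut nu).r = P.r from rfl]
    linear_combination (Real.exp ((P.r - 1) * s) *
      (P.U i (Real.exp s • x) * dX i P.C (Real.exp s • x))) * P.exp_cancel s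
  have e' : ∀ i, Real.exp (-P.r * s) * dX i ((mkBg P cut nu).u i s) x =
      dX i (P.U i) (Real.exp s • x) := fun i => by
    have e2 : dX i ((mkBg P cut nu).u i s) x = _ := cut.dX_resc _ (P.cd_U i) s hx i
    rw [e2]
    linear_combination dX i (P.U i) (Real.exp s • x) * P.exp_cancel s
  rw [BgD.mat, P.dS_CC, P.CC_eq cut nu s h8, cut.resc_eq _ _ s h8, PsiC,
    sum_congr rfl fun i _ => e i, sum_congr rfl fun i _ => e' i, ← mul_sum]
  ring

end Prof

theorem preStmt : PreStmt := by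
  intro P
  obtain ⟨cut⟩ := cut_exists
  choose K1 k1 H1 using fun i => (P.sy_u cut 1 i).symBd (p := fun s : ℝ => 0 ≤ s)
  obtain ⟨K2, k2, H2⟩ := (P.sy_CC cut 1).symBd (p := fun s : ℝ => 0 ≤ s)
  choose K3 k3 H3 using fun i => (P.sy_dS_u cut 1 i).symBd (p := fun s : ℝ => 0 ≤ s)
  obtain ⟨K4, k4, H4⟩ := (P.sy_dS_CC cut 1).symBd (p := fun s : ℝ => 0 ≤ s)
  have s1 : ∀ n, 0 ≤ ∑ i, K1 i n := fun n => sum_nonneg fun i _ => (k1 i n).le
  have s3 : ∀ n, 0 ≤ ∑ i, K3 i n := fun n => sum_nonneg fun i _ => (k3 i n).le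
  have l1 : ∀ i n, K1 i n ≤ ∑ i, K1 i n := fun i n =>
    single_le_sum (f := fun i => K1 i n) (fun j _ => (k1 j n).le) (mem_univ i)
  have l3 : ∀ i n, K3 i n ≤ ∑ i, K3 i n := fun i n =>
    single_le_sum (f := fun i => K3 i n) (fun j _ => (k3 j n).le) (mem_univ i)
  refine ⟨cut, fun n => ∑ i, K1 i n + K2 n + ∑ i, K3 i n + K4 n,
    min P.c0 ((1 / 32) ^ (P.r - 1)), fun nu h0 h1 => ⟨P.r_gt, P.r_lt, h0, h1, P.cd_u cut nu,
    P.cd_CC cut nu, fun i s => cut.per_resc _ _ s, P.per_CC cut nu, P.CC_pos cut nu,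
    fun n => by linarith [s1 n, s3 n, k2 n, k4 n], lt_min P.c0_pos (by positivity),
    fun s _ x => P.CC_ge cut nu s x, fun s hs => ?_, fun j s x hx => P.euler_u cut nu j s hx,
    fun s x hx => P.euler_C cut nu s hx, P.cd_U, P.cd_C,
    fun s x hx => ⟨fun i => cut.resc_eq _ _ s hx, P.CC_eq cut nu s hx⟩⟩⟩
  have m1 : ∀ x, 0 ≤ (mkBg P cut 1).Lam s x ^ (1 - P.r) := fun x =>
    (Real.rpow_pos_of_pos ((mkBg P cut 1).Lam_pos s x) _).le
  have m2 : ∀ x, 0 ≤ (mkBg P cut 1).mu s x * (mkBg P cut 1).Lam s x ^ (1 - P.r) := fun x =>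
    mul_nonneg ((mkBg P cut 1).mu_pos s x).le (m1 x)
  exact ⟨fun i => (H1 i s hs).mono_K (fun n => by linarith [l1 i n, s3 n, k2 n, k4 n]) m1,
    (H2 s hs).mono_K (fun n => by linarith [s1 n, s3 n, k4 n]) m1,
    fun i => (H3 i s hs).mono_K (fun n => by linarith [l3 i n, s1 n, k2 n, k4 n]) m2,
    (H4 s hs).mono_K (fun n => by linarith [s1 n, s3 n, k2 n]) m2⟩

end Pool.Agent.BoltzD

end
end MrgPart4

-- marker of a merged file
example : 731051 + 116420 = 731051 + 116420 := rfl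

end MrgPart1

-- marker of a merged file
example : 731051 + 116420 = 731051 + 116420 := rfl
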