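import Mathlib
import Pool.Agent.BoltzD.Spec.Bg

/-! Interface between the two halves of module MC1. -/

set_option autoImplicit false

open MeasureTheory Pool.Agent.BoltzC Finset
open scoped ContDiff

noncomputable section

namespace Pool.Agent.BoltzD

variable [Dim]

/-- All fields of `BgD.Ok` except `hyp`; the field `scal` also carries the repulsivity of the
profile. -/
structure BgD.Ok0 (B : BgD) : Prop where
  r_gt : 30 / 29 < B.r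
  r_lt : B.r < 3 / 2
  nu_pos : 0 < B.nu
  nu_le : B.nu ≤ 1
  cd_u : ∀ i, ContDiff ℝ ∞ fun p : ℝ × E3 => B.u i p.1 p.2
  cd_C : ContDiff ℝ ∞ fun p : ℝ × E3 => B.C p.1 p.2
  per_u : ∀ i s, Per (B.u i s)
  per_C : ∀ s, Per (B.C s)
  C_pos : ∀ s x, 0 < B.C s x
  sm_u : ∀ i, SmD (B.u i) (dS (B.u i))
  sm_C : SmD B.C (dS B.C)
  sm_om : ∀ a, SmD (B.om a) (dS (B.om a))
  sm_sig : SmD B.sig (dS B.sig)
  sm_mu : SmC B.mu
  sm_k1 : SmC B.k1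
  fldC : FldC B.fld
  C_ge : ∃ c0 : ℝ, 0 < c0 ∧ ∀ s, 0 ≤ s → ∀ x, c0 * B.Lam s x ^ (1 - B.r) ≤ B.C s x
  sym : ∃ K : ℕ → ℝ, ∀ s, 0 ≤ s →
    (∀ i, SymBd K 0 (B.sig s) (fun x => B.Lam s x ^ (1 - B.r)) (B.u i s)) ∧
    SymBd K 0 (B.sig s) (fun x => B.Lam s x ^ (1 - B.r)) (B.C s) ∧
    (∀ i, SymBd K 0 (B.sig s) (fun x => B.mu s x * B.Lam s x ^ (1 - B.r)) (dS (B.u i) s)) ∧
    SymBd K 0 (B.sig s) (fun x => B.mu s x * B.Lam s x ^ (1 - B.r)) (dS B.C s)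
  euler_u : ∀ j s x, box (1 / 10) x →
    B.mat (B.u j) s x + (dd + 2) * (Real.exp (-B.r * s) * B.C s x) * dX j (B.C s) x = 0
  euler_C : ∀ s x, box (1 / 10) x →
    B.mat B.C s x + (dd : ℝ)⁻¹ * B.C s x * ∑ i, Real.exp (-B.r * s) * dX i (B.u i s) x = 0
  scal : ∃ (U : Ix → E3 → ℝ) (C : E3 → ℝ) (lam : ℝ), 0 < lam ∧ (∀ i, ContDiff ℝ ∞ (U i)) ∧
    ContDiff ℝ ∞ C ∧
    (∀ s x, box (1 / 8) x → (∀ i, B.u i s x = Real.exp ((B.r - 1) * s) * U i (Real.exp s • x)) ∧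
      B.C s x = Real.exp ((B.r - 1) * s) * C (Real.exp s • x)) ∧
    ∀ (y : E3) (ξ : Ix → ℝ), lam * ∑ i, ξ i ^ 2 ≤
      (1 - cs * √(∑ i, dX i C y ^ 2)) * ∑ i, ξ i ^ 2 + ∑ p, ∑ i, ξ p * ξ i * dX p (U i) y

/-- MC1a: the background without the field `hyp`, for every value of `nu`. -/
def Bg0Stmt : Prop :=
  M1Stmt → ∃ (r : ℝ) (cut : Cut) (u : Ix → ℝ → E3 → ℝ) (C : ℝ → E3 → ℝ),
    ∀ nu : ℝ, 0 < nu → nu ≤ 1 → BgD.Ok0 ⟨r, nu, cut, u, C⟩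

end Pool.Agent.BoltzD
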